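import Mathlib

/-!
# The (2,3)-count matroid of a multigraph

Edges are elements of a type `ε`, the ends of the edge `f` form the two-element set `h f`.
-/

set_option autoImplicit false
set_option linter.unusedSectionVars false

namespace Pool.Agent.R31.Count23

variable {ε W : Type} [DecidableEq ε] [DecidableEq W] [Fintype W]

/-- The number of edges of `S` inside `X`. -/
def ins (h : ε → Finset W) (S : Finset ε) (X : Finset W) : ℕ := (S.filter (fun f => h f ⊆ X)).card

/-- `S` is (2,3)-sparse. -/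
def Sp (h : ε → Finset W) (S : Finset ε) : Prop :=
  ∀ X : Finset W, 2 ≤ X.card → ins h S X + 3 ≤ 2 * X.card

variable {h : ε → Finset W} {S S' I J F : Finset ε} {X Y : Finset W} {f : ε}

omit [Fintype W] in
theorem ins_mono_left (hS : S ⊆ S') : ins h S X ≤ ins h S' X :=
  Finset.card_le_card (Finset.filter_subset_filter _ hS)

omit [Fintype W] in
theorem ins_mono_right (hX : X ⊆ Y) : ins h S X ≤ ins h S Y := by
  apply Finset.card_le_card
  intro f hf
  rw [Finset.mem_filter] at hf ⊢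
  exact ⟨hf.1, hf.2.trans hX⟩

omit [Fintype W] in
theorem ins_insert_le : ins h (insert f S) X ≤ ins h S X + 1 := by
  unfold ins
  rw [Finset.filter_insert]
  split_ifs
  · exact Finset.card_insert_le _ _
  · omega

omit [Fintype W] in
theorem ins_insert_of_not (hf : ¬ h f ⊆ X) : ins h (insert f S) X = ins h S X := by
  unfold ins
  rw [Finset.filter_insert, if_neg hf]

omit [Fintype W] in
theorem ins_insert_of (hf : h f ⊆ X) (hfS : f ∉ S) : ins h (insert f S) X = ins h S X + 1 := by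
  unfold ins
  rw [Finset.filter_insert, if_pos hf, Finset.card_insert_of_notMem]
  intro h'
  exact hfS (Finset.mem_filter.mp h').1

omit [Fintype W] in
theorem Sp.mono (hS : Sp h S') (hSS : S ⊆ S') : Sp h S := by
  intro X hX
  have := hS X hX
  have := ins_mono_left (h := h) (X := X) hSS
  omega

omit [Fintype W] in
theorem sp_empty : Sp h ∅ := by
  intro X hX
  simp only [ins, Finset.filter_empty, Finset.card_empty]
  omega

omit [Fintype W] in
theorem ins_add_le : ins h S X + ins h S Y ≤ ins h S (X ∪ Y) + ins h S (X ∩ Y) := by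
  unfold ins
  have e1 : (S.filter (fun f => h f ⊆ X)) ∩ (S.filter (fun f => h f ⊆ Y)) =
      S.filter (fun f => h f ⊆ X ∩ Y) := by
    ext f
    simp only [Finset.mem_inter, Finset.mem_filter, Finset.subset_inter_iff]
    tauto
  have e2 : (S.filter (fun f => h f ⊆ X)) ∪ (S.filter (fun f => h f ⊆ Y)) ⊆
      S.filter (fun f => h f ⊆ X ∪ Y) := by
    intro f
    simp only [Finset.mem_union, Finset.mem_filter]
    rintro (⟨h1, h2⟩ | ⟨h1, h2⟩)
    · exact ⟨h1, h2.trans Finset.subset_union_left⟩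
    · exact ⟨h1, h2.trans Finset.subset_union_right⟩
  have e3 := Finset.card_union_add_card_inter (S.filter (fun f => h f ⊆ X))
    (S.filter (fun f => h f ⊆ Y))
  have e4 := Finset.card_le_card e2
  rw [e1] at e3
  omega

/-- `X` is tight for `I`. -/
def Tight (h : ε → Finset W) (I : Finset ε) (X : Finset W) : Prop :=
  2 ≤ X.card ∧ ins h I X + 3 = 2 * X.card

omit [Fintype W] in
theorem tight_union (hI : Sp h I) (hX : Tight h I X) (hY : Tight h I Y)
    (hXY : 2 ≤ (X ∩ Y).card) : Tight h I (X ∪ Y) := by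
  have h1 : 2 ≤ (X ∪ Y).card := le_trans hX.1 (Finset.card_le_card Finset.subset_union_left)
  refine ⟨h1, ?_⟩
  have h2 := hI _ h1
  have h3 := hI _ hXY
  have h4 := ins_add_le (h := h) (S := I) (X := X) (Y := Y)
  have h5 := Finset.card_union_add_card_inter X Y
  have h6 := hX.2
  have h7 := hY.2
  omega

open Classical in
/-- The maximal tight sets. -/
noncomputable def comps (h : ε → Finset W) (I : Finset ε) : Finset (Finset W) :=
  Finset.univ.filter (fun X => Tight h I X ∧ ∀ Y, Tight h I Y → X ⊆ Y → Y = X)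

theorem mem_comps : X ∈ comps h I ↔ Tight h I X ∧ ∀ Y, Tight h I Y → X ⊆ Y → Y = X := by
  simp [comps]

theorem exists_comp (hX : Tight h I X) : ∃ Y ∈ comps h I, X ⊆ Y := by
  classical
  obtain ⟨Y, hY, hmax⟩ := Finset.exists_max_image
    (Finset.univ.filter (fun Y => Tight h I Y ∧ X ⊆ Y)) Finset.card
    ⟨X, by simp [hX]⟩
  simp only [Finset.mem_filter, Finset.mem_univ, true_and] at hY hmax
  refine ⟨Y, mem_comps.mpr ⟨hY.1, fun Z hZ hYZ => ?_⟩, hY.2⟩
  have := hmax Z ⟨hZ, hY.2.trans hYZ⟩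
  exact (Finset.eq_of_subset_of_card_le hYZ this).symm

theorem comps_inter (hI : Sp h I) (hX : X ∈ comps h I) (hY : Y ∈ comps h I) (hne : X ≠ Y) :
    (X ∩ Y).card ≤ 1 := by
  by_contra hcon
  have hu := tight_union hI (mem_comps.mp hX).1 (mem_comps.mp hY).1 (by omega)
  have h1 := (mem_comps.mp hX).2 _ hu Finset.subset_union_left
  have h2 := (mem_comps.mp hY).2 _ hu Finset.subset_union_right
  exact hne (h1.symm.trans h2)

/-- `I` is a maximal sparse subset of `F`. -/
def IsBasis (h : ε → Finset W) (F I : Finset ε) : Prop :=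
  I ⊆ F ∧ Sp h I ∧ ∀ f ∈ F, f ∉ I → ¬ Sp h (insert f I)

theorem exists_basis (hJF : J ⊆ F) (hJ : Sp h J) : ∃ I, IsBasis h F I ∧ J ⊆ I := by
  classical
  obtain ⟨I, hI, hmax⟩ := Finset.exists_max_image
    (F.powerset.filter (fun I => Sp h I ∧ J ⊆ I)) Finset.card
    ⟨J, by simp [hJF, hJ]⟩
  simp only [Finset.mem_filter, Finset.mem_powerset] at hI hmax
  refine ⟨I, ⟨hI.1, hI.2.1, fun f hf hfI hsp => ?_⟩, hI.2.2⟩
  have := hmax (insert f I) ⟨Finset.insert_subset hf hI.1, hsp,
    hI.2.2.trans (Finset.subset_insert _ _)⟩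
  rw [Finset.card_insert_of_notMem hfI] at this
  omega

omit [Fintype W] in
theorem tight_edge (hI : Sp h I) (hf : f ∈ I) (h2 : (h f).card = 2) : Tight h I (h f) := by
  refine ⟨h2.ge, ?_⟩
  have h3 := hI (h f) h2.ge
  have h4 : 1 ≤ ins h I (h f) :=
    Finset.card_pos.mpr ⟨f, Finset.mem_filter.mpr ⟨hf, subset_rfl⟩⟩
  omega

theorem basis_cover (hb : IsBasis h F I) (h2 : ∀ f, (h f).card = 2) :
    ∀ f ∈ F, ∃ X ∈ comps h I, h f ⊆ X := by
  intro f hf
  by_cases hfI : f ∈ I
  · exact exists_comp (tight_edge hb.2.1 hfI (h2 f))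
  · have h3 := hb.2.2 f hf hfI
    unfold Sp at h3
    push Not at h3
    obtain ⟨X, hX, hlt⟩ := h3
    have h4 := hb.2.1 X hX
    have h5 : h f ⊆ X := by
      by_contra hcon
      rw [ins_insert_of_not hcon] at hlt
      omega
    have h6 := ins_insert_le (h := h) (S := I) (X := X) (f := f)
    obtain ⟨Y, hY, hXY⟩ := exists_comp (h := h) (I := I) (X := X) ⟨hX, by omega⟩
    exact ⟨Y, hY, h5.trans hXY⟩

theorem comp_unique (hI : Sp h I) (h2 : ∀ f, (h f).card = 2) (hX : X ∈ comps h I)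
    (hY : Y ∈ comps h I) (hfX : h f ⊆ X) (hfY : h f ⊆ Y) : X = Y := by
  by_contra hne
  have h3 := comps_inter hI hX hY hne
  have h4 := Finset.card_le_card (Finset.subset_inter hfX hfY)
  rw [h2] at h4
  omega

/-- The edges of the members of a subfamily. -/
theorem sum_ins_eq (hI : Sp h I) (h2 : ∀ f, (h f).card = 2) {𝒮 : Finset (Finset W)}
    (h𝒮 : 𝒮 ⊆ comps h I) (S : Finset ε) :
    ∑ X ∈ 𝒮, ins h S X = (S.filter (fun f => ∃ X ∈ 𝒮, h f ⊆ X)).card := by
  classical
  unfold ins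
  rw [← Finset.card_biUnion]
  · congr 1
    ext f
    simp only [Finset.mem_biUnion, Finset.mem_filter]
    tauto
  · intro X hX Y hY hne
    rw [Function.onFun, Finset.disjoint_left]
    intro f hf hf'
    rw [Finset.mem_filter] at hf hf'
    exact hne (comp_unique hI h2 (h𝒮 hX) (h𝒮 hY) hf.2 hf'.2)

theorem sum_ins_all (hb : IsBasis h F I) (h2 : ∀ f, (h f).card = 2) (hS : S ⊆ F) :
    ∑ X ∈ comps h I, ins h S X = S.card := by
  rw [sum_ins_eq hb.2.1 h2 subset_rfl]
  congr 1
  rw [Finset.filter_eq_self]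
  intro f hf
  exact basis_cover hb h2 f (hS hf)

theorem basis_card (hb : IsBasis h F I) (h2 : ∀ f, (h f).card = 2) :
    I.card = ∑ X ∈ comps h I, (2 * X.card - 3) := by
  rw [← sum_ins_all hb h2 hb.1]
  refine Finset.sum_congr rfl fun X hX => ?_
  have := (mem_comps.mp hX).1.2
  omega

theorem sub_coll (hI : Sp h I) (h2 : ∀ f, (h f).card = 2) {𝒮 : Finset (Finset W)}
    (h𝒮 : 𝒮 ⊆ comps h I) (hcard : 2 ≤ 𝒮.card) :
    ∑ X ∈ 𝒮, (2 * X.card - 3) + 4 ≤ 2 * (𝒮.biUnion id).card := by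
  classical
  have e1 : ∑ X ∈ 𝒮, (2 * X.card - 3) = ∑ X ∈ 𝒮, ins h I X := by
    refine Finset.sum_congr rfl fun X hX => ?_
    have := (mem_comps.mp (h𝒮 hX)).1.2
    omega
  have e2 : ∑ X ∈ 𝒮, ins h I X ≤ ins h I (𝒮.biUnion id) := by
    rw [sum_ins_eq hI h2 h𝒮]
    apply Finset.card_le_card
    intro f hf
    rw [Finset.mem_filter] at hf ⊢
    obtain ⟨hfI, X, hX, hfX⟩ := hf
    exact ⟨hfI, hfX.trans (Finset.subset_biUnion_of_mem id hX)⟩
  obtain ⟨X, hX, Y, hY, hne⟩ := Finset.one_lt_card.mp (show 1 < 𝒮.card by omega)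
  have hXu : X ⊆ 𝒮.biUnion id := Finset.subset_biUnion_of_mem id hX
  have hYu : Y ⊆ 𝒮.biUnion id := Finset.subset_biUnion_of_mem id hY
  have hXt := (mem_comps.mp (h𝒮 hX))
  have hYt := (mem_comps.mp (h𝒮 hY))
  have hU2 : 2 ≤ (𝒮.biUnion id).card := le_trans hXt.1.1 (Finset.card_le_card hXu)
  have e3 := hI _ hU2
  by_contra hcon
  have htight : Tight h I (𝒮.biUnion id) := ⟨hU2, by omega⟩
  have h5 := hXt.2 _ htight hXu
  have h6 := hYt.2 _ htight hYu
  exact hne (h5.symm.trans h6)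

theorem indep_le (hb : IsBasis h F I) (h2 : ∀ f, (h f).card = 2) (hJF : J ⊆ F) (hJ : Sp h J) :
    J.card ≤ I.card := by
  rw [basis_card hb h2, ← sum_ins_all hb h2 hJF]
  refine Finset.sum_le_sum fun X hX => ?_
  have h3 := (mem_comps.mp hX).1.1
  have := hJ X h3
  omega

open Classical in
/-- The rank: the largest size of a sparse subset. -/
noncomputable def rk (h : ε → Finset W) (F : Finset ε) : ℕ :=
  (F.powerset.filter (fun I => Sp h I)).sup Finset.card

omit [Fintype W] in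
theorem le_rk (hJF : J ⊆ F) (hJ : Sp h J) : J.card ≤ rk h F := by
  classical
  exact Finset.le_sup (f := Finset.card) (Finset.mem_filter.mpr ⟨Finset.mem_powerset.mpr hJF, hJ⟩)

theorem rk_eq (hb : IsBasis h F I) (h2 : ∀ f, (h f).card = 2) : rk h F = I.card := by
  classical
  apply le_antisymm
  · apply Finset.sup_le
    intro J hJ
    rw [Finset.mem_filter, Finset.mem_powerset] at hJ
    exact indep_le hb h2 hJ.1 hJ.2
  · exact le_rk hb.1 hb.2.1

omit [Fintype W] in
theorem rk_mono (hSS : S ⊆ S') : rk h S ≤ rk h S' := by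
  classical
  apply Finset.sup_le
  intro J hJ
  rw [Finset.mem_filter, Finset.mem_powerset] at hJ
  exact le_rk (hJ.1.trans hSS) hJ.2

omit [Fintype W] in
theorem rk_insert_le : rk h (insert f S) ≤ rk h S + 1 := by
  classical
  apply Finset.sup_le
  intro J hJ
  rw [Finset.mem_filter, Finset.mem_powerset] at hJ
  have h1 : J.erase f ⊆ S := by
    intro g hg
    rw [Finset.mem_erase] at hg
    exact (Finset.mem_insert.mp (hJ.1 hg.2)).resolve_left hg.1
  have h2 := le_rk h1 (hJ.2.mono (Finset.erase_subset _ _))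
  have h3 := Finset.pred_card_le_card_erase (s := J) (a := f)
  omega

theorem rk_submod (h2 : ∀ f, (h f).card = 2) (A B : Finset ε) :
    rk h (A ∪ B) + rk h (A ∩ B) ≤ rk h A + rk h B := by
  classical
  obtain ⟨I, hI, -⟩ := exists_basis (h := h) (F := A ∩ B) (J := ∅) (Finset.empty_subset _) sp_empty
  obtain ⟨K, hK, hIK⟩ := exists_basis (h := h) (F := A ∪ B) (J := I)
    (hI.1.trans (Finset.inter_subset_left.trans Finset.subset_union_left)) hI.2.1
  rw [rk_eq hI h2, rk_eq hK h2]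
  have h3 : (K ∩ A).card ≤ rk h A := le_rk Finset.inter_subset_right
    (hK.2.1.mono Finset.inter_subset_left)
  have h4 : (K ∩ B).card ≤ rk h B := le_rk Finset.inter_subset_right
    (hK.2.1.mono Finset.inter_subset_left)
  have h5 := Finset.card_union_add_card_inter (K ∩ A) (K ∩ B)
  have h6 : (K ∩ A) ∪ (K ∩ B) = K := by
    rw [← Finset.inter_union_distrib_left]
    exact Finset.inter_eq_left.mpr hK.1
  have h7 : I ⊆ (K ∩ A) ∩ (K ∩ B) := by
    intro f hf
    have hAB := Finset.mem_inter.mp (hI.1 hf)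
    simp only [Finset.mem_inter]
    exact ⟨⟨hIK hf, hAB.1⟩, ⟨hIK hf, hAB.2⟩⟩
  have h8 := Finset.card_le_card h7
  rw [h6] at h5
  omega

theorem sp_of_rk (h2 : ∀ f, (h f).card = 2) (hF : F.card ≤ rk h F) : Sp h F := by
  obtain ⟨I, hI, -⟩ := exists_basis (h := h) (F := F) (J := ∅) (Finset.empty_subset _) sp_empty
  rw [rk_eq hI h2] at hF
  rw [← Finset.eq_of_subset_of_card_le hI.1 hF]
  exact hI.2.1

end Pool.Agent.R31.Count23
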