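import Mathlib

/-!
# Exactness over the field with two elements for connected plane maps

A combinatorial map with dart set `D`, edge involution `α`, rotation `σ`, and face permutation
`σ ∘ α`. If it is connected and satisfies Euler's formula then every even set of edges is the
coboundary of a set of faces.
-/

set_option autoImplicit false

namespace Pool.Agent.R31.PlaneHomology

open Module

set_option linter.unusedSectionVars false

variable {D V F : Type} [Fintype D] [DecidableEq D] [Fintype V] [DecidableEq V] [Fintype F]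

local instance : Fact (Nat.Prime 2) := ⟨Nat.prime_two⟩

/-- The map `y ↦ y + y ∘ α`. -/
def symm₂ (α : Equiv.Perm D) : (D → ZMod 2) →ₗ[ZMod 2] (D → ZMod 2) where
  toFun y d := y d + y (α d)
  map_add' y z := by funext d; simp only [Pi.add_apply]; ring
  map_smul' c y := by funext d; simp only [Pi.smul_apply, smul_eq_mul, RingHom.id_apply]; ring

theorem add_self₂ (a : ZMod 2) : a + a = 0 := CharTwo.add_self_eq_zero a

theorem eq_of_add_eq_zero₂ {a b : ZMod 2} (h : a + b = 0) : a = b := by
  have h2 : a + b + b = b := by rw [h, zero_add]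
  rwa [add_assoc, add_self₂, add_zero] at h2

theorem mem_ker_symm₂ (α : Equiv.Perm D) (y : D → ZMod 2) :
    y ∈ LinearMap.ker (symm₂ α) ↔ ∀ d, y (α d) = y d := by
  rw [LinearMap.mem_ker]
  constructor
  · intro h d
    have := congrFun h d
    exact (eq_of_add_eq_zero₂ this).symm
  · intro h
    funext d
    change y d + y (α d) = 0
    rw [h, add_self₂]

theorem exists_section (α : Equiv.Perm D) (hα : ∀ d, α (α d) = d) (hα' : ∀ d, α d ≠ d) :
    ∃ P : D → Prop, ∀ d, P (α d) ↔ ¬ P d := by
  classical
  let e := Fintype.equivFin D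
  refine ⟨fun d => e d < e (α d), fun d => ?_⟩
  change e (α d) < e (α (α d)) ↔ ¬ (e d < e (α d))
  rw [hα, not_lt]
  constructor
  · intro h
    exact h.le
  · intro h
    exact lt_of_le_of_ne h (fun h' => hα' d (e.injective h'))

theorem range_symm₂ (α : Equiv.Perm D) (hα : ∀ d, α (α d) = d) (hα' : ∀ d, α d ≠ d) :
    LinearMap.range (symm₂ α) = LinearMap.ker (symm₂ α) := by
  classical
  apply le_antisymm
  · rintro _ ⟨y, rfl⟩
    rw [mem_ker_symm₂]
    intro d
    change y (α d) + y (α (α d)) = y d + y (α d)
    rw [hα, add_comm]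
  · intro y hy
    rw [mem_ker_symm₂] at hy
    obtain ⟨P, hP⟩ := exists_section α hα hα'
    refine ⟨fun d => if P d then y d else 0, ?_⟩
    funext d
    change (if P d then y d else 0) + (if P (α d) then y (α d) else 0) = y d
    by_cases h : P d
    · have h' : ¬ P (α d) := fun h' => (hP d).mp h' h
      rw [if_pos h, if_neg h', add_zero]
    · have h' : P (α d) := (hP d).mpr h
      rw [if_neg h, if_pos h', zero_add, hy]

theorem finrank_ker_symm₂ (α : Equiv.Perm D) (hα : ∀ d, α (α d) = d) (hα' : ∀ d, α d ≠ d) :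
    2 * finrank (ZMod 2) (LinearMap.ker (symm₂ α)) = Fintype.card D := by
  have h := LinearMap.finrank_range_add_finrank_ker (symm₂ α)
  rw [range_symm₂ α hα hα', finrank_fintype_fun_eq_card] at h
  omega

/-- The boundary of a function on darts: its sum around every vertex. -/
def bdry (v : D → V) : (D → ZMod 2) →ₗ[ZMod 2] (V → ZMod 2) where
  toFun y u := ∑ d with v d = u, y d
  map_add' y z := by funext u; simp only [Pi.add_apply, Finset.sum_add_distrib]
  map_smul' c y := by
    funext u
    simp only [Pi.smul_apply, smul_eq_mul, RingHom.id_apply, Finset.mul_sum]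

/-- The coboundary of a function on faces. -/
def cobd (α : Equiv.Perm D) (f : D → F) : (F → ZMod 2) →ₗ[ZMod 2] (D → ZMod 2) :=
  (symm₂ α).comp (LinearMap.funLeft (ZMod 2) (ZMod 2) f)

theorem cobd_apply (α : Equiv.Perm D) (f : D → F) (x : F → ZMod 2) (d : D) :
    cobd α f x d = x (f d) + x (f (α d)) := rfl

theorem core [Nonempty D] (α σ : Equiv.Perm D) (v : D → V) (f : D → F)
    (hα : ∀ d, α (α d) = d) (hα' : ∀ d, α d ≠ d) (hvσ : ∀ d, v (σ d) = v d)
    (hfφ : ∀ d, f (σ (α d)) = f d) (hv : Function.Surjective v) (hf : Function.Surjective f)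
    (hconn : ∀ P : D → Prop, (∃ d, P d) → (∀ d, P d → P (α d)) → (∀ d, P d → P (σ d)) →
      ∀ d, P d) :
    2 * (Fintype.card V + Fintype.card F) ≤ Fintype.card D + 4 ∧
    (Fintype.card D + 4 ≤ 2 * (Fintype.card V + Fintype.card F) →
    ∀ (y : D → ZMod 2), (∀ d, y (α d) = y d) → (∀ u, ∑ d with v d = u, y d = 0) →
    ∃ x : F → ZMod 2, ∀ d, y d = x (f d) + x (f (α d))) := by
  classical
  have hfσ : ∀ d, f (σ d) = f (α d) := fun d => by
    have := hfφ (α d)
    rwa [hα] at this
  obtain ⟨d₀⟩ := (inferInstance : Nonempty D)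
  -- the space of edge functions
  set Y : Submodule (ZMod 2) (D → ZMod 2) := LinearMap.ker (symm₂ α) with hY
  have hYdim : 2 * finrank (ZMod 2) Y = Fintype.card D := finrank_ker_symm₂ α hα hα'
  -- the boundary map on edge functions
  let B : Y →ₗ[ZMod 2] (V → ZMod 2) := (bdry v).comp Y.subtype
  -- the edge function of a dart
  have hsing : ∀ d : D, (Pi.single d 1 + Pi.single (α d) 1 : D → ZMod 2) ∈ Y := by
    intro d
    rw [hY, mem_ker_symm₂]
    intro e
    simp only [Pi.add_apply, Pi.single_apply]
    have h1 : (α e = d) ↔ e = α d := by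
      constructor
      · rintro rfl; rw [hα]
      · rintro rfl; rw [hα]
    have h2 : (α e = α d) ↔ e = d := α.injective.eq_iff
    rw [add_comm]
    congr 1
    · by_cases h : e = d
      · rw [if_pos h, if_pos (h2.mpr h)]
      · rw [if_neg h, if_neg (fun h' => h (h2.mp h'))]
    · by_cases h : e = α d
      · rw [if_pos h, if_pos (h1.mpr h)]
      · rw [if_neg h, if_neg (fun h' => h (h1.mp h'))]
  have hbs : ∀ d : D, bdry v (Pi.single d 1) = Pi.single (v d) 1 := by
    intro d
    funext u
    change ∑ e with v e = u, (Pi.single d 1 : D → ZMod 2) e = _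
    simp only [Pi.single_apply]
    rw [Finset.sum_ite_eq']
    simp only [Finset.mem_filter, Finset.mem_univ, true_and, eq_comm]
  have hBs : ∀ d : D, (Pi.single (v d) 1 + Pi.single (v (α d)) 1 : V → ZMod 2) ∈
      LinearMap.range B := by
    intro d
    refine ⟨⟨_, hsing d⟩, ?_⟩
    change bdry v (Pi.single d 1 + Pi.single (α d) 1) = _
    rw [map_add, hbs, hbs]
  -- the cokernel of the boundary map is at most one-dimensional
  have hquot : finrank (ZMod 2) ((V → ZMod 2) ⧸ LinearMap.range B) ≤ 1 := by
    have hall : ∀ d, (Submodule.Quotient.mk (Pi.single (v d) 1) :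
        (V → ZMod 2) ⧸ LinearMap.range B) = Submodule.Quotient.mk (Pi.single (v d₀) 1) := by
      apply hconn
      · exact ⟨d₀, rfl⟩
      · intro d hd
        rw [← hd, Submodule.Quotient.eq]
        have := hBs d
        convert this using 1
        funext u
        simp only [Pi.sub_apply, Pi.add_apply, CharTwo.sub_eq_add]
        ring
      · intro d hd
        rw [hvσ]
        exact hd
    refine finrank_le_one (Submodule.Quotient.mk (Pi.single (v d₀) 1)) ?_
    intro w
    obtain ⟨w, rfl⟩ := Submodule.Quotient.mk_surjective _ w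
    refine ⟨∑ u, w u, ?_⟩
    have hw : w = ∑ u, w u • (Pi.single u 1 : V → ZMod 2) := by
      funext u
      simp [Finset.sum_apply, Pi.single_apply]
    conv_rhs => rw [hw]
    rw [Finset.sum_smul, ← Submodule.mkQ_apply, ← Submodule.mkQ_apply, map_sum]
    refine Finset.sum_congr rfl fun u _ => ?_
    obtain ⟨d, rfl⟩ := hv u
    rw [map_smul, Submodule.mkQ_apply, Submodule.mkQ_apply, hall d]
  have hrange : Fintype.card V ≤ finrank (ZMod 2) (LinearMap.range B) + 1 := by
    have := Submodule.finrank_quotient_add_finrank (LinearMap.range B)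
    rw [finrank_fintype_fun_eq_card] at this
    omega
  have hkerB : finrank (ZMod 2) (LinearMap.ker B) + Fintype.card V ≤ finrank (ZMod 2) Y + 1 := by
    have := LinearMap.finrank_range_add_finrank_ker B
    omega
  -- the coboundary map
  have hcob : ∀ x, cobd α f x ∈ Y := by
    intro x
    rw [hY, ← range_symm₂ α hα hα']
    exact ⟨_, rfl⟩
  let C : (F → ZMod 2) →ₗ[ZMod 2] Y := (cobd α f).codRestrict Y hcob
  have hkerC : finrank (ZMod 2) (LinearMap.ker C) ≤ 1 := by
    refine finrank_le_one (⟨fun _ => 1, ?_⟩ : LinearMap.ker C) ?_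
    · rw [LinearMap.mem_ker]
      apply Subtype.ext
      funext d
      change (1 : ZMod 2) + 1 = 0
      exact add_self₂ 1
    · rintro ⟨x, hx⟩
      refine ⟨x (f d₀), ?_⟩
      apply Subtype.ext
      funext u
      obtain ⟨d, rfl⟩ := hf u
      change x (f d₀) * 1 = x (f d)
      rw [mul_one]
      have hx' : ∀ d, x (f (α d)) = x (f d) := by
        intro d
        have := congrFun (congrArg Subtype.val (LinearMap.mem_ker.mp hx)) d
        change x (f d) + x (f (α d)) = 0 at this
        exact (eq_of_add_eq_zero₂ this).symm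
      revert d
      apply hconn
      · exact ⟨d₀, rfl⟩
      · intro d hd
        rw [hx']
        exact hd
      · intro d hd
        rw [hfσ, hx']
        exact hd
  have hrangeC : Fintype.card F ≤ finrank (ZMod 2) (LinearMap.range C) + 1 := by
    have := LinearMap.finrank_range_add_finrank_ker C
    rw [finrank_fintype_fun_eq_card] at this
    omega
  have hle : LinearMap.range C ≤ LinearMap.ker B := by
    rintro _ ⟨x, rfl⟩
    rw [LinearMap.mem_ker]
    funext u
    change ∑ d with v d = u, (x (f d) + x (f (α d))) = 0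
    rw [Finset.sum_add_distrib]
    have h2 : ∑ d with v d = u, x (f (α d)) = ∑ d with v d = u, x (f d) := by
      refine Finset.sum_bij' (fun d _ => σ d) (fun d _ => σ.symm d) ?_ ?_ ?_ ?_ ?_
      · intro d hd
        simp only [Finset.mem_filter, Finset.mem_univ, true_and] at hd ⊢
        rw [hvσ, hd]
      · intro d hd
        simp only [Finset.mem_filter, Finset.mem_univ, true_and] at hd ⊢
        rw [← hd, ← hvσ (σ.symm d), Equiv.apply_symm_apply]
      · intro d _
        exact σ.symm_apply_apply d
      · intro d _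
        exact σ.apply_symm_apply d
      · intro d _
        rw [hfσ]
    rw [h2, add_self₂]
  refine ⟨?_, ?_⟩
  · have := Submodule.finrank_mono hle
    omega
  intro heuler y hy hy'
  have heq : LinearMap.range C = LinearMap.ker B := by
    apply Submodule.eq_of_le_of_finrank_le hle
    omega
  have hyY : y ∈ Y := by
    rw [hY, mem_ker_symm₂]
    exact hy
  have hyB : (⟨y, hyY⟩ : Y) ∈ LinearMap.ker B := by
    rw [LinearMap.mem_ker]
    funext u
    exact hy' u
  rw [← heq] at hyB
  obtain ⟨x, hx⟩ := hyB
  refine ⟨x, fun d => ?_⟩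
  have := congrFun (congrArg Subtype.val hx) d
  exact this.symm

/-- Euler's inequality for connected maps. -/
theorem euler_le [Nonempty D] (α σ : Equiv.Perm D) (v : D → V) (f : D → F)
    (hα : ∀ d, α (α d) = d) (hα' : ∀ d, α d ≠ d) (hvσ : ∀ d, v (σ d) = v d)
    (hfφ : ∀ d, f (σ (α d)) = f d) (hv : Function.Surjective v) (hf : Function.Surjective f)
    (hconn : ∀ P : D → Prop, (∃ d, P d) → (∀ d, P d → P (α d)) → (∀ d, P d → P (σ d)) →
      ∀ d, P d) :
    2 * (Fintype.card V + Fintype.card F) ≤ Fintype.card D + 4 :=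
  (core α σ v f hα hα' hvσ hfφ hv hf hconn).1

/-- In a connected plane map every even set of edges is the coboundary of a set of faces. -/
theorem exact_of_euler [Nonempty D] (α σ : Equiv.Perm D) (v : D → V) (f : D → F)
    (hα : ∀ d, α (α d) = d) (hα' : ∀ d, α d ≠ d) (hvσ : ∀ d, v (σ d) = v d)
    (hfφ : ∀ d, f (σ (α d)) = f d) (hv : Function.Surjective v) (hf : Function.Surjective f)
    (hconn : ∀ P : D → Prop, (∃ d, P d) → (∀ d, P d → P (α d)) → (∀ d, P d → P (σ d)) → ∀ d, P d)
    (heuler : Fintype.card D + 4 ≤ 2 * (Fintype.card V + Fintype.card F))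
    (y : D → ZMod 2) (hy : ∀ d, y (α d) = y d) (hy' : ∀ u, ∑ d with v d = u, y d = 0) :
    ∃ x : F → ZMod 2, ∀ d, y d = x (f d) + x (f (α d)) :=
  (core α σ v f hα hα' hvσ hfφ hv hf hconn).2 heuler y hy hy'

/-- The coboundary of a function on faces is even at every vertex. -/
theorem bdry_cobd (α σ : Equiv.Perm D) (v : D → V) (f : D → F)
    (hα : ∀ d, α (α d) = d) (hvσ : ∀ d, v (σ d) = v d)
    (hfφ : ∀ d, f (σ (α d)) = f d) (x : F → ZMod 2) (u : V) :
    ∑ d with v d = u, (x (f d) + x (f (α d))) = 0 := by
  have hfσ : ∀ d, f (σ d) = f (α d) := fun d => by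
    have := hfφ (α d)
    rwa [hα] at this
  rw [Finset.sum_add_distrib]
  have h2 : ∑ d with v d = u, x (f (α d)) = ∑ d with v d = u, x (f d) := by
    refine Finset.sum_bij' (fun d _ => σ d) (fun d _ => σ.symm d) ?_ ?_ ?_ ?_ ?_
    · intro d hd
      simp only [Finset.mem_filter, Finset.mem_univ, true_and] at hd ⊢
      rw [hvσ, hd]
    · intro d hd
      simp only [Finset.mem_filter, Finset.mem_univ, true_and] at hd ⊢
      rw [← hd, ← hvσ (σ.symm d), Equiv.apply_symm_apply]
    · intro d _
      exact σ.symm_apply_apply d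
    · intro d _
      exact σ.apply_symm_apply d
    · intro d _
      rw [hfσ]
  rw [h2, add_self₂]

end Pool.Agent.R31.PlaneHomology
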