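import Mathlib
import Pool.Agent.R31.PlaneHomology

/-!
# Maps with several components

The exactness statement of `PlaneHomology` for maps which need not be connected, and Euler's
inequality for a set of edges of a plane map, with the faces of the sub-map replaced by classes
of faces of the whole map.
-/

set_option autoImplicit false

namespace Pool.Agent.R31.MapEuler

open Module Pool.Agent.R31.PlaneHomology

set_option linter.unusedSectionVars false

section Exact

variable {D V F C : Type} [Fintype D] [DecidableEq D] [Fintype V] [DecidableEq V] [Fintype F]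
  [Fintype C] [DecidableEq C]

local instance : Fact (Nat.Prime 2) := ⟨Nat.prime_two⟩

theorem exact_comps (α σ : Equiv.Perm D) (v : D → V) (f : D → F) (comp : D → C)
    (hα : ∀ d, α (α d) = d) (hα' : ∀ d, α d ≠ d) (hvσ : ∀ d, v (σ d) = v d)
    (hfφ : ∀ d, f (σ (α d)) = f d) (hv : Function.Surjective v) (hf : Function.Surjective f)
    (hc : Function.Surjective comp)
    (hconn : ∀ P : D → Prop, (∀ d, P d → P (α d)) → (∀ d, P d → P (σ d)) →
      ∀ d e, comp d = comp e → P d → P e)
    (heuler : Fintype.card D + 4 * Fintype.card C ≤ 2 * (Fintype.card V + Fintype.card F))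
    (y : D → ZMod 2) (hy : ∀ d, y (α d) = y d) (hy' : ∀ u, ∑ d with v d = u, y d = 0) :
    ∃ x : F → ZMod 2, ∀ d, y d = x (f d) + x (f (α d)) := by
  classical
  have hfσ : ∀ d, f (σ d) = f (α d) := fun d => by
    have := hfφ (α d)
    rwa [hα] at this
  choose rep hrep using hc
  -- the space of edge functions
  set Y : Submodule (ZMod 2) (D → ZMod 2) := LinearMap.ker (symm₂ α) with hY
  have hYdim : 2 * finrank (ZMod 2) Y = Fintype.card D := finrank_ker_symm₂ α hα hα'
  -- the boundary map on edge functions
  let B : Y →ₗ[ZMod 2] (V → ZMod 2) := (bdry v).comp Y.subtype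
  -- the edge function of a dart
  have hsing : ∀ d : D, (Pi.single d 1 + Pi.single (α d) 1 : D → ZMod 2) ∈ Y := by
    intro d
    rw [hY, mem_ker_symm₂]
    intro e
    simp only [Pi.add_apply, Pi.single_apply]
    have h1 : (α e = d) ↔ e = α d := by
      constructor
      · rintro rfl; rw [hα]
      · rintro rfl; rw [hα]
    have h2 : (α e = α d) ↔ e = d := α.injective.eq_iff
    rw [add_comm]
    congr 1
    · by_cases h : e = d
      · rw [if_pos h, if_pos (h2.mpr h)]
      · rw [if_neg h, if_neg (fun h' => h (h2.mp h'))]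
    · by_cases h : e = α d
      · rw [if_pos h, if_pos (h1.mpr h)]
      · rw [if_neg h, if_neg (fun h' => h (h1.mp h'))]
  have hbs : ∀ d : D, bdry v (Pi.single d 1) = Pi.single (v d) 1 := by
    intro d
    funext u
    change ∑ e with v e = u, (Pi.single d 1 : D → ZMod 2) e = _
    simp only [Pi.single_apply]
    rw [Finset.sum_ite_eq']
    simp only [Finset.mem_filter, Finset.mem_univ, true_and, eq_comm]
  have hBs : ∀ d : D, (Pi.single (v d) 1 + Pi.single (v (α d)) 1 : V → ZMod 2) ∈
      LinearMap.range B := by
    intro d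
    refine ⟨⟨_, hsing d⟩, ?_⟩
    change bdry v (Pi.single d 1 + Pi.single (α d) 1) = _
    rw [map_add, hbs, hbs]
  -- the cokernel of the boundary map
  have hquot : finrank (ZMod 2) ((V → ZMod 2) ⧸ LinearMap.range B) ≤ Fintype.card C := by
    have hall : ∀ d, (Submodule.Quotient.mk (Pi.single (v (rep (comp d))) 1) :
        (V → ZMod 2) ⧸ LinearMap.range B) = Submodule.Quotient.mk (Pi.single (v d) 1) := by
      intro d
      have key := hconn (fun e => (Submodule.Quotient.mk (Pi.single (v (rep (comp d))) 1) :
        (V → ZMod 2) ⧸ LinearMap.range B) = Submodule.Quotient.mk (Pi.single (v e) 1))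
        ?_ ?_ (rep (comp d)) d (hrep _) rfl
      · exact key
      · intro e he
        rw [he, Submodule.Quotient.eq]
        have := hBs e
        convert this using 1
        funext u
        simp only [Pi.sub_apply, Pi.add_apply, CharTwo.sub_eq_add]
      · intro e he
        rw [he, hvσ]
    let L : (C → ZMod 2) →ₗ[ZMod 2] ((V → ZMod 2) ⧸ LinearMap.range B) :=
      Fintype.linearCombination (ZMod 2)
        (fun c => (Submodule.Quotient.mk (Pi.single (v (rep c)) 1) :
          (V → ZMod 2) ⧸ LinearMap.range B))
    have hL : Function.Surjective L := by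
      rw [← LinearMap.range_eq_top, Fintype.range_linearCombination, eq_top_iff]
      intro w _
      obtain ⟨w, rfl⟩ := Submodule.Quotient.mk_surjective _ w
      have hw : w = ∑ u, w u • (Pi.single u 1 : V → ZMod 2) := by
        funext u
        simp [Finset.sum_apply, Pi.single_apply]
      rw [hw, ← Submodule.mkQ_apply, map_sum]
      refine Submodule.sum_mem _ fun u _ => ?_
      rw [map_smul]
      refine Submodule.smul_mem _ _ ?_
      obtain ⟨d, rfl⟩ := hv u
      rw [Submodule.mkQ_apply, ← hall d]
      exact Submodule.subset_span ⟨comp d, rfl⟩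
    have := LinearMap.finrank_le_finrank_of_surjective hL
    rwa [finrank_fintype_fun_eq_card] at this
  have hrange : Fintype.card V ≤ finrank (ZMod 2) (LinearMap.range B) + Fintype.card C := by
    have := Submodule.finrank_quotient_add_finrank (LinearMap.range B)
    rw [finrank_fintype_fun_eq_card] at this
    omega
  have hkerB : finrank (ZMod 2) (LinearMap.ker B) + Fintype.card V ≤
      finrank (ZMod 2) Y + Fintype.card C := by
    have := LinearMap.finrank_range_add_finrank_ker B
    omega
  -- the coboundary map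
  have hcob : ∀ x, cobd α f x ∈ Y := by
    intro x
    rw [hY, ← range_symm₂ α hα hα']
    exact ⟨_, rfl⟩
  let Cb : (F → ZMod 2) →ₗ[ZMod 2] Y := (cobd α f).codRestrict Y hcob
  have hkerC : finrank (ZMod 2) (LinearMap.ker Cb) ≤ Fintype.card C := by
    let E : LinearMap.ker Cb →ₗ[ZMod 2] (C → ZMod 2) :=
      (LinearMap.funLeft (ZMod 2) (ZMod 2) (fun c => f (rep c))).comp
        (LinearMap.ker Cb).subtype
    have hE : Function.Injective E := by
      rw [← LinearMap.ker_eq_bot, LinearMap.ker_eq_bot']
      rintro ⟨x, hx⟩ h0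
      apply Subtype.ext
      funext u
      obtain ⟨d, rfl⟩ := hf u
      change x (f d) = 0
      have hx' : ∀ d, x (f (α d)) = x (f d) := by
        intro d
        have := congrFun (congrArg Subtype.val (LinearMap.mem_ker.mp hx)) d
        change x (f d) + x (f (α d)) = 0 at this
        exact (eq_of_add_eq_zero₂ this).symm
      refine hconn (fun e => x (f e) = 0) ?_ ?_ (rep (comp d)) d (hrep _) ?_
      · intro e he
        rw [hx']
        exact he
      · intro e he
        rw [hfσ, hx']
        exact he
      · exact congrFun h0 (comp d)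
    have := LinearMap.finrank_le_finrank_of_injective hE
    rwa [finrank_fintype_fun_eq_card] at this
  have hrangeC : Fintype.card F ≤ finrank (ZMod 2) (LinearMap.range Cb) + Fintype.card C := by
    have := LinearMap.finrank_range_add_finrank_ker Cb
    rw [finrank_fintype_fun_eq_card] at this
    omega
  have hle : LinearMap.range Cb ≤ LinearMap.ker B := by
    rintro _ ⟨x, rfl⟩
    rw [LinearMap.mem_ker]
    funext u
    exact bdry_cobd α σ v f hα hvσ hfφ x u
  have heq : LinearMap.range Cb = LinearMap.ker B := by
    apply Submodule.eq_of_le_of_finrank_le hle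
    omega
  have hyY : y ∈ Y := by
    rw [hY, mem_ker_symm₂]
    exact hy
  have hyB : (⟨y, hyY⟩ : Y) ∈ LinearMap.ker B := by
    rw [LinearMap.mem_ker]
    funext u
    exact hy' u
  rw [← heq] at hyB
  obtain ⟨x, hx⟩ := hyB
  refine ⟨x, fun d => ?_⟩
  have := congrFun (congrArg Subtype.val hx) d
  exact this.symm

end Exact

section Sub

variable {D V F R : Type} [Fintype D] [DecidableEq D] [DecidableEq V] [DecidableEq R]

local instance : Fact (Nat.Prime 2) := ⟨Nat.prime_two⟩

/-- Euler's inequality for a nonempty set of edges, given exactness of the whole map. -/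
theorem sub_euler (α : Equiv.Perm D) (v : D → V) (f : D → F)
    (hα : ∀ d, α (α d) = d) (hα' : ∀ d, α d ≠ d)
    (hex : ∀ y : D → ZMod 2, (∀ d, y (α d) = y d) → (∀ u, ∑ d with v d = u, y d = 0) →
      ∃ x : F → ZMod 2, ∀ d, y d = x (f d) + x (f (α d)))
    (K : Finset D) (hK : K.Nonempty) (hKα : ∀ d ∈ K, α d ∈ K) (r : D → R)
    (hr : ∀ x : F → ZMod 2, (∀ d, d ∉ K → x (f d) = x (f (α d))) →
      ∀ d ∈ K, ∀ e ∈ K, r d = r e → x (f d) = x (f e)) :
    K.card + 4 ≤ 2 * ((K.image v).card + (K.image r).card) := by
  classical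
  let D' := {d // d ∈ K}
  let V' := {u // u ∈ K.image v}
  let R' := {u // u ∈ K.image r}
  let a : D' → D' := fun d => ⟨α d.1, hKα d.1 d.2⟩
  have ha : ∀ d, a (a d) = d := fun d => Subtype.ext (hα d.1)
  let α' : Equiv.Perm D' := ⟨a, a, ha, ha⟩
  let v' : D' → V' := fun d => ⟨v d.1, Finset.mem_image_of_mem v d.2⟩
  let r' : D' → R' := fun d => ⟨r d.1, Finset.mem_image_of_mem r d.2⟩
  have hα2 : ∀ d, α' (α' d) = d := ha
  have hα2' : ∀ d, α' d ≠ d := fun d h => hα' d.1 (congrArg Subtype.val h)
  have hr' : Function.Surjective r' := by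
    rintro ⟨u, hu⟩
    obtain ⟨d, hd, rfl⟩ := Finset.mem_image.mp hu
    exact ⟨⟨d, hd⟩, rfl⟩
  obtain ⟨d₀, hd₀⟩ := hK
  have hcardD : Fintype.card D' = K.card := Fintype.card_coe K
  have hcardV : Fintype.card V' = (K.image v).card := Fintype.card_coe _
  have hcardR : Fintype.card R' = (K.image r).card := Fintype.card_coe _
  set Y : Submodule (ZMod 2) (D' → ZMod 2) := LinearMap.ker (symm₂ α') with hY
  have hYdim : 2 * finrank (ZMod 2) Y = Fintype.card D' := finrank_ker_symm₂ α' hα2 hα2'
  let B : Y →ₗ[ZMod 2] (V' → ZMod 2) := (bdry v').comp Y.subtype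
  -- the range of the boundary map is a proper subspace
  have hBlt : finrank (ZMod 2) (LinearMap.range B) < Fintype.card V' := by
    have hne : LinearMap.range B ≠ ⊤ := by
      intro htop
      have h1 : (Pi.single (v' ⟨d₀, hd₀⟩) 1 : V' → ZMod 2) ∈ LinearMap.range B := by
        rw [htop]; trivial
      obtain ⟨⟨y, hyY⟩, hy⟩ := h1
      have hsum : ∑ u, (Pi.single (v' ⟨d₀, hd₀⟩) 1 : V' → ZMod 2) u = 1 := by
        rw [Finset.sum_eq_single (v' ⟨d₀, hd₀⟩)]
        · exact Pi.single_eq_same _ _
        · intro b _ hb
          exact Pi.single_eq_of_ne hb _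
        · intro h
          exact absurd (Finset.mem_univ _) h
      rw [← hy] at hsum
      have h2 : ∑ u, B ⟨y, hyY⟩ u = ∑ d, y d := by
        change ∑ u, ∑ d with v' d = u, y d = ∑ d, y d
        exact Finset.sum_fiberwise _ _ _
      rw [h2] at hsum
      rw [hY, ← range_symm₂ α' hα2 hα2'] at hyY
      obtain ⟨z, rfl⟩ := hyY
      have h3 : ∑ d, symm₂ α' z d = 0 := by
        change ∑ d, (z d + z (α' d)) = 0
        rw [Finset.sum_add_distrib, Equiv.sum_comp α' z, add_self₂]
      rw [h3] at hsum
      exact zero_ne_one hsum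
    have := Submodule.finrank_lt hne
    rwa [finrank_fintype_fun_eq_card] at this
  -- the kernel of the boundary map
  let G : (R' → ZMod 2) →ₗ[ZMod 2] (D' → ZMod 2) := cobd α' r'
  have hker : (LinearMap.ker B).map Y.subtype ≤ LinearMap.range G := by
    rintro _ ⟨⟨y, hyY⟩, hyB, rfl⟩
    change y ∈ _
    rw [SetLike.mem_coe, LinearMap.mem_ker] at hyB
    rw [hY, mem_ker_symm₂] at hyY
    have hy1 : ∀ d, (fun d => if h : d ∈ K then y ⟨d, h⟩ else 0 : D → ZMod 2) (α d) =
        (fun d => if h : d ∈ K then y ⟨d, h⟩ else 0 : D → ZMod 2) d := by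
      intro d
      by_cases h : d ∈ K
      · have h' := hKα d h
        beta_reduce
        rw [dif_pos h, dif_pos h']
        exact hyY ⟨d, h⟩
      · have h' : α d ∉ K := fun h' => h (by rw [← hα d]; exact hKα _ h')
        beta_reduce
        rw [dif_neg h, dif_neg h']
    have hy2 : ∀ u, ∑ d with v d = u,
        (fun d => if h : d ∈ K then y ⟨d, h⟩ else 0 : D → ZMod 2) d = 0 := by
      intro u
      beta_reduce
      by_cases hu : u ∈ K.image v
      · have h1 := congrFun hyB ⟨u, hu⟩
        change ∑ d with v' d = ⟨u, hu⟩, y d = 0 at h1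
        refine Eq.trans ?_ h1
        rw [Finset.sum_filter, Finset.sum_filter]
        rw [← Finset.sum_subset (Finset.subset_univ K)
          (fun d _ hd => by rw [dif_neg hd, ite_self])]
        rw [← Finset.sum_attach K, ← Finset.univ_eq_attach]
        refine Finset.sum_congr rfl fun d _ => ?_
        have h2 : (v d.1 = u) ↔ (v' d = ⟨u, hu⟩) := by
          constructor
          · intro h; exact Subtype.ext h
          · intro h; exact congrArg Subtype.val h
        by_cases h : v d.1 = u
        · rw [if_pos h, if_pos (h2.mp h), dif_pos d.2]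
        · rw [if_neg h, if_neg (fun h' => h (h2.mpr h'))]
      · apply Finset.sum_eq_zero
        intro d hd
        rw [Finset.mem_filter] at hd
        rw [dif_neg]
        intro hdK
        exact hu (Finset.mem_image.mpr ⟨d, hdK, hd.2⟩)
    obtain ⟨x, hx⟩ := hex _ hy1 hy2
    have hx0 : ∀ d, d ∉ K → x (f d) = x (f (α d)) := by
      intro d hd
      have := hx d
      beta_reduce at this
      rw [dif_neg hd] at this
      exact eq_of_add_eq_zero₂ this.symm
    have hx1 := hr x hx0
    choose g hg using hr'
    refine ⟨fun t => x (f (g t).1), ?_⟩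
    funext d
    change x (f (g (r' d)).1) + x (f (g (r' (α' d))).1) = y d
    have e1 : x (f (g (r' d)).1) = x (f d.1) :=
      hx1 _ (g (r' d)).2 _ d.2 (congrArg Subtype.val (hg (r' d)))
    have e2 : x (f (g (r' (α' d))).1) = x (f (α d.1)) :=
      hx1 _ (g (r' (α' d))).2 _ (α' d).2 (congrArg Subtype.val (hg (r' (α' d))))
    rw [e1, e2, ← hx d.1, dif_pos d.2]
  have hkerdim : finrank (ZMod 2) (LinearMap.ker B) ≤ finrank (ZMod 2) (LinearMap.range G) := by
    have h1 := Submodule.finrank_mono hker
    have h2 : finrank (ZMod 2) ((LinearMap.ker B).map Y.subtype) =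
        finrank (ZMod 2) (LinearMap.ker B) :=
      (Submodule.equivMapOfInjective Y.subtype Y.injective_subtype _).finrank_eq.symm
    omega
  have hG : finrank (ZMod 2) (LinearMap.range G) < Fintype.card R' := by
    have h1 := LinearMap.finrank_range_add_finrank_ker G
    rw [finrank_fintype_fun_eq_card] at h1
    have h2 : 0 < finrank (ZMod 2) (LinearMap.ker G) := by
      rw [Module.finrank_pos_iff_exists_ne_zero]
      refine ⟨⟨fun _ => 1, ?_⟩, ?_⟩
      · rw [LinearMap.mem_ker]
        funext d
        change (1 : ZMod 2) + 1 = 0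
        exact add_self₂ 1
      · intro h
        have := congrFun (congrArg Subtype.val h) (r' ⟨d₀, hd₀⟩)
        exact one_ne_zero this
    omega
  have hBk := LinearMap.finrank_range_add_finrank_ker B
  omega

end Sub

end Pool.Agent.R31.MapEuler
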