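import Pool.Agent.R31.NearBase

set_option linter.all false

namespace R31.NI

open Pat

theorem nb0 (b c : ℕ) (hb : 0 ≤ b) (hc : 0 ≤ c) :
    NI (fun t => (t = -1 ∨ mem .U b (t - (-1))) ∨ mem .nV c (t - (0))) := by
  · exact ⟨-1 - c, -1 + b, -2 - c, fun t => by simp only [mem]; omega⟩

theorem nb1 (b c : ℕ) (hb : 0 ≤ b) (hc : 0 ≤ c) :
    NI (fun t => (t = -1 ∨ mem .U b (t - (-1))) ∨ mem .nV c (t - (-1))) := by
  rcases (by omega : c = 0 ∨ 1 ≤ c) with hc1 | hc1
  · exact ⟨-1, -1 + b, -2, fun t => by simp only [mem]; omega⟩
  · exact ⟨-2 - c, -1 + b, -2, fun t => by simp only [mem]; omega⟩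

theorem nb2 (b c : ℕ) (hb : 0 ≤ b) (hc : 0 ≤ c) :
    NI (fun t => (t = -1 ∨ mem .nU b (t - (-1))) ∨ mem .U c (t - (-1))) := by
  · exact ⟨-1 - b, -1 + c, -2 - b, fun t => by simp only [mem]; omega⟩

theorem nb3 (b c : ℕ) (hb : 0 ≤ b) (hc : 0 ≤ c) :
    NI (fun t => (t = 1 ∨ mem .nU b (t - (1))) ∨ mem .V c (t - (0))) := by
  · exact ⟨1 - b, 1 + c, 0 - b, fun t => by simp only [mem]; omega⟩

theorem nb4 (b c : ℕ) (hb : 0 ≤ b) (hc : 0 ≤ c) :
    NI (fun t => (t = -1 ∨ mem .V b (t - (-1))) ∨ mem .nF c (t - (-1))) := by
  rcases (by omega : b = 0 ∨ 1 ≤ b) with hb1 | hb1 <;>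
  rcases (by omega : c = 0 ∨ 1 ≤ c) with hc1 | hc1
  · exact ⟨-1, -1, -2, fun t => by simp only [mem]; omega⟩
  · exact ⟨0 - c, 0, -1 - c, fun t => by simp only [mem]; omega⟩
  · exact ⟨-1, 0 + b, 0, fun t => by simp only [mem]; omega⟩
  · exact ⟨0 - c, 0 + b, -1 - c, fun t => by simp only [mem]; omega⟩

theorem nb5 (b c : ℕ) (hb : 0 ≤ b) (hc : 0 ≤ c) :
    NI (fun t => (t = 1 ∨ mem .V b (t - (1))) ∨ mem .nV c (t - (2))) := by
  rcases (by omega : b = 0 ∨ 1 ≤ b) with hb1 | hb1
  · exact ⟨1 - c, 1, 0 - c, fun t => by simp only [mem]; omega⟩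
  · exact ⟨1 - c, 2 + b, 2, fun t => by simp only [mem]; omega⟩

theorem nb6 (b c : ℕ) (hb : 0 ≤ b) (hc : 0 ≤ c) :
    NI (fun t => (t = 1 ∨ mem .F b (t - (1))) ∨ mem .nU c (t - (0))) := by
  rcases (by omega : b = 0 ∨ 1 ≤ b) with hb1 | hb1 <;>
  rcases (by omega : c = 0 ∨ 1 ≤ c) with hc1 | hc1
  · exact ⟨1, 1, 0, fun t => by simp only [mem]; omega⟩
  · exact ⟨0 - c, 1, 0, fun t => by simp only [mem]; omega⟩
  · exact ⟨0, 0 + b, -1, fun t => by simp only [mem]; omega⟩
  · exact ⟨0 - c, 0 + b, -1 - c, fun t => by simp only [mem]; omega⟩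

theorem nb7 (b c : ℕ) (hb : 0 ≤ b) (hc : 0 ≤ c) :
    NI (fun t => (t = 1 ∨ mem .U b (t - (1))) ∨ mem .nU c (t - (1))) := by
  · exact ⟨1 - c, 1 + b, 0 - c, fun t => by simp only [mem]; omega⟩

theorem nb8 (b c : ℕ) (hb : b = 0) (hc : c = 0) :
    NI (fun t => (t = 1 ∨ mem .nU b (t - (1))) ∨ mem .V c (t - (0))) := by
  · exact ⟨1, 1, 0, fun t => by simp only [mem]; omega⟩

theorem nb9 (b c : ℕ) (hb : b = 0) (hc : c = 1) :
    NI (fun t => (t = 1 ∨ mem .U b (t - (1))) ∨ mem .V c (t - (-2))) := by
  · exact ⟨0, 1, -1, fun t => by simp only [mem]; omega⟩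

theorem nb10 (b c : ℕ) (hb : b = 0) (hc : 2 ≤ c) :
    NI (fun t => (t = 1 ∨ mem .F b (t - (1))) ∨ mem .nU c (t - (0))) := by
  · exact ⟨0 - c, 1, 0, fun t => by simp only [mem]; omega⟩

theorem nb11 (b c : ℕ) (hb : 1 ≤ b) (hc : 0 ≤ c) :
    NI (fun t => (t = 1 ∨ mem .F b (t - (1))) ∨ mem .nV c (t - (0))) := by
  rcases (by omega : c = 0 ∨ 1 ≤ c) with hc1 | hc1
  · exact ⟨0, 0 + b, -1, fun t => by simp only [mem]; omega⟩
  · exact ⟨-1 - c, 0 + b, -1, fun t => by simp only [mem]; omega⟩

theorem nb12 (b c : ℕ) (hb : 0 ≤ b) (hc : 0 ≤ c) :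
    NI (fun t => (t = 1 ∨ mem .V b (t - (1))) ∨ mem .nU c (t - (1))) := by
  rcases (by omega : b = 0 ∨ 1 ≤ b) with hb1 | hb1
  · exact ⟨1 - c, 1, 0 - c, fun t => by simp only [mem]; omega⟩
  · exact ⟨1 - c, 2 + b, 2, fun t => by simp only [mem]; omega⟩

theorem nb13 (b c : ℕ) (hb : 0 ≤ b) (hc : 0 ≤ c) :
    NI (fun t => (t = 2 ∨ mem .nV b (t - (2))) ∨ mem .V c (t - (1))) := by
  rcases (by omega : b = 0 ∨ 1 ≤ b) with hb1 | hb1
  · exact ⟨2, 2 + c, 1, fun t => by simp only [mem]; omega⟩
  · exact ⟨1 - b, 2 + c, 1, fun t => by simp only [mem]; omega⟩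

theorem nb14 (b c : ℕ) (hb : 0 ≤ b) (hc : 0 ≤ c) :
    NI (fun t => (t = 2 ∨ mem .U b (t - (2))) ∨ mem .nV c (t - (2))) := by
  rcases (by omega : c = 0 ∨ 1 ≤ c) with hc1 | hc1
  · exact ⟨2, 2 + b, 1, fun t => by simp only [mem]; omega⟩
  · exact ⟨1 - c, 2 + b, 1, fun t => by simp only [mem]; omega⟩

theorem nb15 (b c : ℕ) (hb : b = 0) (hc : c = 0) :
    NI (fun t => (t = 2 ∨ mem .U b (t - (2))) ∨ mem .nV c (t - (2))) := by
  · exact ⟨2, 2, 1, fun t => by simp only [mem]; omega⟩

theorem nb16 (b c : ℕ) (hb : b = 0) (hc : c = 1) :
    NI (fun t => (t = 2 ∨ mem .U b (t - (2))) ∨ mem .U c (t - (0))) := by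
  · exact ⟨1, 2, 0, fun t => by simp only [mem]; omega⟩

theorem nb17 (b c : ℕ) (hb : b = 0) (hc : 2 ≤ c) :
    NI (fun t => (t = 2 ∨ mem .U b (t - (2))) ∨ mem .nV c (t - (2))) := by
  · exact ⟨1 - c, 2, 1, fun t => by simp only [mem]; omega⟩

theorem nb18 (b c : ℕ) (hb : 1 ≤ b) (hc : 0 ≤ c) :
    NI (fun t => (t = 2 ∨ mem .F b (t - (2))) ∨ mem .nU c (t - (0))) := by
  rcases (by omega : c = 0 ∨ 1 ≤ c) with hc1 | hc1
  · exact ⟨1, 1 + b, 0, fun t => by simp only [mem]; omega⟩
  · exact ⟨0 - c, 1 + b, 0, fun t => by simp only [mem]; omega⟩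

theorem nb19 (b c : ℕ) (hb : 0 ≤ b) (hc : 0 ≤ c) :
    NI (fun t => (t = 2 ∨ mem .nU b (t - (2))) ∨ mem .U c (t - (2))) := by
  · exact ⟨2 - b, 2 + c, 1 - b, fun t => by simp only [mem]; omega⟩

theorem nb20 (b c : ℕ) (hb : b = 0) (hc : c = 0) :
    NI (fun t => (t = 2 ∨ mem .U b (t - (2))) ∨ mem .U c (t - (0))) := by
  · exact ⟨2, 2, 1, fun t => by simp only [mem]; omega⟩

theorem nb21 (b c : ℕ) (hb : 0 ≤ b) (hc : 0 ≤ c) :
    NI (fun t => (t = 2 ∨ mem .F b (t - (2))) ∨ mem .nV c (t - (2))) := by
  rcases (by omega : b = 0 ∨ 1 ≤ b) with hb1 | hb1 <;>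
  rcases (by omega : c = 0 ∨ 1 ≤ c) with hc1 | hc1
  · exact ⟨2, 2, 1, fun t => by simp only [mem]; omega⟩
  · exact ⟨1 - c, 2, 1, fun t => by simp only [mem]; omega⟩
  · exact ⟨1, 1 + b, 0, fun t => by simp only [mem]; omega⟩
  · exact ⟨1 - c, 1 + b, 0 - c, fun t => by simp only [mem]; omega⟩

theorem nb22 (b c : ℕ) (hb : 0 ≤ b) (hc : 0 ≤ c) :
    NI (fun t => (t = 2 ∨ mem .U b (t - (2))) ∨ mem .nV c (t - (3))) := by
  · exact ⟨2 - c, 2 + b, 1 - c, fun t => by simp only [mem]; omega⟩

theorem nb23 (b c : ℕ) (hb : 0 ≤ b) (hc : 0 ≤ c) :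
    NI (fun t => (t = 2 ∨ mem .U b (t - (2))) ∨ mem .nF c (t - (0))) := by
  rcases (by omega : c = 0 ∨ c = 1 ∨ 2 ≤ c) with hc1 | hc1 | hc1
  · exact ⟨2, 2 + b, 1, fun t => by simp only [mem]; omega⟩
  · exact ⟨1, 2 + b, 0, fun t => by simp only [mem]; omega⟩
  · exact ⟨1 - c, 2 + b, 0, fun t => by simp only [mem]; omega⟩

theorem nb24 (b c : ℕ) (hb : 0 ≤ b) (hc : 0 ≤ c) :
    NI (fun t => (t = 2 ∨ mem .V b (t - (2))) ∨ mem .nV c (t - (3))) := by
  rcases (by omega : b = 0 ∨ 1 ≤ b) with hb1 | hb1
  · exact ⟨2 - c, 2, 1 - c, fun t => by simp only [mem]; omega⟩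
  · exact ⟨2 - c, 3 + b, 3, fun t => by simp only [mem]; omega⟩

theorem nb25 (b c : ℕ) (hb : b = 0) (hc : 0 ≤ c) :
    NI (fun t => (t = 2 ∨ mem .U b (t - (2))) ∨ mem .nF c (t - (0))) := by
  rcases (by omega : c = 0 ∨ c = 1 ∨ 2 ≤ c) with hc1 | hc1 | hc1
  · exact ⟨2, 2, 1, fun t => by simp only [mem]; omega⟩
  · exact ⟨1, 2, 0, fun t => by simp only [mem]; omega⟩
  · exact ⟨1 - c, 2, 0, fun t => by simp only [mem]; omega⟩

theorem nb26 (b c : ℕ) (hb : 1 ≤ b) (hc : 0 ≤ c) :
    NI (fun t => (t = 2 ∨ mem .F b (t - (2))) ∨ mem .nF c (t - (-1))) := by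
  rcases (by omega : c = 0 ∨ c = 1 ∨ 2 ≤ c) with hc1 | hc1 | hc1
  · exact ⟨1, 1 + b, 0, fun t => by simp only [mem]; omega⟩
  · exact ⟨0, 1 + b, -1, fun t => by simp only [mem]; omega⟩
  · exact ⟨0 - c, 1 + b, -1, fun t => by simp only [mem]; omega⟩

theorem nb27 (b c : ℕ) (hb : 0 ≤ b) (hc : 0 ≤ c) :
    NI (fun t => (t = 2 ∨ mem .nU b (t - (2))) ∨ mem .V c (t - (1))) := by
  · exact ⟨2 - b, 2 + c, 1 - b, fun t => by simp only [mem]; omega⟩

theorem nb28 (b c : ℕ) (hb : 0 ≤ b) (hc : 0 ≤ c) :
    NI (fun t => (t = 3 ∨ mem .U b (t - (3))) ∨ mem .nF c (t - (1))) := by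
  rcases (by omega : c = 0 ∨ c = 1 ∨ 2 ≤ c) with hc1 | hc1 | hc1
  · exact ⟨3, 3 + b, 2, fun t => by simp only [mem]; omega⟩
  · exact ⟨2, 3 + b, 1, fun t => by simp only [mem]; omega⟩
  · exact ⟨2 - c, 3 + b, 1, fun t => by simp only [mem]; omega⟩

theorem nb29 (b c : ℕ) (hb : 0 ≤ b) (hc : 0 ≤ c) :
    NI (fun t => (t = 1 ∨ mem .nF b (t - (1))) ∨ mem .V c (t - (1))) := by
  rcases (by omega : b = 0 ∨ 1 ≤ b) with hb1 | hb1 <;>
  rcases (by omega : c = 0 ∨ 1 ≤ c) with hc1 | hc1
  · exact ⟨1, 1, 0, fun t => by simp only [mem]; omega⟩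
  · exact ⟨1, 2 + c, 2, fun t => by simp only [mem]; omega⟩
  · exact ⟨2 - b, 2, 1 - b, fun t => by simp only [mem]; omega⟩
  · exact ⟨2 - b, 2 + c, 1 - b, fun t => by simp only [mem]; omega⟩

theorem stepB_F_nU (k l b c : ℕ) (h0 : 1 ≤ l) (h : ok .F .nU (k+1) l) : StepB .F .nU k l b c := by
  simp [ok, core] at h
  rcases (by omega : k = 0 ∨ k = 1 ∨ 2 ≤ k) with hk | hk | hk <;>
  rcases (by omega : l = 1 ∨ l = 2 ∨ 3 ≤ l) with hl | hl | hl
  · exfalso; omega
  · exact ⟨-1, 0, .U, .U, .nV, .nU, fun t => by simp only [mem]; omega, fun t => by simp only [mem]; omega,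
        by first | (simp [ok, core]; done) | (simp [ok, core]; omega), by first | (simp [ok, core]; done) | (simp [ok, core]; omega),
        fun t => by simp only [mem]; omega, nb0 b c (Nat.zero_le _) (Nat.zero_le _)⟩
  · exact ⟨-1, 0, .U, .U, .nV, .nU, fun t => by simp only [mem]; omega, fun t => by simp only [mem]; omega,
        by first | (simp [ok, core]; done) | (simp [ok, core]; omega), by first | (simp [ok, core]; done) | (simp [ok, core]; omega),
        fun t => by simp only [mem]; omega, nb0 b c (Nat.zero_le _) (Nat.zero_le _)⟩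
  · exfalso; omega
  · exact ⟨-1, 0, .V, .U, .nV, .nU, fun t => by simp only [mem]; omega, fun t => by simp only [mem]; omega,
        by first | (simp [ok, core]; done) | (simp [ok, core]; omega), by first | (simp [ok, core]; done) | (simp [ok, core]; omega),
        fun t => by simp only [mem]; omega, nb0 b c (Nat.zero_le _) (Nat.zero_le _)⟩
  · exact ⟨-1, 0, .V, .U, .nV, .nU, fun t => by simp only [mem]; omega, fun t => by simp only [mem]; omega,
        by first | (simp [ok, core]; done) | (simp [ok, core]; omega), by first | (simp [ok, core]; done) | (simp [ok, core]; omega),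
        fun t => by simp only [mem]; omega, nb0 b c (Nat.zero_le _) (Nat.zero_le _)⟩
  · exfalso; omega
  · exact ⟨-1, 0, .V, .U, .nV, .nU, fun t => by simp only [mem]; omega, fun t => by simp only [mem]; omega,
        by first | (simp [ok, core]; done) | (simp [ok, core]; omega), by first | (simp [ok, core]; done) | (simp [ok, core]; omega),
        fun t => by simp only [mem]; omega, nb0 b c (Nat.zero_le _) (Nat.zero_le _)⟩
  · exact ⟨-1, 0, .V, .U, .nV, .nU, fun t => by simp only [mem]; omega, fun t => by simp only [mem]; omega,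
        by first | (simp [ok, core]; done) | (simp [ok, core]; omega), by first | (simp [ok, core]; done) | (simp [ok, core]; omega),
        fun t => by simp only [mem]; omega, nb0 b c (Nat.zero_le _) (Nat.zero_le _)⟩

theorem stepB_F_nV (k l b c : ℕ) (h0 : 1 ≤ l) (h : ok .F .nV (k+1) l) : StepB .F .nV k l b c := by
  rcases (by omega : k = 0 ∨ k = 1 ∨ 2 ≤ k) with hk | hk | hk <;>
  rcases (by omega : l = 1 ∨ l = 2 ∨ 3 ≤ l) with hl | hl | hl
  · exact ⟨-1, -1, .U, .U, .nV, .nU, fun t => by simp only [mem]; omega, fun t => by simp only [mem]; omega,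
        by first | (simp [ok, core]; done) | (simp [ok, core]; omega), by first | (simp [ok, core]; done) | (simp [ok, core]; omega),
        fun t => by simp only [mem]; omega, nb1 b c (Nat.zero_le _) (Nat.zero_le _)⟩
  · exact ⟨-1, 0, .U, .U, .nV, .nV, fun t => by simp only [mem]; omega, fun t => by simp only [mem]; omega,
        by first | (simp [ok, core]; done) | (simp [ok, core]; omega), by first | (simp [ok, core]; done) | (simp [ok, core]; omega),
        fun t => by simp only [mem]; omega, nb0 b c (Nat.zero_le _) (Nat.zero_le _)⟩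
  · exact ⟨-1, 0, .U, .U, .nV, .nV, fun t => by simp only [mem]; omega, fun t => by simp only [mem]; omega,
        by first | (simp [ok, core]; done) | (simp [ok, core]; omega), by first | (simp [ok, core]; done) | (simp [ok, core]; omega),
        fun t => by simp only [mem]; omega, nb0 b c (Nat.zero_le _) (Nat.zero_le _)⟩
  · exact ⟨-1, -1, .V, .U, .nV, .nU, fun t => by simp only [mem]; omega, fun t => by simp only [mem]; omega,
        by first | (simp [ok, core]; done) | (simp [ok, core]; omega), by first | (simp [ok, core]; done) | (simp [ok, core]; omega),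
        fun t => by simp only [mem]; omega, nb1 b c (Nat.zero_le _) (Nat.zero_le _)⟩
  · exact ⟨-1, 0, .V, .U, .nV, .nV, fun t => by simp only [mem]; omega, fun t => by simp only [mem]; omega,
        by first | (simp [ok, core]; done) | (simp [ok, core]; omega), by first | (simp [ok, core]; done) | (simp [ok, core]; omega),
        fun t => by simp only [mem]; omega, nb0 b c (Nat.zero_le _) (Nat.zero_le _)⟩
  · exact ⟨-1, 0, .V, .U, .nV, .nV, fun t => by simp only [mem]; omega, fun t => by simp only [mem]; omega,
        by first | (simp [ok, core]; done) | (simp [ok, core]; omega), by first | (simp [ok, core]; done) | (simp [ok, core]; omega),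
        fun t => by simp only [mem]; omega, nb0 b c (Nat.zero_le _) (Nat.zero_le _)⟩
  · exact ⟨-1, -1, .V, .U, .nV, .nU, fun t => by simp only [mem]; omega, fun t => by simp only [mem]; omega,
        by first | (simp [ok, core]; done) | (simp [ok, core]; omega), by first | (simp [ok, core]; done) | (simp [ok, core]; omega),
        fun t => by simp only [mem]; omega, nb1 b c (Nat.zero_le _) (Nat.zero_le _)⟩
  · exact ⟨-1, 0, .V, .U, .nV, .nV, fun t => by simp only [mem]; omega, fun t => by simp only [mem]; omega,
        by first | (simp [ok, core]; done) | (simp [ok, core]; omega), by first | (simp [ok, core]; done) | (simp [ok, core]; omega),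
        fun t => by simp only [mem]; omega, nb0 b c (Nat.zero_le _) (Nat.zero_le _)⟩
  · exact ⟨-1, 0, .V, .U, .nV, .nV, fun t => by simp only [mem]; omega, fun t => by simp only [mem]; omega,
        by first | (simp [ok, core]; done) | (simp [ok, core]; omega), by first | (simp [ok, core]; done) | (simp [ok, core]; omega),
        fun t => by simp only [mem]; omega, nb0 b c (Nat.zero_le _) (Nat.zero_le _)⟩

theorem stepB_F_U (k l b c : ℕ) (h0 : 1 ≤ l) (h : ok .F .U (k+1) l) : StepB .F .U k l b c := by
  rcases (by omega : k = 0 ∨ k = 1 ∨ 2 ≤ k) with hk | hk | hk <;>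
  rcases (by omega : l = 1 ∨ l = 2 ∨ 3 ≤ l) with hl | hl | hl
  · exact ⟨-1, -1, .U, .nU, .U, .V, fun t => by simp only [mem]; omega, fun t => by simp only [mem]; omega,
        by first | (simp [ok, core]; done) | (simp [ok, core]; omega), by first | (simp [ok, core]; done) | (simp [ok, core]; omega),
        fun t => by simp only [mem]; omega, nb2 b c (Nat.zero_le _) (Nat.zero_le _)⟩
  · exact ⟨-1, -1, .U, .nU, .U, .V, fun t => by simp only [mem]; omega, fun t => by simp only [mem]; omega,
        by first | (simp [ok, core]; done) | (simp [ok, core]; omega), by first | (simp [ok, core]; done) | (simp [ok, core]; omega),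
        fun t => by simp only [mem]; omega, nb2 b c (Nat.zero_le _) (Nat.zero_le _)⟩
  · exact ⟨-1, -1, .U, .nU, .U, .V, fun t => by simp only [mem]; omega, fun t => by simp only [mem]; omega,
        by first | (simp [ok, core]; done) | (simp [ok, core]; omega), by first | (simp [ok, core]; done) | (simp [ok, core]; omega),
        fun t => by simp only [mem]; omega, nb2 b c (Nat.zero_le _) (Nat.zero_le _)⟩
  · exact ⟨1, 0, .nV, .nU, .V, .U, fun t => by simp only [mem]; omega, fun t => by simp only [mem]; omega,
        by first | (simp [ok, core]; done) | (simp [ok, core]; omega), by first | (simp [ok, core]; done) | (simp [ok, core]; omega),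
        fun t => by simp only [mem]; omega, nb3 b c (Nat.zero_le _) (Nat.zero_le _)⟩
  · exact ⟨1, 0, .nV, .nU, .V, .U, fun t => by simp only [mem]; omega, fun t => by simp only [mem]; omega,
        by first | (simp [ok, core]; done) | (simp [ok, core]; omega), by first | (simp [ok, core]; done) | (simp [ok, core]; omega),
        fun t => by simp only [mem]; omega, nb3 b c (Nat.zero_le _) (Nat.zero_le _)⟩
  · exact ⟨1, 0, .nV, .nU, .V, .U, fun t => by simp only [mem]; omega, fun t => by simp only [mem]; omega,
        by first | (simp [ok, core]; done) | (simp [ok, core]; omega), by first | (simp [ok, core]; done) | (simp [ok, core]; omega),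
        fun t => by simp only [mem]; omega, nb3 b c (Nat.zero_le _) (Nat.zero_le _)⟩
  · exact ⟨-1, -1, .V, .V, .nF, .V, fun t => by simp only [mem]; omega, fun t => by simp only [mem]; omega,
        by first | (simp [ok, core]; done) | (simp [ok, core]; omega), by first | (simp [ok, core]; done) | (simp [ok, core]; omega),
        fun t => by simp only [mem]; omega, nb4 b c (Nat.zero_le _) (Nat.zero_le _)⟩
  · exact ⟨-1, -1, .V, .V, .nF, .V, fun t => by simp only [mem]; omega, fun t => by simp only [mem]; omega,
        by first | (simp [ok, core]; done) | (simp [ok, core]; omega), by first | (simp [ok, core]; done) | (simp [ok, core]; omega),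
        fun t => by simp only [mem]; omega, nb4 b c (Nat.zero_le _) (Nat.zero_le _)⟩
  · exact ⟨-1, -1, .V, .V, .nF, .V, fun t => by simp only [mem]; omega, fun t => by simp only [mem]; omega,
        by first | (simp [ok, core]; done) | (simp [ok, core]; omega), by first | (simp [ok, core]; done) | (simp [ok, core]; omega),
        fun t => by simp only [mem]; omega, nb4 b c (Nat.zero_le _) (Nat.zero_le _)⟩

theorem stepB_U_nF (k l b c : ℕ) (h0 : 1 ≤ l) (h : ok .U .nF (k+1) l) : StepB .U .nF k l b c := by
  simp [ok, core] at h
  rcases (by omega : k = 0 ∨ k = 1 ∨ 2 ≤ k) with hk | hk | hk <;>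
  rcases (by omega : l = 1 ∨ l = 2 ∨ 3 ≤ l) with hl | hl | hl
  · exfalso; omega
  · exfalso; omega
  · exfalso; omega
  · exact ⟨1, 0, .nF, .nU, .V, .U, fun t => by simp only [mem]; omega, fun t => by simp only [mem]; omega,
        by first | (simp [ok, core]; done) | (simp [ok, core]; omega), by first | (simp [ok, core]; done) | (simp [ok, core]; omega),
        fun t => by simp only [mem]; omega, nb3 b c (Nat.zero_le _) (Nat.zero_le _)⟩
  · exact ⟨1, 0, .nF, .nU, .V, .nF, fun t => by simp only [mem]; omega, fun t => by simp only [mem]; omega,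
        by first | (simp [ok, core]; done) | (simp [ok, core]; omega), by first | (simp [ok, core]; done) | (simp [ok, core]; omega),
        fun t => by simp only [mem]; omega, nb3 b c (Nat.zero_le _) (Nat.zero_le _)⟩
  · exact ⟨1, 0, .nF, .nU, .V, .nF, fun t => by simp only [mem]; omega, fun t => by simp only [mem]; omega,
        by first | (simp [ok, core]; done) | (simp [ok, core]; omega), by first | (simp [ok, core]; done) | (simp [ok, core]; omega),
        fun t => by simp only [mem]; omega, nb3 b c (Nat.zero_le _) (Nat.zero_le _)⟩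
  · exact ⟨1, 2, .U, .V, .nV, .nU, fun t => by simp only [mem]; omega, fun t => by simp only [mem]; omega,
        by first | (simp [ok, core]; done) | (simp [ok, core]; omega), by first | (simp [ok, core]; done) | (simp [ok, core]; omega),
        fun t => by simp only [mem]; omega, nb5 b c (Nat.zero_le _) (Nat.zero_le _)⟩
  · exact ⟨1, 0, .U, .F, .nU, .nF, fun t => by simp only [mem]; omega, fun t => by simp only [mem]; omega,
        by first | (simp [ok, core]; done) | (simp [ok, core]; omega), by first | (simp [ok, core]; done) | (simp [ok, core]; omega),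
        fun t => by simp only [mem]; omega, nb6 b c (Nat.zero_le _) (Nat.zero_le _)⟩
  · exact ⟨1, 2, .U, .V, .nV, .nW, fun t => by simp only [mem]; omega, fun t => by simp only [mem]; omega,
        by first | (simp [ok, core]; done) | (simp [ok, core]; omega), by first | (simp [ok, core]; done) | (simp [ok, core]; omega),
        fun t => by simp only [mem]; omega, nb5 b c (Nat.zero_le _) (Nat.zero_le _)⟩

theorem stepB_U_F (k l b c : ℕ) (h0 : 1 ≤ l) (h : ok .U .F (k+1) l) : StepB .U .F k l b c := by
  rcases (by omega : k = 0 ∨ k = 1 ∨ 2 ≤ k) with hk | hk | hk <;>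
  rcases (by omega : l = 1 ∨ l = 2 ∨ 3 ≤ l) with hl | hl | hl
  · exact ⟨1, 1, .U, .U, .nU, .nV, fun t => by simp only [mem]; omega, fun t => by simp only [mem]; omega,
        by first | (simp [ok, core]; done) | (simp [ok, core]; omega), by first | (simp [ok, core]; done) | (simp [ok, core]; omega),
        fun t => by simp only [mem]; omega, nb7 b c (Nat.zero_le _) (Nat.zero_le _)⟩
  · exact ⟨1, 0, .U, .nU, .V, .nF, fun t => by simp only [mem]; omega, fun t => by simp only [mem]; omega,
        by first | (simp [ok, core]; done) | (simp [ok, core]; omega), by first | (simp [ok, core]; done) | (simp [ok, core]; omega),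
        fun t => by simp only [mem]; omega, nb3 b c (Nat.zero_le _) (Nat.zero_le _)⟩
  · rcases (by omega : b = 0 ∨ 1 ≤ b) with h1 | h1
    · rcases (by omega : c = 0 ∨ c = 1 ∨ 2 ≤ c) with h2 | h2 | h2
      · exact ⟨1, 0, .U, .nU, .V, .F, fun t => by simp only [mem]; omega, fun t => by simp only [mem]; omega,
          by first | (simp [ok, core]; done) | (simp [ok, core]; omega), by first | (simp [ok, core]; done) | (simp [ok, core]; omega),
          fun t => by simp only [mem]; omega, nb8 b c h1 h2⟩
      · exact ⟨1, -2, .U, .U, .V, .W, fun t => by simp only [mem]; omega, fun t => by simp only [mem]; omega,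
          by first | (simp [ok, core]; done) | (simp [ok, core]; omega), by first | (simp [ok, core]; done) | (simp [ok, core]; omega),
          fun t => by simp only [mem]; omega, nb9 b c h1 h2⟩
      · exact ⟨1, 0, .U, .F, .nU, .F, fun t => by simp only [mem]; omega, fun t => by simp only [mem]; omega,
          by first | (simp [ok, core]; done) | (simp [ok, core]; omega), by first | (simp [ok, core]; done) | (simp [ok, core]; omega),
          fun t => by simp only [mem]; omega, nb10 b c h1 h2⟩
    · exact ⟨1, 0, .U, .F, .nV, .F, fun t => by simp only [mem]; omega, fun t => by simp only [mem]; omega,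
        by first | (simp [ok, core]; done) | (simp [ok, core]; omega), by first | (simp [ok, core]; done) | (simp [ok, core]; omega),
        fun t => by simp only [mem]; omega, nb11 b c h1 (Nat.zero_le _)⟩
  · exact ⟨1, 1, .U, .V, .nU, .nV, fun t => by simp only [mem]; omega, fun t => by simp only [mem]; omega,
        by first | (simp [ok, core]; done) | (simp [ok, core]; omega), by first | (simp [ok, core]; done) | (simp [ok, core]; omega),
        fun t => by simp only [mem]; omega, nb12 b c (Nat.zero_le _) (Nat.zero_le _)⟩
  · exact ⟨1, 0, .nF, .nU, .V, .nF, fun t => by simp only [mem]; omega, fun t => by simp only [mem]; omega,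
        by first | (simp [ok, core]; done) | (simp [ok, core]; omega), by first | (simp [ok, core]; done) | (simp [ok, core]; omega),
        fun t => by simp only [mem]; omega, nb3 b c (Nat.zero_le _) (Nat.zero_le _)⟩
  · rcases (by omega : b = 0 ∨ 1 ≤ b) with h1 | h1
    · rcases (by omega : c = 0 ∨ c = 1 ∨ 2 ≤ c) with h2 | h2 | h2
      · exact ⟨1, 0, .U, .nU, .V, .F, fun t => by simp only [mem]; omega, fun t => by simp only [mem]; omega,
          by first | (simp [ok, core]; done) | (simp [ok, core]; omega), by first | (simp [ok, core]; done) | (simp [ok, core]; omega),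
          fun t => by simp only [mem]; omega, nb8 b c h1 h2⟩
      · exact ⟨1, -2, .U, .U, .V, .W, fun t => by simp only [mem]; omega, fun t => by simp only [mem]; omega,
          by first | (simp [ok, core]; done) | (simp [ok, core]; omega), by first | (simp [ok, core]; done) | (simp [ok, core]; omega),
          fun t => by simp only [mem]; omega, nb9 b c h1 h2⟩
      · exact ⟨1, 0, .U, .F, .nU, .F, fun t => by simp only [mem]; omega, fun t => by simp only [mem]; omega,
          by first | (simp [ok, core]; done) | (simp [ok, core]; omega), by first | (simp [ok, core]; done) | (simp [ok, core]; omega),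
          fun t => by simp only [mem]; omega, nb10 b c h1 h2⟩
    · exact ⟨1, 0, .U, .F, .nV, .F, fun t => by simp only [mem]; omega, fun t => by simp only [mem]; omega,
        by first | (simp [ok, core]; done) | (simp [ok, core]; omega), by first | (simp [ok, core]; done) | (simp [ok, core]; omega),
        fun t => by simp only [mem]; omega, nb11 b c h1 (Nat.zero_le _)⟩
  · exact ⟨1, 1, .U, .V, .nU, .nV, fun t => by simp only [mem]; omega, fun t => by simp only [mem]; omega,
        by first | (simp [ok, core]; done) | (simp [ok, core]; omega), by first | (simp [ok, core]; done) | (simp [ok, core]; omega),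
        fun t => by simp only [mem]; omega, nb12 b c (Nat.zero_le _) (Nat.zero_le _)⟩
  · exact ⟨1, 0, .U, .F, .nU, .nF, fun t => by simp only [mem]; omega, fun t => by simp only [mem]; omega,
        by first | (simp [ok, core]; done) | (simp [ok, core]; omega), by first | (simp [ok, core]; done) | (simp [ok, core]; omega),
        fun t => by simp only [mem]; omega, nb6 b c (Nat.zero_le _) (Nat.zero_le _)⟩
  · rcases (by omega : b = 0 ∨ 1 ≤ b) with h1 | h1
    · rcases (by omega : c = 0 ∨ c = 1 ∨ 2 ≤ c) with h2 | h2 | h2
      · exact ⟨1, 0, .U, .nU, .V, .F, fun t => by simp only [mem]; omega, fun t => by simp only [mem]; omega,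
          by first | (simp [ok, core]; done) | (simp [ok, core]; omega), by first | (simp [ok, core]; done) | (simp [ok, core]; omega),
          fun t => by simp only [mem]; omega, nb8 b c h1 h2⟩
      · exact ⟨1, -2, .U, .U, .V, .W, fun t => by simp only [mem]; omega, fun t => by simp only [mem]; omega,
          by first | (simp [ok, core]; done) | (simp [ok, core]; omega), by first | (simp [ok, core]; done) | (simp [ok, core]; omega),
          fun t => by simp only [mem]; omega, nb9 b c h1 h2⟩
      · exact ⟨1, 0, .U, .F, .nU, .F, fun t => by simp only [mem]; omega, fun t => by simp only [mem]; omega,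
          by first | (simp [ok, core]; done) | (simp [ok, core]; omega), by first | (simp [ok, core]; done) | (simp [ok, core]; omega),
          fun t => by simp only [mem]; omega, nb10 b c h1 h2⟩
    · exact ⟨1, 0, .U, .F, .nV, .F, fun t => by simp only [mem]; omega, fun t => by simp only [mem]; omega,
        by first | (simp [ok, core]; done) | (simp [ok, core]; omega), by first | (simp [ok, core]; done) | (simp [ok, core]; omega),
        fun t => by simp only [mem]; omega, nb11 b c h1 (Nat.zero_le _)⟩

theorem stepB_U_V (k l b c : ℕ) (h0 : 1 ≤ l) (h : ok .U .V (k+1) l) : StepB .U .V k l b c := by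
  rcases (by omega : k = 0 ∨ k = 1 ∨ 2 ≤ k) with hk | hk | hk <;>
  rcases (by omega : l = 1 ∨ l = 2 ∨ 3 ≤ l) with hl | hl | hl
  · exact ⟨1, 1, .U, .U, .nU, .nF, fun t => by simp only [mem]; omega, fun t => by simp only [mem]; omega,
        by first | (simp [ok, core]; done) | (simp [ok, core]; omega), by first | (simp [ok, core]; done) | (simp [ok, core]; omega),
        fun t => by simp only [mem]; omega, nb7 b c (Nat.zero_le _) (Nat.zero_le _)⟩
  · exact ⟨1, 0, .U, .nU, .V, .V, fun t => by simp only [mem]; omega, fun t => by simp only [mem]; omega,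
        by first | (simp [ok, core]; done) | (simp [ok, core]; omega), by first | (simp [ok, core]; done) | (simp [ok, core]; omega),
        fun t => by simp only [mem]; omega, nb3 b c (Nat.zero_le _) (Nat.zero_le _)⟩
  · exact ⟨1, 0, .U, .nU, .V, .V, fun t => by simp only [mem]; omega, fun t => by simp only [mem]; omega,
        by first | (simp [ok, core]; done) | (simp [ok, core]; omega), by first | (simp [ok, core]; done) | (simp [ok, core]; omega),
        fun t => by simp only [mem]; omega, nb3 b c (Nat.zero_le _) (Nat.zero_le _)⟩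
  · exact ⟨1, 1, .U, .V, .nU, .nF, fun t => by simp only [mem]; omega, fun t => by simp only [mem]; omega,
        by first | (simp [ok, core]; done) | (simp [ok, core]; omega), by first | (simp [ok, core]; done) | (simp [ok, core]; omega),
        fun t => by simp only [mem]; omega, nb12 b c (Nat.zero_le _) (Nat.zero_le _)⟩
  · exact ⟨1, 0, .nF, .nU, .V, .V, fun t => by simp only [mem]; omega, fun t => by simp only [mem]; omega,
        by first | (simp [ok, core]; done) | (simp [ok, core]; omega), by first | (simp [ok, core]; done) | (simp [ok, core]; omega),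
        fun t => by simp only [mem]; omega, nb3 b c (Nat.zero_le _) (Nat.zero_le _)⟩
  · exact ⟨1, 0, .nF, .nU, .V, .V, fun t => by simp only [mem]; omega, fun t => by simp only [mem]; omega,
        by first | (simp [ok, core]; done) | (simp [ok, core]; omega), by first | (simp [ok, core]; done) | (simp [ok, core]; omega),
        fun t => by simp only [mem]; omega, nb3 b c (Nat.zero_le _) (Nat.zero_le _)⟩
  · exact ⟨1, 1, .U, .V, .nU, .nF, fun t => by simp only [mem]; omega, fun t => by simp only [mem]; omega,
        by first | (simp [ok, core]; done) | (simp [ok, core]; omega), by first | (simp [ok, core]; done) | (simp [ok, core]; omega),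
        fun t => by simp only [mem]; omega, nb12 b c (Nat.zero_le _) (Nat.zero_le _)⟩
  · exact ⟨2, 1, .F, .nV, .V, .U, fun t => by simp only [mem]; omega, fun t => by simp only [mem]; omega,
        by first | (simp [ok, core]; done) | (simp [ok, core]; omega), by first | (simp [ok, core]; done) | (simp [ok, core]; omega),
        fun t => by simp only [mem]; omega, nb13 b c (Nat.zero_le _) (Nat.zero_le _)⟩
  · exact ⟨2, 1, .F, .nV, .V, .U, fun t => by simp only [mem]; omega, fun t => by simp only [mem]; omega,
        by first | (simp [ok, core]; done) | (simp [ok, core]; omega), by first | (simp [ok, core]; done) | (simp [ok, core]; omega),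
        fun t => by simp only [mem]; omega, nb13 b c (Nat.zero_le _) (Nat.zero_le _)⟩

theorem stepB_V_nF (k l b c : ℕ) (h0 : 1 ≤ l) (h : ok .V .nF (k+1) l) : StepB .V .nF k l b c := by
  rcases (by omega : k = 0 ∨ k = 1 ∨ 2 ≤ k) with hk | hk | hk <;>
  rcases (by omega : l = 1 ∨ l = 2 ∨ 3 ≤ l) with hl | hl | hl
  · exact ⟨2, 2, .U, .U, .nV, .nU, fun t => by simp only [mem]; omega, fun t => by simp only [mem]; omega,
        by first | (simp [ok, core]; done) | (simp [ok, core]; omega), by first | (simp [ok, core]; done) | (simp [ok, core]; omega),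
        fun t => by simp only [mem]; omega, nb14 b c (Nat.zero_le _) (Nat.zero_le _)⟩
  · rcases (by omega : b = 0 ∨ 1 ≤ b) with h1 | h1
    · rcases (by omega : c = 0 ∨ c = 1 ∨ 2 ≤ c) with h2 | h2 | h2
      · exact ⟨2, 2, .U, .U, .nV, .nW, fun t => by simp only [mem]; omega, fun t => by simp only [mem]; omega,
          by first | (simp [ok, core]; done) | (simp [ok, core]; omega), by first | (simp [ok, core]; done) | (simp [ok, core]; omega),
          fun t => by simp only [mem]; omega, nb15 b c h1 h2⟩
      · exact ⟨2, 0, .U, .U, .U, .F, fun t => by simp only [mem]; omega, fun t => by simp only [mem]; omega,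
          by first | (simp [ok, core]; done) | (simp [ok, core]; omega), by first | (simp [ok, core]; done) | (simp [ok, core]; omega),
          fun t => by simp only [mem]; omega, nb16 b c h1 h2⟩
      · exact ⟨2, 2, .U, .U, .nV, .nW, fun t => by simp only [mem]; omega, fun t => by simp only [mem]; omega,
          by first | (simp [ok, core]; done) | (simp [ok, core]; omega), by first | (simp [ok, core]; done) | (simp [ok, core]; omega),
          fun t => by simp only [mem]; omega, nb17 b c h1 h2⟩
    · exact ⟨2, 0, .U, .F, .nU, .nF, fun t => by simp only [mem]; omega, fun t => by simp only [mem]; omega,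
        by first | (simp [ok, core]; done) | (simp [ok, core]; omega), by first | (simp [ok, core]; done) | (simp [ok, core]; omega),
        fun t => by simp only [mem]; omega, nb18 b c h1 (Nat.zero_le _)⟩
  · exact ⟨2, 2, .U, .U, .nV, .nW, fun t => by simp only [mem]; omega, fun t => by simp only [mem]; omega,
        by first | (simp [ok, core]; done) | (simp [ok, core]; omega), by first | (simp [ok, core]; done) | (simp [ok, core]; omega),
        fun t => by simp only [mem]; omega, nb14 b c (Nat.zero_le _) (Nat.zero_le _)⟩
  · exact ⟨2, 2, .nF, .nU, .U, .F, fun t => by simp only [mem]; omega, fun t => by simp only [mem]; omega,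
        by first | (simp [ok, core]; done) | (simp [ok, core]; omega), by first | (simp [ok, core]; done) | (simp [ok, core]; omega),
        fun t => by simp only [mem]; omega, nb19 b c (Nat.zero_le _) (Nat.zero_le _)⟩
  · rcases (by omega : b = 0 ∨ 1 ≤ b) with h1 | h1
    · rcases (by omega : c = 0 ∨ c = 1 ∨ 2 ≤ c) with h2 | h2 | h2
      · exact ⟨2, 0, .U, .U, .U, .F, fun t => by simp only [mem]; omega, fun t => by simp only [mem]; omega,
          by first | (simp [ok, core]; done) | (simp [ok, core]; omega), by first | (simp [ok, core]; done) | (simp [ok, core]; omega),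
          fun t => by simp only [mem]; omega, nb20 b c h1 h2⟩
      · exact ⟨2, 0, .U, .U, .U, .F, fun t => by simp only [mem]; omega, fun t => by simp only [mem]; omega,
          by first | (simp [ok, core]; done) | (simp [ok, core]; omega), by first | (simp [ok, core]; done) | (simp [ok, core]; omega),
          fun t => by simp only [mem]; omega, nb16 b c h1 h2⟩
      · exact ⟨2, 2, .U, .U, .nV, .nW, fun t => by simp only [mem]; omega, fun t => by simp only [mem]; omega,
          by first | (simp [ok, core]; done) | (simp [ok, core]; omega), by first | (simp [ok, core]; done) | (simp [ok, core]; omega),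
          fun t => by simp only [mem]; omega, nb17 b c h1 h2⟩
    · exact ⟨2, 0, .U, .F, .nU, .nF, fun t => by simp only [mem]; omega, fun t => by simp only [mem]; omega,
        by first | (simp [ok, core]; done) | (simp [ok, core]; omega), by first | (simp [ok, core]; done) | (simp [ok, core]; omega),
        fun t => by simp only [mem]; omega, nb18 b c h1 (Nat.zero_le _)⟩
  · exact ⟨2, 2, .U, .F, .nV, .nW, fun t => by simp only [mem]; omega, fun t => by simp only [mem]; omega,
        by first | (simp [ok, core]; done) | (simp [ok, core]; omega), by first | (simp [ok, core]; done) | (simp [ok, core]; omega),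
        fun t => by simp only [mem]; omega, nb21 b c (Nat.zero_le _) (Nat.zero_le _)⟩
  · exact ⟨2, 2, .U, .F, .nV, .nU, fun t => by simp only [mem]; omega, fun t => by simp only [mem]; omega,
        by first | (simp [ok, core]; done) | (simp [ok, core]; omega), by first | (simp [ok, core]; done) | (simp [ok, core]; omega),
        fun t => by simp only [mem]; omega, nb21 b c (Nat.zero_le _) (Nat.zero_le _)⟩
  · rcases (by omega : b = 0 ∨ 1 ≤ b) with h1 | h1
    · rcases (by omega : c = 0 ∨ c = 1 ∨ 2 ≤ c) with h2 | h2 | h2
      · exact ⟨2, 0, .U, .U, .U, .F, fun t => by simp only [mem]; omega, fun t => by simp only [mem]; omega,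
          by first | (simp [ok, core]; done) | (simp [ok, core]; omega), by first | (simp [ok, core]; done) | (simp [ok, core]; omega),
          fun t => by simp only [mem]; omega, nb20 b c h1 h2⟩
      · exact ⟨2, 0, .U, .U, .U, .F, fun t => by simp only [mem]; omega, fun t => by simp only [mem]; omega,
          by first | (simp [ok, core]; done) | (simp [ok, core]; omega), by first | (simp [ok, core]; done) | (simp [ok, core]; omega),
          fun t => by simp only [mem]; omega, nb16 b c h1 h2⟩
      · exact ⟨2, 2, .U, .U, .nV, .nW, fun t => by simp only [mem]; omega, fun t => by simp only [mem]; omega,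
          by first | (simp [ok, core]; done) | (simp [ok, core]; omega), by first | (simp [ok, core]; done) | (simp [ok, core]; omega),
          fun t => by simp only [mem]; omega, nb17 b c h1 h2⟩
    · exact ⟨2, 0, .U, .F, .nU, .nF, fun t => by simp only [mem]; omega, fun t => by simp only [mem]; omega,
        by first | (simp [ok, core]; done) | (simp [ok, core]; omega), by first | (simp [ok, core]; done) | (simp [ok, core]; omega),
        fun t => by simp only [mem]; omega, nb18 b c h1 (Nat.zero_le _)⟩
  · exact ⟨2, 2, .U, .F, .nV, .nW, fun t => by simp only [mem]; omega, fun t => by simp only [mem]; omega,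
        by first | (simp [ok, core]; done) | (simp [ok, core]; omega), by first | (simp [ok, core]; done) | (simp [ok, core]; omega),
        fun t => by simp only [mem]; omega, nb21 b c (Nat.zero_le _) (Nat.zero_le _)⟩

theorem stepB_V_U (k l b c : ℕ) (h0 : 1 ≤ l) (h : ok .V .U (k+1) l) : StepB .V .U k l b c := by
  rcases (by omega : k = 0 ∨ k = 1 ∨ 2 ≤ k) with hk | hk | hk <;>
  rcases (by omega : l = 1 ∨ l = 2 ∨ 3 ≤ l) with hl | hl | hl
  · exact ⟨2, 2, .U, .U, .nV, .nU, fun t => by simp only [mem]; omega, fun t => by simp only [mem]; omega,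
        by first | (simp [ok, core]; done) | (simp [ok, core]; omega), by first | (simp [ok, core]; done) | (simp [ok, core]; omega),
        fun t => by simp only [mem]; omega, nb14 b c (Nat.zero_le _) (Nat.zero_le _)⟩
  · exact ⟨2, 3, .U, .U, .nV, .nU, fun t => by simp only [mem]; omega, fun t => by simp only [mem]; omega,
        by first | (simp [ok, core]; done) | (simp [ok, core]; omega), by first | (simp [ok, core]; done) | (simp [ok, core]; omega),
        fun t => by simp only [mem]; omega, nb22 b c (Nat.zero_le _) (Nat.zero_le _)⟩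
  · exact ⟨2, 0, .U, .U, .nF, .U, fun t => by simp only [mem]; omega, fun t => by simp only [mem]; omega,
        by first | (simp [ok, core]; done) | (simp [ok, core]; omega), by first | (simp [ok, core]; done) | (simp [ok, core]; omega),
        fun t => by simp only [mem]; omega, nb23 b c (Nat.zero_le _) (Nat.zero_le _)⟩
  · exact ⟨2, 2, .nF, .nU, .U, .F, fun t => by simp only [mem]; omega, fun t => by simp only [mem]; omega,
        by first | (simp [ok, core]; done) | (simp [ok, core]; omega), by first | (simp [ok, core]; done) | (simp [ok, core]; omega),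
        fun t => by simp only [mem]; omega, nb19 b c (Nat.zero_le _) (Nat.zero_le _)⟩
  · exact ⟨2, 3, .U, .V, .nV, .nU, fun t => by simp only [mem]; omega, fun t => by simp only [mem]; omega,
        by first | (simp [ok, core]; done) | (simp [ok, core]; omega), by first | (simp [ok, core]; done) | (simp [ok, core]; omega),
        fun t => by simp only [mem]; omega, nb24 b c (Nat.zero_le _) (Nat.zero_le _)⟩
  · rcases (by omega : b = 0 ∨ 1 ≤ b) with h1 | h1
    · exact ⟨2, 0, .U, .U, .nF, .U, fun t => by simp only [mem]; omega, fun t => by simp only [mem]; omega,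
        by first | (simp [ok, core]; done) | (simp [ok, core]; omega), by first | (simp [ok, core]; done) | (simp [ok, core]; omega),
        fun t => by simp only [mem]; omega, nb25 b c h1 (Nat.zero_le _)⟩
    · exact ⟨2, -1, .U, .F, .nF, .V, fun t => by simp only [mem]; omega, fun t => by simp only [mem]; omega,
        by first | (simp [ok, core]; done) | (simp [ok, core]; omega), by first | (simp [ok, core]; done) | (simp [ok, core]; omega),
        fun t => by simp only [mem]; omega, nb26 b c h1 (Nat.zero_le _)⟩
  · exact ⟨2, 2, .U, .F, .nV, .nU, fun t => by simp only [mem]; omega, fun t => by simp only [mem]; omega,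
        by first | (simp [ok, core]; done) | (simp [ok, core]; omega), by first | (simp [ok, core]; done) | (simp [ok, core]; omega),
        fun t => by simp only [mem]; omega, nb21 b c (Nat.zero_le _) (Nat.zero_le _)⟩
  · exact ⟨2, 3, .U, .V, .nV, .nU, fun t => by simp only [mem]; omega, fun t => by simp only [mem]; omega,
        by first | (simp [ok, core]; done) | (simp [ok, core]; omega), by first | (simp [ok, core]; done) | (simp [ok, core]; omega),
        fun t => by simp only [mem]; omega, nb24 b c (Nat.zero_le _) (Nat.zero_le _)⟩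
  · rcases (by omega : b = 0 ∨ 1 ≤ b) with h1 | h1
    · exact ⟨2, 0, .U, .U, .nF, .U, fun t => by simp only [mem]; omega, fun t => by simp only [mem]; omega,
        by first | (simp [ok, core]; done) | (simp [ok, core]; omega), by first | (simp [ok, core]; done) | (simp [ok, core]; omega),
        fun t => by simp only [mem]; omega, nb25 b c h1 (Nat.zero_le _)⟩
    · exact ⟨2, -1, .U, .F, .nF, .V, fun t => by simp only [mem]; omega, fun t => by simp only [mem]; omega,
        by first | (simp [ok, core]; done) | (simp [ok, core]; omega), by first | (simp [ok, core]; done) | (simp [ok, core]; omega),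
        fun t => by simp only [mem]; omega, nb26 b c h1 (Nat.zero_le _)⟩

theorem stepB_V_V (k l b c : ℕ) (h0 : 1 ≤ l) (h : ok .V .V (k+1) l) : StepB .V .V k l b c := by
  simp [ok, core] at h
  rcases (by omega : k = 0 ∨ k = 1 ∨ 2 ≤ k) with hk | hk | hk <;>
  rcases (by omega : l = 1 ∨ l = 2 ∨ 3 ≤ l) with hl | hl | hl
  · exfalso; omega
  · exact ⟨2, 1, .U, .nV, .V, .U, fun t => by simp only [mem]; omega, fun t => by simp only [mem]; omega,
        by first | (simp [ok, core]; done) | (simp [ok, core]; omega), by first | (simp [ok, core]; done) | (simp [ok, core]; omega),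
        fun t => by simp only [mem]; omega, nb13 b c (Nat.zero_le _) (Nat.zero_le _)⟩
  · exact ⟨2, 1, .U, .nV, .V, .U, fun t => by simp only [mem]; omega, fun t => by simp only [mem]; omega,
        by first | (simp [ok, core]; done) | (simp [ok, core]; omega), by first | (simp [ok, core]; done) | (simp [ok, core]; omega),
        fun t => by simp only [mem]; omega, nb13 b c (Nat.zero_le _) (Nat.zero_le _)⟩
  · exact ⟨2, 3, .U, .V, .nV, .nU, fun t => by simp only [mem]; omega, fun t => by simp only [mem]; omega,
        by first | (simp [ok, core]; done) | (simp [ok, core]; omega), by first | (simp [ok, core]; done) | (simp [ok, core]; omega),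
        fun t => by simp only [mem]; omega, nb24 b c (Nat.zero_le _) (Nat.zero_le _)⟩
  · exact ⟨2, 1, .nF, .nU, .V, .U, fun t => by simp only [mem]; omega, fun t => by simp only [mem]; omega,
        by first | (simp [ok, core]; done) | (simp [ok, core]; omega), by first | (simp [ok, core]; done) | (simp [ok, core]; omega),
        fun t => by simp only [mem]; omega, nb27 b c (Nat.zero_le _) (Nat.zero_le _)⟩
  · exact ⟨2, 1, .nF, .nU, .V, .U, fun t => by simp only [mem]; omega, fun t => by simp only [mem]; omega,
        by first | (simp [ok, core]; done) | (simp [ok, core]; omega), by first | (simp [ok, core]; done) | (simp [ok, core]; omega),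
        fun t => by simp only [mem]; omega, nb27 b c (Nat.zero_le _) (Nat.zero_le _)⟩
  · exact ⟨2, 3, .U, .V, .nV, .nU, fun t => by simp only [mem]; omega, fun t => by simp only [mem]; omega,
        by first | (simp [ok, core]; done) | (simp [ok, core]; omega), by first | (simp [ok, core]; done) | (simp [ok, core]; omega),
        fun t => by simp only [mem]; omega, nb24 b c (Nat.zero_le _) (Nat.zero_le _)⟩
  · exact ⟨3, 1, .F, .U, .nF, .U, fun t => by simp only [mem]; omega, fun t => by simp only [mem]; omega,
        by first | (simp [ok, core]; done) | (simp [ok, core]; omega), by first | (simp [ok, core]; done) | (simp [ok, core]; omega),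
        fun t => by simp only [mem]; omega, nb28 b c (Nat.zero_le _) (Nat.zero_le _)⟩
  · exact ⟨3, 1, .F, .U, .nF, .U, fun t => by simp only [mem]; omega, fun t => by simp only [mem]; omega,
        by first | (simp [ok, core]; done) | (simp [ok, core]; omega), by first | (simp [ok, core]; done) | (simp [ok, core]; omega),
        fun t => by simp only [mem]; omega, nb28 b c (Nat.zero_le _) (Nat.zero_le _)⟩

theorem stepB_V_W (k l b c : ℕ) (h0 : 1 ≤ l) (h : ok .V .W (k+1) l) : StepB .V .W k l b c := by
  simp [ok, core] at h
  rcases (by omega : k = 0 ∨ k = 1 ∨ 2 ≤ k) with hk | hk | hk <;>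
  rcases (by omega : l = 1 ∨ l = 2 ∨ 3 ≤ l) with hl | hl | hl
  · exact ⟨2, 2, .U, .U, .nV, .nU, fun t => by simp only [mem]; omega, fun t => by simp only [mem]; omega,
        by first | (simp [ok, core]; done) | (simp [ok, core]; omega), by first | (simp [ok, core]; done) | (simp [ok, core]; omega),
        fun t => by simp only [mem]; omega, nb14 b c (Nat.zero_le _) (Nat.zero_le _)⟩
  · exfalso; omega
  · exact ⟨2, 2, .U, .U, .nV, .F, fun t => by simp only [mem]; omega, fun t => by simp only [mem]; omega,
        by first | (simp [ok, core]; done) | (simp [ok, core]; omega), by first | (simp [ok, core]; done) | (simp [ok, core]; omega),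
        fun t => by simp only [mem]; omega, nb14 b c (Nat.zero_le _) (Nat.zero_le _)⟩
  · exact ⟨2, 2, .nF, .nU, .U, .F, fun t => by simp only [mem]; omega, fun t => by simp only [mem]; omega,
        by first | (simp [ok, core]; done) | (simp [ok, core]; omega), by first | (simp [ok, core]; done) | (simp [ok, core]; omega),
        fun t => by simp only [mem]; omega, nb19 b c (Nat.zero_le _) (Nat.zero_le _)⟩
  · exact ⟨2, 2, .nF, .nU, .U, .F, fun t => by simp only [mem]; omega, fun t => by simp only [mem]; omega,
        by first | (simp [ok, core]; done) | (simp [ok, core]; omega), by first | (simp [ok, core]; done) | (simp [ok, core]; omega),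
        fun t => by simp only [mem]; omega, nb19 b c (Nat.zero_le _) (Nat.zero_le _)⟩
  · exact ⟨2, 2, .nF, .nU, .U, .F, fun t => by simp only [mem]; omega, fun t => by simp only [mem]; omega,
        by first | (simp [ok, core]; done) | (simp [ok, core]; omega), by first | (simp [ok, core]; done) | (simp [ok, core]; omega),
        fun t => by simp only [mem]; omega, nb19 b c (Nat.zero_le _) (Nat.zero_le _)⟩
  · exact ⟨2, 2, .U, .F, .nV, .nU, fun t => by simp only [mem]; omega, fun t => by simp only [mem]; omega,
        by first | (simp [ok, core]; done) | (simp [ok, core]; omega), by first | (simp [ok, core]; done) | (simp [ok, core]; omega),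
        fun t => by simp only [mem]; omega, nb21 b c (Nat.zero_le _) (Nat.zero_le _)⟩
  · exact ⟨2, 2, .U, .F, .nV, .F, fun t => by simp only [mem]; omega, fun t => by simp only [mem]; omega,
        by first | (simp [ok, core]; done) | (simp [ok, core]; omega), by first | (simp [ok, core]; done) | (simp [ok, core]; omega),
        fun t => by simp only [mem]; omega, nb21 b c (Nat.zero_le _) (Nat.zero_le _)⟩
  · exact ⟨2, 2, .U, .F, .nV, .F, fun t => by simp only [mem]; omega, fun t => by simp only [mem]; omega,
        by first | (simp [ok, core]; done) | (simp [ok, core]; omega), by first | (simp [ok, core]; done) | (simp [ok, core]; omega),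
        fun t => by simp only [mem]; omega, nb21 b c (Nat.zero_le _) (Nat.zero_le _)⟩

theorem stepB_W_V (k l b c : ℕ) (h0 : 1 ≤ l) (h : ok .W .V (k+1) l) : StepB .W .V k l b c := by
  simp [ok, core] at h
  rcases (by omega : k = 0 ∨ k = 1 ∨ 2 ≤ k) with hk | hk | hk <;>
  rcases (by omega : l = 1 ∨ l = 2 ∨ 3 ≤ l) with hl | hl | hl
  · exact ⟨1, 1, .U, .U, .nU, .nF, fun t => by simp only [mem]; omega, fun t => by simp only [mem]; omega,
        by first | (simp [ok, core]; done) | (simp [ok, core]; omega), by first | (simp [ok, core]; done) | (simp [ok, core]; omega),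
        fun t => by simp only [mem]; omega, nb7 b c (Nat.zero_le _) (Nat.zero_le _)⟩
  · exact ⟨1, 0, .U, .nU, .V, .V, fun t => by simp only [mem]; omega, fun t => by simp only [mem]; omega,
        by first | (simp [ok, core]; done) | (simp [ok, core]; omega), by first | (simp [ok, core]; done) | (simp [ok, core]; omega),
        fun t => by simp only [mem]; omega, nb3 b c (Nat.zero_le _) (Nat.zero_le _)⟩
  · exact ⟨1, 0, .U, .nU, .V, .V, fun t => by simp only [mem]; omega, fun t => by simp only [mem]; omega,
        by first | (simp [ok, core]; done) | (simp [ok, core]; omega), by first | (simp [ok, core]; done) | (simp [ok, core]; omega),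
        fun t => by simp only [mem]; omega, nb3 b c (Nat.zero_le _) (Nat.zero_le _)⟩
  · exfalso; omega
  · exact ⟨1, 1, .V, .nF, .V, .U, fun t => by simp only [mem]; omega, fun t => by simp only [mem]; omega,
        by first | (simp [ok, core]; done) | (simp [ok, core]; omega), by first | (simp [ok, core]; done) | (simp [ok, core]; omega),
        fun t => by simp only [mem]; omega, nb29 b c (Nat.zero_le _) (Nat.zero_le _)⟩
  · exact ⟨1, 1, .V, .nF, .V, .U, fun t => by simp only [mem]; omega, fun t => by simp only [mem]; omega,
        by first | (simp [ok, core]; done) | (simp [ok, core]; omega), by first | (simp [ok, core]; done) | (simp [ok, core]; omega),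
        fun t => by simp only [mem]; omega, nb29 b c (Nat.zero_le _) (Nat.zero_le _)⟩
  · exact ⟨1, 1, .V, .U, .nU, .nF, fun t => by simp only [mem]; omega, fun t => by simp only [mem]; omega,
        by first | (simp [ok, core]; done) | (simp [ok, core]; omega), by first | (simp [ok, core]; done) | (simp [ok, core]; omega),
        fun t => by simp only [mem]; omega, nb7 b c (Nat.zero_le _) (Nat.zero_le _)⟩
  · exact ⟨1, 1, .V, .nF, .V, .U, fun t => by simp only [mem]; omega, fun t => by simp only [mem]; omega,
        by first | (simp [ok, core]; done) | (simp [ok, core]; omega), by first | (simp [ok, core]; done) | (simp [ok, core]; omega),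
        fun t => by simp only [mem]; omega, nb29 b c (Nat.zero_le _) (Nat.zero_le _)⟩
  · exact ⟨1, 1, .V, .nF, .V, .U, fun t => by simp only [mem]; omega, fun t => by simp only [mem]; omega,
        by first | (simp [ok, core]; done) | (simp [ok, core]; omega), by first | (simp [ok, core]; done) | (simp [ok, core]; omega),
        fun t => by simp only [mem]; omega, nb29 b c (Nat.zero_le _) (Nat.zero_le _)⟩

end R31.NI
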