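import Mathlib

set_option linter.all false

namespace R31.NI

/-- The eight families of colour patterns used in the induction. -/
inductive Pat
  | U | V | W | F | nU | nV | nW | nF

open Pat

/-- `mem p k t`: the integer `t` belongs to the `k`-element pattern of family `p`. -/
def mem : Pat → ℕ → ℤ → Prop
  | U, k, t => 1 ≤ t ∧ t ≤ k
  | V, k, t => 2 ≤ t ∧ t ≤ k + 1
  | W, k, t => (t = 1 ∧ 1 ≤ (k : ℤ)) ∨ (3 ≤ t ∧ t ≤ k + 1)
  | F, k, t => (t = -1 ∧ 1 ≤ (k : ℤ)) ∨ (1 ≤ t ∧ t ≤ (k : ℤ) - 1)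
  | nU, k, t => 1 ≤ -t ∧ -t ≤ k
  | nV, k, t => 2 ≤ -t ∧ -t ≤ k + 1
  | nW, k, t => (-t = 1 ∧ 1 ≤ (k : ℤ)) ∨ (3 ≤ -t ∧ -t ≤ k + 1)
  | nF, k, t => (-t = -1 ∧ 1 ≤ (k : ℤ)) ∨ (1 ≤ -t ∧ -t ≤ (k : ℤ) - 1)

def neg : Pat → Pat
  | U => nU | V => nV | W => nW | F => nF | nU => U | nV => V | nW => W | nF => F

def core : Pat → Pat → ℕ → ℕ → Prop
  | F, nU, _, l => l ≠ 1
  | nF, U, _, l => l ≠ 1
  | nU, F, k, _ => k ≠ 1
  | U, nF, k, _ => k ≠ 1
  | F, nV, _, _ => True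
  | nF, V, _, _ => True
  | nV, F, _, _ => True
  | V, nF, _, _ => True
  | U, V, _, _ => True
  | nU, nV, _, _ => True
  | V, U, _, _ => True
  | nV, nU, _, _ => True
  | F, U, _, _ => True
  | nF, nU, _, _ => True
  | U, F, _, _ => True
  | nU, nF, _, _ => True
  | V, V, k, l => k = 1 → l ≠ 1
  | nV, nV, k, l => k = 1 → l ≠ 1
  | V, W, k, l => k = 1 → l ≠ 2
  | nV, nW, k, l => k = 1 → l ≠ 2
  | W, V, k, l => k = 2 → l ≠ 1
  | nW, nV, k, l => k = 2 → l ≠ 1
  | _, _, _, _ => False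

/-- The admissible pairs of patterns of sizes `k` and `l`. -/
def ok (p q : Pat) (k l : ℕ) : Prop := k = 0 ∨ l = 0 ∨ core p q k l

/-- `S` is empty, an interval, or an interval with one integer removed. -/
def NI (S : ℤ → Prop) : Prop := ∃ m M h : ℤ, ∀ t, S t ↔ (m ≤ t ∧ t ≤ M ∧ t ≠ h)

def StepA (p q : Pat) (k l b c : ℕ) : Prop :=
  ∃ (x y : ℤ) (p0 q0 p1 q1 : Pat),
    (∀ t, mem p (k + 1) t ↔ (t = x ∨ mem p0 k (t - x))) ∧
    (∀ t, mem q (l + 1) t ↔ (t = y ∨ mem q1 l (t - y))) ∧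
    ok p0 q0 k b ∧ ok p1 q1 c l ∧
    (∀ t, (t = x ∨ mem q0 b (t - x)) → (t = y ∨ mem p1 c (t - y)) → False) ∧
    NI (fun t => (t = x ∨ mem q0 b (t - x)) ∨ (t = y ∨ mem p1 c (t - y)))

def StepB (p q : Pat) (k l b c : ℕ) : Prop :=
  ∃ (x s : ℤ) (p0 q0 p1 q1 : Pat),
    (∀ t, mem p (k + 1) t ↔ (t = x ∨ mem p0 k (t - x))) ∧
    (∀ t, mem q l t ↔ mem q1 l (t - s)) ∧
    ok p0 q0 k b ∧ ok p1 q1 c l ∧
    (∀ t, (t = x ∨ mem q0 b (t - x)) → mem p1 c (t - s) → False) ∧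
    NI (fun t => (t = x ∨ mem q0 b (t - x)) ∨ mem p1 c (t - s))

theorem neg_neg' (p : Pat) : neg (neg p) = p := by cases p <;> rfl

theorem mem_neg (p : Pat) (k : ℕ) (t : ℤ) : mem (neg p) k t ↔ mem p k (-t) := by
  cases p <;> simp only [neg, mem] <;> (try simp only [neg_neg])

theorem ok_neg (p q : Pat) (k l : ℕ) : ok (neg p) (neg q) k l ↔ ok p q k l := by
  cases p <;> cases q <;> simp [ok, neg, core]

theorem NI.neg {S : ℤ → Prop} (h : NI S) : NI (fun t => S (-t)) := by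
  obtain ⟨m, M, h, H⟩ := h
  refine ⟨-M, -m, -h, fun t => ?_⟩
  refine (H (-t)).trans ?_
  constructor
  · rintro ⟨h1, h2, h3⟩; exact ⟨by omega, by omega, fun h4 => h3 (by omega)⟩
  · rintro ⟨h1, h2, h3⟩; exact ⟨by omega, by omega, fun h4 => h3 (by omega)⟩

theorem NI.shift {S : ℤ → Prop} (h : NI S) (c : ℤ) : NI (fun t => S (t - c)) := by
  obtain ⟨m, M, h, H⟩ := h
  refine ⟨m + c, M + c, h + c, fun t => ?_⟩
  refine (H (t - c)).trans ?_
  constructor
  · rintro ⟨h1, h2, h3⟩; exact ⟨by omega, by omega, fun h4 => h3 (by omega)⟩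
  · rintro ⟨h1, h2, h3⟩; exact ⟨by omega, by omega, fun h4 => h3 (by omega)⟩

theorem NI.congr {S T : ℤ → Prop} (h : NI S) (e : ∀ t, T t ↔ S t) : NI T := by
  obtain ⟨m, M, h, H⟩ := h
  exact ⟨m, M, h, fun t => (e t).trans (H t)⟩

theorem mem_zero (p : Pat) (t : ℤ) : ¬ mem p 0 t := by
  cases p <;> simp only [mem] <;> omega

theorem mem_not_zero (p : Pat) (k : ℕ) : ¬ mem p k 0 := by
  cases p <;> simp only [mem] <;> omega

theorem StepA.neg {p q : Pat} {k l b c : ℕ} (h : StepA p q k l b c) :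
    StepA (R31.NI.neg p) (R31.NI.neg q) k l b c := by
  obtain ⟨x, y, p0, q0, p1, q1, h1, h2, h3, h4, h5, h6⟩ := h
  refine ⟨-x, -y, R31.NI.neg p0, R31.NI.neg q0, R31.NI.neg p1, R31.NI.neg q1, ?_, ?_,
    (ok_neg _ _ _ _).2 h3, (ok_neg _ _ _ _).2 h4, ?_, ?_⟩
  · intro t
    rw [mem_neg, mem_neg, h1, show -(t - -x) = -t - x by ring]
    constructor
    · rintro (h | h); exact Or.inl (by omega); exact Or.inr h
    · rintro (h | h); exact Or.inl (by omega); exact Or.inr h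
  · intro t
    rw [mem_neg, mem_neg, h2, show -(t - -y) = -t - y by ring]
    constructor
    · rintro (h | h); exact Or.inl (by omega); exact Or.inr h
    · rintro (h | h); exact Or.inl (by omega); exact Or.inr h
  · intro t ha hb
    rw [mem_neg, show -(t - -x) = -t - x by ring] at ha
    rw [mem_neg, show -(t - -y) = -t - y by ring] at hb
    refine h5 (-t) ?_ ?_
    · rcases ha with h | h; exact Or.inl (by omega); exact Or.inr h
    · rcases hb with h | h; exact Or.inl (by omega); exact Or.inr h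
  · refine h6.neg.congr fun t => ?_
    rw [mem_neg, mem_neg, show -(t - -x) = -t - x by ring, show -(t - -y) = -t - y by ring]
    constructor
    · rintro ((h | h) | (h | h))
      exacts [Or.inl (Or.inl (by omega)), Or.inl (Or.inr h), Or.inr (Or.inl (by omega)), Or.inr (Or.inr h)]
    · rintro ((h | h) | (h | h))
      exacts [Or.inl (Or.inl (by omega)), Or.inl (Or.inr h), Or.inr (Or.inl (by omega)), Or.inr (Or.inr h)]

theorem StepB.neg {p q : Pat} {k l b c : ℕ} (h : StepB p q k l b c) :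
    StepB (R31.NI.neg p) (R31.NI.neg q) k l b c := by
  obtain ⟨x, y, p0, q0, p1, q1, h1, h2, h3, h4, h5, h6⟩ := h
  refine ⟨-x, -y, R31.NI.neg p0, R31.NI.neg q0, R31.NI.neg p1, R31.NI.neg q1, ?_, ?_,
    (ok_neg _ _ _ _).2 h3, (ok_neg _ _ _ _).2 h4, ?_, ?_⟩
  · intro t
    rw [mem_neg, mem_neg, h1, show -(t - -x) = -t - x by ring]
    constructor
    · rintro (h | h); exact Or.inl (by omega); exact Or.inr h
    · rintro (h | h); exact Or.inl (by omega); exact Or.inr h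
  · intro t
    rw [mem_neg, mem_neg, h2, show -(t - -y) = -t - y by ring]
  · intro t ha hb
    rw [mem_neg, show -(t - -x) = -t - x by ring] at ha
    rw [mem_neg, show -(t - -y) = -t - y by ring] at hb
    refine h5 (-t) ?_ hb
    rcases ha with h | h; exact Or.inl (by omega); exact Or.inr h
  · refine h6.neg.congr fun t => ?_
    rw [mem_neg, mem_neg, show -(t - -x) = -t - x by ring, show -(t - -y) = -t - y by ring]
    constructor
    · rintro ((h | h) | h)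
      exacts [Or.inl (Or.inl (by omega)), Or.inl (Or.inr h), Or.inr h]
    · rintro ((h | h) | h)
      exacts [Or.inl (Or.inl (by omega)), Or.inl (Or.inr h), Or.inr h]

end R31.NI
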