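import Pool.Agent.R31.NearStep

set_option linter.all false

namespace R31.NI

open Pat

open Classical in
/-- Number of `E`-neighbours of `v` strictly between `i` and `j`. -/
noncomputable def D (E : ℕ → ℕ → Prop) (v i j : ℕ) : ℕ :=
  ((Finset.Ioo i j).filter (fun w => E v w)).card

structure Good (E : ℕ → ℕ → Prop) (i j : ℕ) (f : ℕ → ℕ → ℤ) (c : ℤ) (p q : Pat) : Prop where
  sym : ∀ a b, f a b = f b a
  root : f i j = c
  left : ∀ t, (∃ w, i < w ∧ w < j ∧ E i w ∧ f i w = t) ↔ mem p (D E i i j) (t - c)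
  right : ∀ t, (∃ w, i < w ∧ w < j ∧ E j w ∧ f j w = t) ↔ mem q (D E j i j) (t - c)
  injl : ∀ w w', i < w → w < j → i < w' → w' < j → E i w → E i w' → f i w = f i w' → w = w'
  injr : ∀ w w', i < w → w < j → i < w' → w' < j → E j w → E j w' → f j w = f j w' → w = w'
  inj : ∀ v, i < v → v < j →
    ∀ w w', i ≤ w → w ≤ j → i ≤ w' → w' ≤ j → E v w → E v w' → f v w = f v w' → w = w'
  near : ∀ v, i < v → v < j → NI (fun t => ∃ w, i ≤ w ∧ w ≤ j ∧ E v w ∧ f v w = t)

def Split (E : ℕ → ℕ → Prop) (i w j : ℕ) : Prop :=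
  ∀ a b, E a b → i ≤ a → a < b → b ≤ j → (a = i ∧ b = j) ∨ b ≤ w ∨ w ≤ a

section
variable {E : ℕ → ℕ → Prop} (Es : ∀ a b, E a b → E b a) (Ei : ∀ a, ¬ E a a)

include Es Ei

theorem half_left {i w : ℕ} {f : ℕ → ℕ → ℤ} {c : ℤ} {p q : Pat} (hiw : i < w)
    (h : Good E i w f c p q) (t : ℤ) :
    (∃ u, i ≤ u ∧ u < w ∧ E w u ∧ f w u = t) ↔ ((E i w ∧ t = c) ∨ mem q (D E w i w) (t - c)) := by
  rw [← h.right t]
  constructor
  · rintro ⟨u, h1, h2, h3, h4⟩
    rcases Nat.eq_or_lt_of_le h1 with rfl | h5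
    · left; exact ⟨Es _ _ h3, by rw [← h4, h.sym, h.root]⟩
    · right; exact ⟨u, h5, h2, h3, h4⟩
  · rintro (⟨h1, h2⟩ | ⟨u, h1, h2, h3, h4⟩)
    · exact ⟨i, le_rfl, hiw, Es _ _ h1, by rw [h.sym, h.root, h2]⟩
    · exact ⟨u, h1.le, h2, h3, h4⟩

theorem half_right {w j : ℕ} {f : ℕ → ℕ → ℤ} {c : ℤ} {p q : Pat} (hwj : w < j)
    (h : Good E w j f c p q) (t : ℤ) :
    (∃ u, w < u ∧ u ≤ j ∧ E w u ∧ f w u = t) ↔ ((E j w ∧ t = c) ∨ mem p (D E w w j) (t - c)) := by
  rw [← h.left t]
  constructor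
  · rintro ⟨u, h1, h2, h3, h4⟩
    rcases Nat.eq_or_lt_of_le h2 with rfl | h5
    · left; exact ⟨Es _ _ h3, by rw [← h4, h.root]⟩
    · right; exact ⟨u, h1, h5, h3, h4⟩
  · rintro (⟨h1, h2⟩ | ⟨u, h1, h2, h3, h4⟩)
    · exact ⟨j, hwj, le_rfl, Es _ _ h1, by rw [h.root, h2]⟩
    · exact ⟨u, h1, h2.le, h3, h4⟩

/-- injectivity on the closed half, right end -/
theorem inj_left {i w : ℕ} {f : ℕ → ℕ → ℤ} {c : ℤ} {p q : Pat}
    (h : Good E i w f c p q) (u u' : ℕ) (h1 : i ≤ u) (h2 : u < w) (h1' : i ≤ u') (h2' : u' < w)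
    (h3 : E w u) (h3' : E w u') (h4 : f w u = f w u') : u = u' := by
  rcases Nat.eq_or_lt_of_le h1 with rfl | h5
  · rcases Nat.eq_or_lt_of_le h1' with rfl | h5'
    · rfl
    · exfalso
      have := (h.right c).1 ⟨u', h5', h2', h3', by rw [← h4, h.sym, h.root]⟩
      rw [sub_self] at this
      exact mem_not_zero _ _ this
  · rcases Nat.eq_or_lt_of_le h1' with rfl | h5'
    · exfalso
      have := (h.right c).1 ⟨u, h5, h2, h3, by rw [h4, h.sym, h.root]⟩
      rw [sub_self] at this
      exact mem_not_zero _ _ this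
    · exact h.injr u u' h5 h2 h5' h2' h3 h3' h4

theorem inj_right {w j : ℕ} {f : ℕ → ℕ → ℤ} {c : ℤ} {p q : Pat}
    (h : Good E w j f c p q) (u u' : ℕ) (h1 : w < u) (h2 : u ≤ j) (h1' : w < u') (h2' : u' ≤ j)
    (h3 : E w u) (h3' : E w u') (h4 : f w u = f w u') : u = u' := by
  rcases Nat.eq_or_lt_of_le h2 with rfl | h5
  · rcases Nat.eq_or_lt_of_le h2' with rfl | h5'
    · rfl
    · exfalso
      have := (h.left c).1 ⟨u', h1', h5', h3', by rw [← h4, h.root]⟩
      rw [sub_self] at this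
      exact mem_not_zero _ _ this
  · rcases Nat.eq_or_lt_of_le h2' with rfl | h5'
    · exfalso
      have := (h.left c).1 ⟨u, h1, h5, h3, by rw [h4, h.root]⟩
      rw [sub_self] at this
      exact mem_not_zero _ _ this
    · exact h.injl u u' h1 h5 h1' h5' h3 h3' h4

theorem combine {i w j : ℕ} (hiw : i < w) (hwj : w < j) {f1 f2 : ℕ → ℕ → ℤ} {c x y : ℤ}
    {p q p0 q0 p1 q1 : Pat} (sp : Split E i w j)
    (g1 : Good E i w f1 (c + x) p0 q0) (g2 : Good E w j f2 (c + y) p1 q1)
    (hp : ∀ t, mem p (D E i i j) t ↔ ((E i w ∧ t = x) ∨ mem p0 (D E i i w) (t - x)))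
    (hq : ∀ t, mem q (D E j i j) t ↔ ((E j w ∧ t = y) ∨ mem q1 (D E j w j) (t - y)))
    (hd : ∀ t, ((E i w ∧ t = x) ∨ mem q0 (D E w i w) (t - x)) →
      ((E j w ∧ t = y) ∨ mem p1 (D E w w j) (t - y)) → False)
    (hn : NI (fun t => ((E i w ∧ t = x) ∨ mem q0 (D E w i w) (t - x)) ∨
      ((E j w ∧ t = y) ∨ mem p1 (D E w w j) (t - y)))) :
    ∃ f, Good E i j f c p q := by
  classical
  set f : ℕ → ℕ → ℤ := fun a b =>
    if a ≤ w ∧ b ≤ w then f1 a b else if w ≤ a ∧ w ≤ b then f2 a b else c with hf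
  have F1 : ∀ a b, a ≤ w → b ≤ w → f a b = f1 a b := fun a b ha hb => by
    simp only [hf]; rw [if_pos ⟨ha, hb⟩]
  have F2 : ∀ a b, w ≤ a → w < b → f a b = f2 a b := fun a b ha hb => by
    simp only [hf]; rw [if_neg (by omega), if_pos ⟨ha, hb.le⟩]
  have F2' : ∀ a b, w < a → w ≤ b → f a b = f2 a b := fun a b ha hb => by
    simp only [hf]; rw [if_neg (by omega), if_pos ⟨ha.le, hb⟩]
  have Fs : ∀ a b, f a b = f b a := by
    intro a b
    simp only [hf]
    by_cases h1 : a ≤ w ∧ b ≤ w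
    · rw [if_pos h1, if_pos (show b ≤ w ∧ a ≤ w from h1.symm), g1.sym]
    · rw [if_neg h1, if_neg (show ¬ (b ≤ w ∧ a ≤ w) from fun h => h1 h.symm)]
      by_cases h2 : w ≤ a ∧ w ≤ b
      · rw [if_pos h2, if_pos (show w ≤ b ∧ w ≤ a from h2.symm), g2.sym]
      · rw [if_neg h2, if_neg (show ¬ (w ≤ b ∧ w ≤ a) from fun h => h2 h.symm)]
  -- neighbours
  have Ni : ∀ v, i < v → v < j → E i v → v ≤ w := by
    intro v h1 h2 h3
    rcases sp i v h3 le_rfl h1 h2.le with h | h | h <;> omega
  have Nj : ∀ v, i < v → v < j → E j v → w ≤ v := by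
    intro v h1 h2 h3
    rcases sp v j (Es _ _ h3) h1.le h2 le_rfl with h | h | h <;> omega
  have Nl : ∀ v u, i < v → v < w → i ≤ u → u ≤ j → E v u → u ≤ w := by
    intro v u h1 h2 h3 h4 h5
    by_contra h6
    rcases sp v u h5 h1.le (by omega) h4 with h | h | h <;> omega
  have Nr : ∀ v u, w < v → v < j → i ≤ u → u ≤ j → E v u → w ≤ u := by
    intro v u h1 h2 h3 h4 h5
    by_contra h6
    rcases sp u v (Es _ _ h5) h3 (by omega) h2.le with h | h | h <;> omega
  have Hl := fun t => half_left Es Ei hiw g1 t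
  have Hr := fun t => half_right Es Ei hwj g2 t
  refine ⟨f, Fs, ?_, ?_, ?_, ?_, ?_, ?_, ?_⟩
  · simp only [hf]; rw [if_neg (by omega), if_neg (by omega)]
  · intro t
    rw [hp, show t - c - x = t - (c + x) by ring, ← g1.left t]
    constructor
    · rintro ⟨v, h1, h2, h3, h4⟩
      have h5 := Ni v h1 h2 h3
      rw [F1 _ _ hiw.le h5] at h4
      rcases Nat.eq_or_lt_of_le h5 with rfl | h6
      · left; exact ⟨h3, by rw [← h4, g1.root]; ring⟩
      · right; exact ⟨v, h1, h6, h3, h4⟩
    · rintro (⟨h1, h2⟩ | ⟨v, h1, h2, h3, h4⟩)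
      · exact ⟨w, hiw, hwj, h1, by rw [F1 _ _ hiw.le le_rfl, g1.root]; linarith⟩
      · exact ⟨v, h1, h2.trans hwj, h3, by rw [F1 _ _ hiw.le h2.le, h4]⟩
  · intro t
    rw [hq, show t - c - y = t - (c + y) by ring, ← g2.right t]
    constructor
    · rintro ⟨v, h1, h2, h3, h4⟩
      have h5 := Nj v h1 h2 h3
      rw [F2' _ _ hwj h5] at h4
      rcases Nat.eq_or_lt_of_le h5 with rfl | h6
      · left; exact ⟨h3, by rw [← h4, g2.sym, g2.root]; ring⟩
      · right; exact ⟨v, h6, h2, h3, h4⟩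
    · rintro (⟨h1, h2⟩ | ⟨v, h1, h2, h3, h4⟩)
      · exact ⟨w, hiw, hwj, h1, by rw [F2' _ _ hwj le_rfl, g2.sym, g2.root]; linarith⟩
      · exact ⟨v, hiw.trans h1, h2, h3, by rw [F2' _ _ hwj h1.le, h4]⟩
  · intro u u' h1 h2 h1' h2' h3 h3' h4
    have h5 := Ni u h1 h2 h3
    have h5' := Ni u' h1' h2' h3'
    rw [F1 _ _ hiw.le h5, F1 _ _ hiw.le h5'] at h4
    exact inj_right Es Ei g1 u u' h1 h5 h1' h5' h3 h3' h4
  · intro u u' h1 h2 h1' h2' h3 h3' h4
    have h5 := Nj u h1 h2 h3
    have h5' := Nj u' h1' h2' h3'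
    rw [F2' _ _ hwj h5, F2' _ _ hwj h5'] at h4
    exact inj_left Es Ei g2 u u' h5 h2 h5' h2' h3 h3' h4
  · intro v hv1 hv2 u u' h1 h2 h1' h2' h3 h3' h4
    rcases lt_trichotomy v w with hvw | rfl | hvw
    · have h5 := Nl v u hv1 hvw h1 h2 h3
      have h5' := Nl v u' hv1 hvw h1' h2' h3'
      rw [F1 _ _ hvw.le h5, F1 _ _ hvw.le h5'] at h4
      exact g1.inj v hv1 hvw u u' h1 h5 h1' h5' h3 h3' h4
    · rcases lt_trichotomy u v with hu | rfl | hu
      · rcases lt_trichotomy u' v with hu' | rfl | hu'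
        · rw [F1 _ _ le_rfl hu.le, F1 _ _ le_rfl hu'.le] at h4
          exact inj_left Es Ei g1 u u' h1 hu h1' hu' h3 h3' h4
        · exact absurd h3' (Ei _)
        · exfalso
          rw [F1 _ _ le_rfl hu.le, F2 _ _ le_rfl hu'] at h4
          have e1 := (Hl (f1 v u)).1 ⟨u, h1, hu, h3, rfl⟩
          have e2 := (Hr (f1 v u)).1 ⟨u', hu', h2', h3', h4.symm⟩
          refine hd (f1 v u - c) ?_ ?_
          · rcases e1 with ⟨e, e'⟩ | e
            · exact Or.inl ⟨e, by rw [e']; ring⟩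
            · right; rwa [show f1 v u - c - x = f1 v u - (c + x) by ring]
          · rcases e2 with ⟨e, e'⟩ | e
            · exact Or.inl ⟨e, by rw [e']; ring⟩
            · right; rwa [show f1 v u - c - y = f1 v u - (c + y) by ring]
      · exact absurd h3 (Ei _)
      · rcases lt_trichotomy u' v with hu' | rfl | hu'
        · exfalso
          rw [F2 _ _ le_rfl hu, F1 _ _ le_rfl hu'.le] at h4
          have e1 := (Hl (f1 v u')).1 ⟨u', h1', hu', h3', rfl⟩
          have e2 := (Hr (f1 v u')).1 ⟨u, hu, h2, h3, h4⟩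
          refine hd (f1 v u' - c) ?_ ?_
          · rcases e1 with ⟨e, e'⟩ | e
            · exact Or.inl ⟨e, by rw [e']; ring⟩
            · right; rwa [show f1 v u' - c - x = f1 v u' - (c + x) by ring]
          · rcases e2 with ⟨e, e'⟩ | e
            · exact Or.inl ⟨e, by rw [e']; ring⟩
            · right; rwa [show f1 v u' - c - y = f1 v u' - (c + y) by ring]
        · exact absurd h3' (Ei _)
        · rw [F2 _ _ le_rfl hu, F2 _ _ le_rfl hu'] at h4
          exact inj_right Es Ei g2 u u' hu h2 hu' h2' h3 h3' h4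
    · have h5 := Nr v u hvw hv2 h1 h2 h3
      have h5' := Nr v u' hvw hv2 h1' h2' h3'
      rw [F2' _ _ hvw h5, F2' _ _ hvw h5'] at h4
      exact g2.inj v hvw hv2 u u' h5 h2 h5' h2' h3 h3' h4
  · intro v hv1 hv2
    rcases lt_trichotomy v w with hvw | rfl | hvw
    · refine (g1.near v hv1 hvw).congr fun t => ⟨?_, ?_⟩
      · rintro ⟨u, h1, h2, h3, h4⟩
        have h5 := Nl v u hv1 hvw h1 h2 h3
        exact ⟨u, h1, h5, h3, by rw [← h4, F1 _ _ hvw.le h5]⟩
      · rintro ⟨u, h1, h2, h3, h4⟩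
        exact ⟨u, h1, h2.trans hwj.le, h3, by rw [← h4, F1 _ _ hvw.le h2]⟩
    · refine (hn.shift c).congr fun t => ⟨?_, ?_⟩
      · rintro ⟨u, h1, h2, h3, h4⟩
        rcases lt_trichotomy u v with hu | rfl | hu
        · left
          rw [F1 _ _ le_rfl hu.le] at h4
          rcases (Hl t).1 ⟨u, h1, hu, h3, h4⟩ with ⟨e, e'⟩ | e
          · exact Or.inl ⟨e, by rw [e']; ring⟩
          · right; rwa [show t - c - x = t - (c + x) by ring]
        · exact absurd h3 (Ei _)
        · right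
          rw [F2 _ _ le_rfl hu] at h4
          rcases (Hr t).1 ⟨u, hu, h2, h3, h4⟩ with ⟨e, e'⟩ | e
          · exact Or.inl ⟨e, by rw [e']; ring⟩
          · right; rwa [show t - c - y = t - (c + y) by ring]
      · rintro (h | h)
        · have : (∃ u, i ≤ u ∧ u < v ∧ E v u ∧ f1 v u = t) := by
            rw [Hl]
            rcases h with ⟨e, e'⟩ | e
            · exact Or.inl ⟨e, by linarith⟩
            · right; rwa [show t - c - x = t - (c + x) by ring] at e
          obtain ⟨u, h1, h2, h3, h4⟩ := this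
          exact ⟨u, h1, by omega, h3, by rw [F1 _ _ le_rfl h2.le, h4]⟩
        · have : (∃ u, v < u ∧ u ≤ j ∧ E v u ∧ f2 v u = t) := by
            rw [Hr]
            rcases h with ⟨e, e'⟩ | e
            · exact Or.inl ⟨e, by linarith⟩
            · right; rwa [show t - c - y = t - (c + y) by ring] at e
          obtain ⟨u, h1, h2, h3, h4⟩ := this
          exact ⟨u, by omega, h2, h3, by rw [F2 _ _ le_rfl h1, h4]⟩
    · refine (g2.near v hvw hv2).congr fun t => ⟨?_, ?_⟩
      · rintro ⟨u, h1, h2, h3, h4⟩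
        have h5 := Nr v u hvw hv2 h1 h2 h3
        exact ⟨u, h5, h2, h3, by rw [← h4, F2' _ _ hvw h5]⟩
      · rintro ⟨u, h1, h2, h3, h4⟩
        exact ⟨u, hiw.le.trans h1, h2, h3, by rw [← h4, F2' _ _ hvw h1]⟩

theorem D_left_pos {i w j : ℕ} (hiw : i < w) (hwj : w < j) (sp : Split E i w j) (h : E i w) :
    D E i i j = D E i i w + 1 := by
  classical
  unfold D
  have : (Finset.Ioo i j).filter (fun u => E i u) =
      insert w ((Finset.Ioo i w).filter (fun u => E i u)) := by
    ext u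
    simp only [Finset.mem_filter, Finset.mem_Ioo, Finset.mem_insert]
    constructor
    · rintro ⟨⟨h1, h2⟩, h3⟩
      rcases sp i u h3 le_rfl h1 h2.le with h | h | h
      · omega
      · rcases Nat.eq_or_lt_of_le h with h | h
        · exact Or.inl h
        · exact Or.inr ⟨⟨h1, h⟩, h3⟩
      · omega
    · rintro (rfl | ⟨⟨h1, h2⟩, h3⟩)
      · exact ⟨⟨hiw, hwj⟩, h⟩
      · exact ⟨⟨h1, h2.trans hwj⟩, h3⟩
  rw [this, Finset.card_insert_of_notMem]
  simp

theorem D_left_neg {i w j : ℕ} (hiw : i < w) (hwj : w < j) (sp : Split E i w j) (h : ¬ E i w) :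
    D E i i j = D E i i w := by
  classical
  unfold D
  congr 1
  ext u
  simp only [Finset.mem_filter, Finset.mem_Ioo]
  constructor
  · rintro ⟨⟨h1, h2⟩, h3⟩
    rcases sp i u h3 le_rfl h1 h2.le with h4 | h4 | h4
    · omega
    · rcases Nat.eq_or_lt_of_le h4 with h5 | h5
      · subst h5; exact absurd h3 h
      · exact ⟨⟨h1, h5⟩, h3⟩
    · omega
  · rintro ⟨⟨h1, h2⟩, h3⟩
    exact ⟨⟨h1, h2.trans hwj⟩, h3⟩

theorem D_right_pos {i w j : ℕ} (hiw : i < w) (hwj : w < j) (sp : Split E i w j) (h : E j w) :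
    D E j i j = D E j w j + 1 := by
  classical
  unfold D
  have : (Finset.Ioo i j).filter (fun u => E j u) =
      insert w ((Finset.Ioo w j).filter (fun u => E j u)) := by
    ext u
    simp only [Finset.mem_filter, Finset.mem_Ioo, Finset.mem_insert]
    constructor
    · rintro ⟨⟨h1, h2⟩, h3⟩
      rcases sp u j (Es _ _ h3) h1.le h2 le_rfl with h | h | h
      · omega
      · omega
      · rcases Nat.eq_or_lt_of_le h with h | h
        · exact Or.inl h.symm
        · exact Or.inr ⟨⟨h, h2⟩, h3⟩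
    · rintro (rfl | ⟨⟨h1, h2⟩, h3⟩)
      · exact ⟨⟨hiw, hwj⟩, h⟩
      · exact ⟨⟨hiw.trans h1, h2⟩, h3⟩
  rw [this, Finset.card_insert_of_notMem]
  simp

theorem D_right_neg {i w j : ℕ} (hiw : i < w) (hwj : w < j) (sp : Split E i w j) (h : ¬ E j w) :
    D E j i j = D E j w j := by
  classical
  unfold D
  congr 1
  ext u
  simp only [Finset.mem_filter, Finset.mem_Ioo]
  constructor
  · rintro ⟨⟨h1, h2⟩, h3⟩
    rcases sp u j (Es _ _ h3) h1.le h2 le_rfl with h4 | h4 | h4
    · omega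
    · omega
    · rcases Nat.eq_or_lt_of_le h4 with h5 | h5
      · subst h5; exact absurd h3 h
      · exact ⟨⟨h5, h2⟩, h3⟩
  · rintro ⟨⟨h1, h2⟩, h3⟩
    exact ⟨⟨hiw.trans h1, h2⟩, h3⟩

theorem good_trivial (i : ℕ) (c : ℤ) (p q : Pat) : Good E i (i + 1) (fun _ _ => c) c p q := by
  classical
  have h0 : ∀ v, D E v i (i + 1) = 0 := by
    intro v
    unfold D
    rw [Finset.card_eq_zero, Finset.filter_eq_empty_iff]
    intro u hu
    rw [Finset.mem_Ioo] at hu
    omega
  refine ⟨fun _ _ => rfl, rfl, ?_, ?_, ?_, ?_, ?_, ?_⟩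
  · intro t
    rw [h0]
    exact ⟨fun ⟨w, h1, h2, _⟩ => absurd h2 (by omega), fun h => absurd h (mem_zero _ _)⟩
  · intro t
    rw [h0]
    exact ⟨fun ⟨w, h1, h2, _⟩ => absurd h2 (by omega), fun h => absurd h (mem_zero _ _)⟩
  · intro w w' h1 h2; omega
  · intro w w' h1 h2; omega
  · intro v h1 h2; omega
  · intro v h1 h2; omega

/-- The main induction. -/
theorem main (nc : ∀ a b c d, E a b → E c d → a < c → c < b → b < d → False) :
    ∀ n i j : ℕ, i < j → j - i ≤ n → ∀ (c : ℤ) (p q : Pat),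
      ok p q (D E i i j) (D E j i j) → ∃ f, Good E i j f c p q := by
  classical
  intro n
  induction n with
  | zero => intro i j h1 h2; omega
  | succ n ih =>
    intro i j hij hn c p q hok
    rcases Nat.eq_or_lt_of_le (Nat.succ_le_of_lt hij) with h1 | h1
    · subst h1
      exact ⟨_, good_trivial Es Ei i c p q⟩
    have h1 : i + 1 < j := h1
    by_cases hD : D E i i j = 0
    · -- no neighbour of `i` inside
      have hno : ∀ u, i < u → u < j → ¬ E i u := by
        intro u hu1 hu2 hu3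
        unfold D at hD
        rw [Finset.card_eq_zero, Finset.filter_eq_empty_iff] at hD
        exact hD (Finset.mem_Ioo.2 ⟨hu1, hu2⟩) hu3
      have sp : Split E i (i + 1) j := by
        intro a b h2 h3 h4 h5
        rcases Nat.eq_or_lt_of_le h3 with rfl | h6
        · left
          refine ⟨rfl, ?_⟩
          by_contra h7
          exact hno b h4 (by omega) h2
        · right; right; omega
      have hiw : i < i + 1 := Nat.lt_succ_self i
      have e1 : ¬ E i (i + 1) := hno _ hiw h1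
      have e2 : D E i i j = D E i i (i + 1) := D_left_neg Es Ei hiw h1 sp e1
      have d0 : ∀ v, D E v i (i + 1) = 0 := by
        intro v
        unfold D
        rw [Finset.card_eq_zero, Finset.filter_eq_empty_iff]
        intro u hu
        rw [Finset.mem_Ioo] at hu
        omega
      by_cases hE : E j (i + 1)
      · have e3 := D_right_pos Es Ei hiw h1 sp hE
        obtain ⟨y, p1, q1, s1, s2, s3⟩ := stepC q (D E j (i + 1) j) (D E (i + 1) (i + 1) j)
        obtain ⟨f2, g2⟩ := ih (i + 1) j h1 (by omega) (c + y) p1 q1 s2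
        refine combine Es Ei hiw h1 sp (good_trivial Es Ei i (c + 0) U U) g2 ?_ ?_ ?_ ?_
        · intro t
          rw [e2, d0]
          exact ⟨fun h => absurd h (mem_zero _ _),
            fun h => h.elim (fun h => absurd h.1 e1) (fun h => absurd h (mem_zero _ _))⟩
        · intro t
          rw [e3, s1]
          simp [hE]
        · intro t ha hb
          rw [d0] at ha
          exact ha.elim (fun h => absurd h.1 e1) (fun h => absurd h (mem_zero _ _))
        · refine s3.congr fun t => ?_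
          rw [d0]
          simp [hE, e1, mem_zero]
      · have e3 := D_right_neg Es Ei hiw h1 sp hE
        obtain ⟨y, p1, q1, s1, s2, s3⟩ := stepD q (D E j (i + 1) j) (D E (i + 1) (i + 1) j)
        obtain ⟨f2, g2⟩ := ih (i + 1) j h1 (by omega) (c + y) p1 q1 s2
        refine combine Es Ei hiw h1 sp (good_trivial Es Ei i (c + 0) U U) g2 ?_ ?_ ?_ ?_
        · intro t
          rw [e2, d0]
          exact ⟨fun h => absurd h (mem_zero _ _),
            fun h => h.elim (fun h => absurd h.1 e1) (fun h => absurd h (mem_zero _ _))⟩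
        · intro t
          rw [e3, s1]
          simp [hE]
        · intro t ha hb
          rw [d0] at ha
          exact ha.elim (fun h => absurd h.1 e1) (fun h => absurd h (mem_zero _ _))
        · refine s3.congr fun t => ?_
          rw [d0]
          simp [hE, e1, mem_zero]
    · -- the largest neighbour `w` of `i`
      have hne : ((Finset.Ioo i j).filter (fun u => E i u)).Nonempty := by
        rw [Finset.nonempty_iff_ne_empty]
        intro h
        apply hD
        unfold D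
        rw [h]; rfl
      obtain ⟨w, hw, hmax⟩ := Finset.exists_max_image _ (fun u => u) hne
      rw [Finset.mem_filter, Finset.mem_Ioo] at hw
      obtain ⟨⟨hiw, hwj⟩, hEw⟩ := hw
      have sp : Split E i w j := by
        intro a b h2 h3 h4 h5
        rcases Nat.eq_or_lt_of_le h3 with rfl | h6
        · rcases Nat.eq_or_lt_of_le h5 with rfl | h7
          · left; exact ⟨rfl, rfl⟩
          · right; left
            exact hmax b (Finset.mem_filter.2 ⟨Finset.mem_Ioo.2 ⟨h4, h7⟩, h2⟩)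
        · by_contra h7
          push Not at h7
          exact nc i w a b hEw h2 h6 h7.2.2 h7.2.1
      have e2 := D_left_pos Es Ei hiw hwj sp hEw
      by_cases hE : E j w
      · have e3 := D_right_pos Es Ei hiw hwj sp hE
        rw [e2, e3] at hok
        obtain ⟨x, y, p0, q0, p1, q1, s1, s2, s3, s4, s5, s6⟩ :=
          stepA p q (D E i i w) (D E j w j) (D E w i w) (D E w w j) hok
        obtain ⟨f1, g1⟩ := ih i w hiw (by omega) (c + x) p0 q0 s3
        obtain ⟨f2, g2⟩ := ih w j hwj (by omega) (c + y) p1 q1 s4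
        refine combine Es Ei hiw hwj sp g1 g2 ?_ ?_ ?_ ?_
        · intro t
          rw [e2, s1]
          simp [hEw]
        · intro t
          rw [e3, s2]
          simp [hE]
        · intro t ha hb
          simp only [hEw, hE, true_and] at ha hb
          exact s5 t ha hb
        · refine s6.congr fun t => ?_
          simp only [hEw, hE, true_and]
      · have e3 := D_right_neg Es Ei hiw hwj sp hE
        rw [e2, e3] at hok
        obtain ⟨x, y, p0, q0, p1, q1, s1, s2, s3, s4, s5, s6⟩ :=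
          stepB p q (D E i i w) (D E j w j) (D E w i w) (D E w w j) hok
        obtain ⟨f1, g1⟩ := ih i w hiw (by omega) (c + x) p0 q0 s3
        obtain ⟨f2, g2⟩ := ih w j hwj (by omega) (c + y) p1 q1 s4
        refine combine Es Ei hiw hwj sp g1 g2 ?_ ?_ ?_ ?_
        · intro t
          rw [e2, s1]
          simp [hEw]
        · intro t
          rw [e3, s2]
          simp [hE]
        · intro t ha hb
          simp only [hEw, hE, true_and, false_and, false_or] at ha hb
          exact s5 t ha hb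
        · refine s6.congr fun t => ?_
          simp only [hEw, hE, true_and, false_and, false_or]

end

end R31.NI
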