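import Pool.Agent.R31.NearA
import Pool.Agent.R31.NearB

set_option linter.all false

namespace R31.NI

open Pat

theorem stepA (p q : Pat) (k l b c : ℕ) (h : ok p q (k + 1) (l + 1)) : StepA p q k l b c := by
  cases p <;> cases q <;>
  first
  | exact stepA_F_nU k l b c h
  | exact (stepA_F_nU k l b c h).neg
  | exact stepA_F_nV k l b c h
  | exact (stepA_F_nV k l b c h).neg
  | exact stepA_F_U k l b c h
  | exact (stepA_F_U k l b c h).neg
  | exact stepA_U_nF k l b c h
  | exact (stepA_U_nF k l b c h).neg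
  | exact stepA_U_F k l b c h
  | exact (stepA_U_F k l b c h).neg
  | exact stepA_U_V k l b c h
  | exact (stepA_U_V k l b c h).neg
  | exact stepA_V_nF k l b c h
  | exact (stepA_V_nF k l b c h).neg
  | exact stepA_V_U k l b c h
  | exact (stepA_V_U k l b c h).neg
  | exact stepA_V_V k l b c h
  | exact (stepA_V_V k l b c h).neg
  | exact stepA_V_W k l b c h
  | exact (stepA_V_W k l b c h).neg
  | exact stepA_W_V k l b c h
  | exact (stepA_W_V k l b c h).neg
  | (exfalso; simp [ok, core] at h)

theorem stepB1 (p q : Pat) (k l b c : ℕ) (h0 : 1 ≤ l) (h : ok p q (k + 1) l) :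
    StepB p q k l b c := by
  cases p <;> cases q <;>
  first
  | exact stepB_F_nU k l b c h0 h
  | exact (stepB_F_nU k l b c h0 h).neg
  | exact stepB_F_nV k l b c h0 h
  | exact (stepB_F_nV k l b c h0 h).neg
  | exact stepB_F_U k l b c h0 h
  | exact (stepB_F_U k l b c h0 h).neg
  | exact stepB_U_nF k l b c h0 h
  | exact (stepB_U_nF k l b c h0 h).neg
  | exact stepB_U_F k l b c h0 h
  | exact (stepB_U_F k l b c h0 h).neg
  | exact stepB_U_V k l b c h0 h
  | exact (stepB_U_V k l b c h0 h).neg
  | exact stepB_V_nF k l b c h0 h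
  | exact (stepB_V_nF k l b c h0 h).neg
  | exact stepB_V_U k l b c h0 h
  | exact (stepB_V_U k l b c h0 h).neg
  | exact stepB_V_V k l b c h0 h
  | exact (stepB_V_V k l b c h0 h).neg
  | exact stepB_V_W k l b c h0 h
  | exact (stepB_V_W k l b c h0 h).neg
  | exact stepB_W_V k l b c h0 h
  | exact (stepB_W_V k l b c h0 h).neg
  | (exfalso; simp [ok, core] at h; omega)

theorem stepB0 (p q : Pat) (k b c : ℕ) : StepB p q k 0 b c := by
  have h2 : ∀ s t : ℤ, mem q 0 t ↔ mem U 0 (t - s) := fun s t =>
    ⟨fun h => absurd h (mem_zero _ _), fun h => absurd h (mem_zero _ _)⟩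
  have h3 : ∀ r : Pat, ok r U c 0 := fun r => Or.inr (Or.inl rfl)
  cases p
  · exact ⟨1, 1, U, V, nU, U, fun t => by simp only [mem]; omega, h2 1, by simp [ok, core], h3 _,
      fun t => by simp only [mem]; omega, ⟨1 - c, if b = 0 then 1 else b + 2, 2, fun t => by
        simp only [mem]; split_ifs <;> omega⟩⟩
  · exact ⟨2, 2, U, V, nU, U, fun t => by simp only [mem]; omega, h2 2, by simp [ok, core], h3 _,
      fun t => by simp only [mem]; omega, ⟨2 - c, if b = 0 then 2 else b + 3, 3, fun t => by
        simp only [mem]; split_ifs <;> omega⟩⟩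
  · exact ⟨1, 1, V, U, nU, U, fun t => by simp only [mem]; omega, h2 1, by simp [ok, core], h3 _,
      fun t => by simp only [mem]; omega, ⟨1 - c, b + 1, -c, fun t => by
        simp only [mem]; omega⟩⟩
  · exact ⟨-1, -1, V, U, nU, U, fun t => by simp only [mem]; omega, h2 (-1), by simp [ok, core], h3 _,
      fun t => by simp only [mem]; omega, ⟨-1 - c, b - 1, -2-c, fun t => by
        simp only [mem]; omega⟩⟩
  · exact ⟨-1, -1, nU, nV, U, U, fun t => by simp only [mem]; omega, h2 (-1), by simp [ok, core], h3 _,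
      fun t => by simp only [mem]; omega, ⟨if b = 0 then -1 else -b - 2, -1 + c, -2, fun t => by
        simp only [mem]; split_ifs <;> omega⟩⟩
  · exact ⟨-2, -2, nU, nV, U, U, fun t => by simp only [mem]; omega, h2 (-2), by simp [ok, core], h3 _,
      fun t => by simp only [mem]; omega, ⟨if b = 0 then -2 else -b - 3, -2 + c, -3, fun t => by
        simp only [mem]; split_ifs <;> omega⟩⟩
  · exact ⟨-1, -1, nV, nU, U, U, fun t => by simp only [mem]; omega, h2 (-1), by simp [ok, core], h3 _,
      fun t => by simp only [mem]; omega, ⟨-b - 1, -1 + c, c, fun t => by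
        simp only [mem]; omega⟩⟩
  · exact ⟨1, 1, nV, nU, U, U, fun t => by simp only [mem]; omega, h2 1, by simp [ok, core], h3 _,
      fun t => by simp only [mem]; omega, ⟨-b + 1, 1 + c, 2 + c, fun t => by
        simp only [mem]; omega⟩⟩

theorem stepB (p q : Pat) (k l b c : ℕ) (h : ok p q (k + 1) l) : StepB p q k l b c := by
  rcases Nat.eq_zero_or_pos l with rfl | hl
  · exact stepB0 p q k b c
  · exact stepB1 p q k l b c hl h

theorem stepC (q : Pat) (l c : ℕ) : ∃ (y : ℤ) (p1 q1 : Pat),
    (∀ t, mem q (l + 1) t ↔ (t = y ∨ mem q1 l (t - y))) ∧ ok p1 q1 c l ∧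
    NI (fun t => t = y ∨ mem p1 c (t - y)) := by
  cases q
  · exact ⟨1, V, U, fun t => by simp only [mem]; omega, by simp [ok, core],
      ⟨1, if c = 0 then 1 else c + 2, 2, fun t => by simp only [mem]; split_ifs <;> omega⟩⟩
  · exact ⟨2, V, U, fun t => by simp only [mem]; omega, by simp [ok, core],
      ⟨2, if c = 0 then 2 else c + 3, 3, fun t => by simp only [mem]; split_ifs <;> omega⟩⟩
  · exact ⟨1, U, V, fun t => by simp only [mem]; omega, by simp [ok, core],
      ⟨1, c + 1, 0, fun t => by simp only [mem]; omega⟩⟩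
  · exact ⟨-1, U, V, fun t => by simp only [mem]; omega, by simp [ok, core],
      ⟨-1, c - 1, -2, fun t => by simp only [mem]; omega⟩⟩
  · exact ⟨-1, nV, nU, fun t => by simp only [mem]; omega, by simp [ok, core],
      ⟨if c = 0 then -1 else -c - 2, -1, -2, fun t => by simp only [mem]; split_ifs <;> omega⟩⟩
  · exact ⟨-2, nV, nU, fun t => by simp only [mem]; omega, by simp [ok, core],
      ⟨if c = 0 then -2 else -c - 3, -2, -3, fun t => by simp only [mem]; split_ifs <;> omega⟩⟩
  · exact ⟨-1, nU, nV, fun t => by simp only [mem]; omega, by simp [ok, core],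
      ⟨-c - 1, -1, 0, fun t => by simp only [mem]; omega⟩⟩
  · exact ⟨1, nU, nV, fun t => by simp only [mem]; omega, by simp [ok, core],
      ⟨-c + 1, 1, 2, fun t => by simp only [mem]; omega⟩⟩

theorem stepD (q : Pat) (l c : ℕ) : ∃ (s : ℤ) (p1 q1 : Pat),
    (∀ t, mem q l t ↔ mem q1 l (t - s)) ∧ ok p1 q1 c l ∧
    NI (fun t => mem p1 c (t - s)) := by
  cases q
  · exact ⟨0, V, U, fun t => by simp only [mem]; omega, by simp [ok, core],
      ⟨2, c + 1, 0, fun t => by simp only [mem]; omega⟩⟩
  · exact ⟨0, U, V, fun t => by simp only [mem]; omega, by simp [ok, core],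
      ⟨1, c, 0, fun t => by simp only [mem]; omega⟩⟩
  · exact ⟨2, U, F, fun t => by simp only [mem]; omega, by simp [ok, core],
      ⟨3, c + 2, 0, fun t => by simp only [mem]; omega⟩⟩
  · exact ⟨0, U, F, fun t => by simp only [mem]; omega, by simp [ok, core],
      ⟨1, c, 0, fun t => by simp only [mem]; omega⟩⟩
  · exact ⟨0, nV, nU, fun t => by simp only [mem]; omega, by simp [ok, core],
      ⟨-c - 1, -2, 0, fun t => by simp only [mem]; omega⟩⟩
  · exact ⟨0, nU, nV, fun t => by simp only [mem]; omega, by simp [ok, core],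
      ⟨-c, -1, 0, fun t => by simp only [mem]; omega⟩⟩
  · exact ⟨-2, nU, nF, fun t => by simp only [mem]; omega, by simp [ok, core],
      ⟨-c - 2, -3, 0, fun t => by simp only [mem]; omega⟩⟩
  · exact ⟨0, nU, nF, fun t => by simp only [mem]; omega, by simp [ok, core],
      ⟨-c, -1, 0, fun t => by simp only [mem]; omega⟩⟩

end R31.NI
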