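import Mathlib
import Pool.Agent.R31.MapEuler

/-!
# Drawings with at most one crossing per edge, as plane maps

A drawing of a graph in which every edge is crossed at most once is recorded by its planarisation:
a combinatorial map whose vertices are the vertices of the graph and the crossings.
-/

set_option autoImplicit false

namespace Pool.Agent.R31.OnePlane

set_option linter.unusedSectionVars false

/-- The dart at the other end of the edge of the drawn graph which starts with the dart `d`: this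
is `α d` if that dart is at a vertex of the graph; otherwise the edge runs straight on through the
crossing. -/
def opp {D W : Type} (σ α : Equiv.Perm D) (vert : D → Option W) (d : D) : D :=
  if (vert (α d)).isSome then α d else α (σ (σ (α d)))

/-- The planarisation of a drawing, with the vertices, faces and components given by labels. -/
structure Draw {W : Type} (H : SimpleGraph W) where
  D : Type
  V : Type
  F : Type
  C : Type
  finD : Fintype D
  finV : Fintype V
  finF : Fintype F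
  finC : Fintype C
  σ : Equiv.Perm D
  α : Equiv.Perm D
  v : D → V
  f : D → F
  comp : D → C
  αα : ∀ d, α (α d) = d
  α_ne : ∀ d, α d ≠ d
  vσ : ∀ d, v (σ d) = v d
  fσ : ∀ d, f (σ (α d)) = f d
  v_surj : Function.Surjective v
  f_surj : Function.Surjective f
  c_surj : Function.Surjective comp
  conn : ∀ P : D → Prop, (∀ d, P d → P (α d)) → (∀ d, P d → P (σ d)) →
      ∀ d e, comp d = comp e → P d → P e
  euler : Fintype.card D + 4 * Fintype.card C ≤ 2 * (Fintype.card V + Fintype.card F)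
  vert : D → Option W
  vert_σ : ∀ d, vert (σ d) = vert d
  cyc : ∀ d e, vert d ≠ none → vert e = vert d → σ.SameCycle d e
  mid4 : ∀ d, vert d = none → σ (σ (σ (σ d))) = d
  mid2 : ∀ d, vert d = none → σ (σ d) ≠ d
  midα : ∀ d, vert d = none → vert (α d) ≠ none
  mid_ne : ∀ d, vert d = none → vert (α (σ d)) ≠ vert (α d)
  adj_iff : ∀ u w, H.Adj u w ↔ ∃ d, vert d = some u ∧ vert (opp σ α vert d) = some w
  unique : ∀ d e, vert d ≠ none → vert e = vert d →
    vert (opp σ α vert e) = vert (opp σ α vert d) → e = d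

attribute [instance] Draw.finD Draw.finV Draw.finF Draw.finC

namespace Draw

open scoped Classical

variable {W : Type} {H : SimpleGraph W} (M : Draw H)

/-- The exactness property of the plane map. -/
theorem exact (y : M.D → ZMod 2) (hy : ∀ d, y (M.α d) = y d)
    (hy' : ∀ u, ∑ d with M.v d = u, y d = 0) :
    ∃ x : M.F → ZMod 2, ∀ d, y d = x (M.f d) + x (M.f (M.α d)) :=
  MapEuler.exact_comps M.α M.σ M.v M.f M.comp M.αα M.α_ne M.vσ M.fσ M.v_surj M.f_surj M.c_surj
    M.conn M.euler y hy hy'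

theorem fσ' (d : M.D) : M.f (M.σ d) = M.f (M.α d) := by
  have := M.fσ (M.α d)
  rwa [M.αα] at this

/-- The dart at the other end of the edge. -/
def rev (d : M.D) : M.D := opp M.σ M.α M.vert d

/-- The next dart around a crossing. -/
def nx (d : M.D) : M.D := M.α (M.σ (M.α d))

/-- The previous dart around a crossing. -/
def pv (d : M.D) : M.D := M.α (M.σ (M.σ (M.σ (M.α d))))

theorem rev_unc {d : M.D} (h : M.vert (M.α d) ≠ none) : M.rev d = M.α d := by
  unfold rev opp
  rw [if_pos (Option.isSome_iff_ne_none.mpr h)]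

theorem rev_cr {d : M.D} (h : M.vert (M.α d) = none) :
    M.rev d = M.α (M.σ (M.σ (M.α d))) := by
  unfold rev opp
  rw [if_neg]
  rw [h]
  simp

theorem vert_rev_ne {d : M.D} : M.vert (M.rev d) ≠ none := by
  by_cases h : M.vert (M.α d) = none
  · rw [M.rev_cr h]
    apply M.midα
    rw [M.vert_σ, M.vert_σ, h]
  · rw [M.rev_unc h]
    exact h

theorem rev_rev {d : M.D} (hd : M.vert d ≠ none) : M.rev (M.rev d) = d := by
  by_cases h : M.vert (M.α d) = none
  · rw [M.rev_cr h]
    rw [M.rev_cr (by rw [M.αα, M.vert_σ, M.vert_σ, h])]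
    rw [M.αα, M.mid4 _ h, M.αα]
  · rw [M.rev_unc h]
    rw [M.rev_unc (by rw [M.αα]; exact hd), M.αα]

theorem adj_rev {d : M.D} {u w : W} (hu : M.vert d = some u) (hw : M.vert (M.rev d) = some w) :
    H.Adj u w := (M.adj_iff u w).mpr ⟨d, hu, hw⟩

theorem vert_rev_ne_vert {d : M.D} (hd : M.vert d ≠ none) : M.vert (M.rev d) ≠ M.vert d := by
  obtain ⟨u, hu⟩ := Option.ne_none_iff_exists'.mp hd
  intro h
  rw [hu] at h
  exact (M.adj_rev hu h).ne rfl

theorem start_of_cr {d : M.D} (h : M.vert (M.α d) = none) : M.vert d ≠ none := by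
  have := M.midα _ h
  rwa [M.αα] at this

theorem cr_nx {d : M.D} (h : M.vert (M.α d) = none) : M.vert (M.α (M.nx d)) = none := by
  unfold nx
  rw [M.αα, M.vert_σ, h]

theorem nx_nx {d : M.D} (h : M.vert (M.α d) = none) : M.nx (M.nx d) = M.rev d := by
  rw [M.rev_cr h]
  unfold nx
  rw [M.αα]

theorem cr_pv {d : M.D} (h : M.vert (M.α d) = none) : M.vert (M.α (M.pv d)) = none := by
  unfold pv
  rw [M.αα, M.vert_σ, M.vert_σ, M.vert_σ, h]

theorem cr_rev {d : M.D} (h : M.vert (M.α d) = none) : M.vert (M.α (M.rev d)) = none := by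
  rw [M.rev_cr h, M.αα, M.vert_σ, M.vert_σ, h]

theorem nx_pv {d : M.D} (h : M.vert (M.α d) = none) : M.nx (M.pv d) = d := by
  unfold nx pv
  rw [M.αα, M.mid4 _ h, M.αα]

theorem pv_nx {d : M.D} (h : M.vert (M.α d) = none) : M.pv (M.nx d) = d := by
  unfold nx pv
  rw [M.αα, M.mid4 _ h, M.αα]

theorem nx_rev {d : M.D} (h : M.vert (M.α d) = none) : M.nx (M.rev d) = M.pv d := by
  rw [M.rev_cr h]
  unfold nx pv
  rw [M.αα]

theorem rev_nx {d : M.D} (h : M.vert (M.α d) = none) : M.rev (M.nx d) = M.pv d := by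
  rw [← M.nx_nx (M.cr_nx h), M.nx_nx h, M.nx_rev h]

theorem rev_pv {d : M.D} (h : M.vert (M.α d) = none) : M.rev (M.pv d) = M.nx d := by
  rw [← M.rev_nx h, M.rev_rev (M.start_of_cr (M.cr_nx h))]

theorem vert_nx_ne {d : M.D} (h : M.vert (M.α d) = none) : M.vert (M.nx d) ≠ M.vert d := by
  have := M.mid_ne _ h
  rwa [M.αα] at this

section Kept

variable (S : W → Prop)

/-- Darts of the kept edges at vertices: both ends of the edge lie in `S`. -/
def ks (d : M.D) : Prop :=
  (∃ u, M.vert d = some u ∧ S u) ∧ (∃ w, M.vert (M.rev d) = some w ∧ S w)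

/-- Darts of the kept edges. -/
def kp (d : M.D) : Prop := M.ks S d ∨ (M.vert d = none ∧ M.ks S (M.α d))

variable {S}

theorem ks_start {d : M.D} (h : M.ks S d) : M.vert d ≠ none := by
  obtain ⟨⟨u, hu, _⟩, _⟩ := h
  rw [hu]
  simp

theorem ks_rev {d : M.D} (h : M.ks S d) : M.ks S (M.rev d) := by
  have hs := M.ks_start h
  obtain ⟨⟨u, hu, hu'⟩, ⟨w, hw, hw'⟩⟩ := h
  refine ⟨⟨w, hw, hw'⟩, ⟨u, ?_, hu'⟩⟩
  rw [M.rev_rev hs, hu]

theorem ks_rev_iff {d : M.D} (hd : M.vert d ≠ none) : M.ks S (M.rev d) ↔ M.ks S d := by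
  constructor
  · intro h
    have := M.ks_rev h
    rwa [M.rev_rev hd] at this
  · exact M.ks_rev

theorem kp_iff_of_start {d : M.D} (hd : M.vert d ≠ none) : M.kp S d ↔ M.ks S d := by
  constructor
  · rintro (h | h)
    · exact h
    · exact absurd h.1 hd
  · exact Or.inl

theorem kp_iff_of_mid {d : M.D} (hd : M.vert d = none) : M.kp S d ↔ M.ks S (M.α d) := by
  constructor
  · rintro (h | h)
    · exact absurd hd (M.ks_start h)
    · exact h.2
  · exact fun h => Or.inr ⟨hd, h⟩

theorem kp_α {d : M.D} (h : M.kp S d) : M.kp S (M.α d) := by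
  rcases h with h | h
  · by_cases h' : M.vert (M.α d) = none
    · right
      rw [M.αα]
      exact ⟨h', h⟩
    · left
      rw [← M.rev_unc h']
      exact M.ks_rev h
  · exact Or.inl h.2

variable (S)

/-- The relation on faces generating the regions of the kept part. -/
def frel (x y : M.F) : Prop := ∃ d, ¬ M.kp S d ∧ x = M.f d ∧ y = M.f (M.α d)

/-- The region to which a dart belongs. -/
def reg (d : M.D) : Quot (M.frel S) := Quot.mk _ (M.f d)

variable {S}

theorem reg_σ (d : M.D) : M.reg S (M.σ d) = M.reg S (M.α d) := by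
  unfold reg
  rw [M.fσ']

theorem reg_α {d : M.D} (h : ¬ M.kp S d) : M.reg S (M.α d) = M.reg S d :=
  (Quot.sound ⟨d, h, rfl, rfl⟩).symm

theorem reg_σ_of_not {d : M.D} (hd : M.vert d ≠ none) (h : ¬ M.ks S d) :
    M.reg S (M.σ d) = M.reg S d := by
  rw [M.reg_σ, M.reg_α (fun h' => h ((M.kp_iff_of_start hd).mp h'))]

/-- The dart which follows a kept dart along the boundary of its region. -/
noncomputable def nxt (S : W → Prop) (d : M.D) : M.D :=
  if M.vert (M.α d) = none ∧ M.ks S (M.nx d) then M.nx d else M.rev d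

/-- Kept darts whose edge is crossed by a kept edge. -/
def Cr (S : W → Prop) (d : M.D) : Prop :=
  M.ks S d ∧ M.vert (M.α d) = none ∧ M.ks S (M.nx d)

theorem nxt_cr {d : M.D} (h : M.Cr S d) : M.nxt S d = M.nx d := if_pos h.2

theorem nxt_unc {d : M.D} (hd : M.ks S d) (h : ¬ M.Cr S d) : M.nxt S d = M.rev d :=
  if_neg fun h' => h ⟨hd, h'⟩

theorem Cr_nx {d : M.D} (h : M.Cr S d) : M.Cr S (M.nx d) := by
  refine ⟨h.2.2, M.cr_nx h.2.1, ?_⟩
  rw [M.nx_nx h.2.1]
  exact M.ks_rev h.1

theorem Cr_rev {d : M.D} (h : M.Cr S d) : M.Cr S (M.rev d) := by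
  rw [← M.nx_nx h.2.1]
  exact M.Cr_nx (M.Cr_nx h)

theorem Cr_pv {d : M.D} (h : M.Cr S d) : M.Cr S (M.pv d) := by
  rw [← M.nx_rev h.2.1]
  exact M.Cr_nx (M.Cr_rev h)

theorem Cr_rev_iff {d : M.D} (hd : M.vert d ≠ none) : M.Cr S (M.rev d) ↔ M.Cr S d := by
  constructor
  · intro h
    have := M.Cr_rev h
    rwa [M.rev_rev hd] at this
  · exact M.Cr_rev

theorem ks_nxt {d : M.D} (h : M.ks S d) : M.ks S (M.nxt S d) := by
  by_cases hC : M.Cr S d
  · rw [M.nxt_cr hC]
    exact hC.2.2
  · rw [M.nxt_unc h hC]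
    exact M.ks_rev h

theorem vert_nxt_ne {d : M.D} (h : M.ks S d) : M.vert (M.nxt S d) ≠ M.vert d := by
  by_cases hC : M.Cr S d
  · rw [M.nxt_cr hC]
    exact M.vert_nx_ne hC.2.1
  · rw [M.nxt_unc h hC]
    exact M.vert_rev_ne_vert (M.ks_start h)

theorem reg_nxt {d : M.D} (h : M.ks S d) : M.reg S (M.σ (M.nxt S d)) = M.reg S d := by
  by_cases hC : M.Cr S d
  · rw [M.nxt_cr hC, M.reg_σ]
    unfold nx
    rw [M.αα, M.reg_σ, M.αα]
  · rw [M.nxt_unc h hC, M.reg_σ]
    by_cases hc : M.vert (M.α d) = none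
    · have hn : ¬ M.ks S (M.nx d) := fun h' => hC ⟨h, hc, h'⟩
      rw [M.rev_cr hc, M.αα, M.reg_σ, M.reg_α, M.reg_σ, M.αα]
      rw [M.kp_iff_of_mid (by rw [M.vert_σ, hc])]
      exact hn
    · rw [M.rev_unc hc, M.αα]

/-- The first kept dart after a given dart at a vertex. -/
theorem next_kept {d₀ z : M.D} (hz : M.ks S z) (hne : z ≠ d₀) (hv : M.vert z = M.vert d₀) :
    ∃ z', M.ks S z' ∧ z' ≠ d₀ ∧ M.vert z' = M.vert d₀ ∧ M.reg S z' = M.reg S (M.σ d₀) := by
  have hd₀ : M.vert d₀ ≠ none := by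
    rw [← hv]
    exact M.ks_start hz
  obtain ⟨i, hi⟩ := (M.cyc d₀ z hd₀ hv).exists_nat_pow_eq
  have key : ∀ i : ℕ, ∀ d : M.D, M.vert d = M.vert d₀ → M.reg S (M.σ d) = M.reg S (M.σ d₀) →
      (d = d₀ ∨ ¬ M.ks S d) → (M.σ ^ i) d = z →
      ∃ z', M.ks S z' ∧ z' ≠ d₀ ∧ M.vert z' = M.vert d₀ ∧ M.reg S z' = M.reg S (M.σ d₀) := by
    intro i
    induction i with
    | zero =>
      intro d _ _ h1 h2
      rw [pow_zero, Equiv.Perm.one_apply] at h2
      subst h2
      rcases h1 with h1 | h1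
      · exact absurd h1 hne
      · exact absurd hz h1
    | succ i ih =>
      intro d hd hreg _ h2
      rw [pow_succ, Equiv.Perm.mul_apply] at h2
      have hv' : M.vert (M.σ d) = M.vert d₀ := by rw [M.vert_σ, hd]
      by_cases h0 : M.σ d = d₀
      · exact ih (M.σ d) hv' (by rw [h0]) (Or.inl h0) h2
      · by_cases hk : M.ks S (M.σ d)
        · exact ⟨M.σ d, hk, h0, hv', hreg⟩
        · refine ih (M.σ d) hv' ?_ (Or.inr hk) h2
          rw [M.reg_σ_of_not (by rw [hv']; exact hd₀) hk, hreg]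
  exact key i d₀ rfl rfl (Or.inl rfl) hi

end Kept

end Draw

end Pool.Agent.R31.OnePlane
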