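import Mathlib
import Pool.Agent.R31.OnePlane

/-!
# Euler's inequality for the kept part of a drawing
-/

set_option autoImplicit false

namespace Pool.Agent.R31.OnePlane

set_option linter.unusedSectionVars false

namespace Draw

open scoped Classical

variable {W : Type} {H : SimpleGraph W} (M : Draw H) (S : W → Prop)

/-- The kept darts at vertices. -/
noncomputable def Z : Finset M.D := Finset.univ.filter (fun d => M.ks S d)

/-- The kept darts at vertices whose edge is crossed by a kept edge. -/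
noncomputable def Cs : Finset M.D := Finset.univ.filter (fun d => M.Cr S d)

/-- All the kept darts. -/
noncomputable def K : Finset M.D := Finset.univ.filter (fun d => M.kp S d)

/-- The kept darts at crossings of two kept edges. -/
noncomputable def MC : Finset M.D :=
  Finset.univ.filter (fun d => M.vert d = none ∧ M.ks S (M.α d) ∧ M.ks S (M.α (M.σ d)))

/-- The kept darts at crossings of a kept edge with another edge. -/
noncomputable def MU : Finset M.D :=
  Finset.univ.filter (fun d => M.vert d = none ∧ M.ks S (M.α d) ∧ ¬ M.ks S (M.α (M.σ d)))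

/-- The number of vertices with a kept dart. -/
noncomputable def nv : ℕ := ((M.Z S).image M.vert).card

/-- The regions of the kept part. -/
noncomputable def T : Finset (Quot (M.frel S)) := (M.Z S).image (M.reg S)

variable {S}

theorem mem_Z {d : M.D} : d ∈ M.Z S ↔ M.ks S d := by
  unfold Z
  rw [Finset.mem_filter]
  exact ⟨fun h => h.2, fun h => ⟨Finset.mem_univ _, h⟩⟩

theorem mem_Cs {d : M.D} : d ∈ M.Cs S ↔ M.Cr S d := by
  unfold Cs
  rw [Finset.mem_filter]
  exact ⟨fun h => h.2, fun h => ⟨Finset.mem_univ _, h⟩⟩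

theorem mem_K {d : M.D} : d ∈ M.K S ↔ M.kp S d := by
  unfold K
  rw [Finset.mem_filter]
  exact ⟨fun h => h.2, fun h => ⟨Finset.mem_univ _, h⟩⟩

theorem mem_MC {d : M.D} : d ∈ M.MC S ↔
    M.vert d = none ∧ M.ks S (M.α d) ∧ M.ks S (M.α (M.σ d)) := by
  unfold MC
  rw [Finset.mem_filter]
  exact ⟨fun h => h.2, fun h => ⟨Finset.mem_univ _, h⟩⟩

theorem mem_MU {d : M.D} : d ∈ M.MU S ↔
    M.vert d = none ∧ M.ks S (M.α d) ∧ ¬ M.ks S (M.α (M.σ d)) := by
  unfold MU
  rw [Finset.mem_filter]
  exact ⟨fun h => h.2, fun h => ⟨Finset.mem_univ _, h⟩⟩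

theorem ks_opposite {m : M.D} (hm : M.vert m = none) :
    M.ks S (M.α (M.σ (M.σ m))) ↔ M.ks S (M.α m) := by
  have h1 : M.rev (M.α m) = M.α (M.σ (M.σ m)) := by
    rw [M.rev_cr (by rw [M.αα]; exact hm), M.αα]
  rw [← h1]
  exact M.ks_rev_iff (M.midα m hm)

theorem MC_σ {m : M.D} (h : m ∈ M.MC S) : M.σ m ∈ M.MC S := by
  rw [mem_MC] at h ⊢
  refine ⟨by rw [M.vert_σ, h.1], h.2.2, ?_⟩
  rw [M.ks_opposite h.1]
  exact h.2.1

theorem MU_σσ {m : M.D} (h : m ∈ M.MU S) : M.σ (M.σ m) ∈ M.MU S := by
  rw [mem_MU] at h ⊢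
  refine ⟨by rw [M.vert_σ, M.vert_σ, h.1], ?_, ?_⟩
  · rw [M.ks_opposite h.1]
    exact h.2.1
  · rw [M.ks_opposite (by rw [M.vert_σ, h.1])]
    exact h.2.2

theorem K_eq : M.K S = M.Z S ∪ (M.MC S ∪ M.MU S) := by
  ext d
  rw [Finset.mem_union, Finset.mem_union, mem_K, mem_Z, mem_MC, mem_MU]
  unfold kp
  tauto

theorem card_K : (M.K S).card = (M.Z S).card + ((M.MC S).card + (M.MU S).card) := by
  rw [K_eq, Finset.card_union_of_disjoint, Finset.card_union_of_disjoint]
  · rw [Finset.disjoint_left]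
    intro d h1 h2
    rw [mem_MC] at h1
    rw [mem_MU] at h2
    exact h2.2.2 h1.2.2
  · rw [Finset.disjoint_left]
    intro d h1 h2
    rw [mem_Z] at h1
    rw [Finset.mem_union, mem_MC, mem_MU] at h2
    rcases h2 with h2 | h2
    · exact M.ks_start h1 h2.1
    · exact M.ks_start h1 h2.1

theorem card_MC : (M.MC S).card = (M.Cs S).card := by
  refine Finset.card_bij' (fun d _ => M.α d) (fun d _ => M.α d) ?_ ?_ ?_ ?_
  · intro d hd
    rw [mem_MC] at hd
    rw [mem_Cs]
    refine ⟨hd.2.1, by rw [M.αα]; exact hd.1, ?_⟩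
    unfold nx
    rw [M.αα]
    exact hd.2.2
  · intro d hd
    rw [mem_Cs] at hd
    rw [mem_MC]
    exact ⟨hd.2.1, by rw [M.αα]; exact hd.1, hd.2.2⟩
  · intro d _
    exact M.αα d
  · intro d _
    exact M.αα d

theorem MC_image : 4 * ((M.MC S).image M.v).card ≤ (M.MC S).card := by
  apply Finset.mul_card_image_le_card
  intro b hb
  obtain ⟨m, hm, rfl⟩ := Finset.mem_image.mp hb
  have hm0 := (M.mem_MC.mp hm).1
  have h1 := M.MC_σ hm
  have h2 := M.MC_σ h1
  have h3 := M.MC_σ h2
  have d2 := M.mid2 m hm0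
  have d4 := M.mid4 m hm0
  have d1 : M.σ m ≠ m := fun h => d2 (by rw [h, h])
  have d3 : M.σ (M.σ (M.σ m)) ≠ m := by
    intro h
    apply d1
    have := congrArg M.σ h
    rw [d4] at this
    exact this.symm
  have hcard : ({m, M.σ m, M.σ (M.σ m), M.σ (M.σ (M.σ m))} : Finset M.D).card = 4 := by
    rw [Finset.card_insert_of_notMem, Finset.card_insert_of_notMem,
      Finset.card_insert_of_notMem, Finset.card_singleton]
    · rw [Finset.mem_singleton]
      intro h
      exact d1 ((M.σ.injective (M.σ.injective h)).symm)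
    · rw [Finset.mem_insert, Finset.mem_singleton]
      rintro (h | h)
      · exact d1 ((M.σ.injective h).symm)
      · exact d2 ((M.σ.injective h).symm)
    · rw [Finset.mem_insert, Finset.mem_insert, Finset.mem_singleton]
      rintro (h | h | h)
      · exact d1 h.symm
      · exact d2 h.symm
      · exact d3 h.symm
  rw [← hcard]
  apply Finset.card_le_card
  intro d hd
  rw [Finset.mem_insert, Finset.mem_insert, Finset.mem_insert, Finset.mem_singleton] at hd
  rw [Finset.mem_filter]
  rcases hd with rfl | rfl | rfl | rfl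
  · exact ⟨hm, rfl⟩
  · exact ⟨h1, by rw [M.vσ]⟩
  · exact ⟨h2, by rw [M.vσ, M.vσ]⟩
  · exact ⟨h3, by rw [M.vσ, M.vσ, M.vσ]⟩

theorem MU_image : 2 * ((M.MU S).image M.v).card ≤ (M.MU S).card := by
  apply Finset.mul_card_image_le_card
  intro b hb
  obtain ⟨m, hm, rfl⟩ := Finset.mem_image.mp hb
  have hm0 := (M.mem_MU.mp hm).1
  have h1 := M.MU_σσ hm
  have d2 := M.mid2 m hm0
  have hcard : ({m, M.σ (M.σ m)} : Finset M.D).card = 2 := by
    rw [Finset.card_insert_of_notMem, Finset.card_singleton]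
    rw [Finset.mem_singleton]
    exact fun h => d2 h.symm
  rw [← hcard]
  apply Finset.card_le_card
  intro d hd
  rw [Finset.mem_insert, Finset.mem_singleton] at hd
  rw [Finset.mem_filter]
  rcases hd with rfl | rfl
  · exact ⟨hm, rfl⟩
  · exact ⟨h1, by rw [M.vσ, M.vσ]⟩

theorem Z_image : ((M.Z S).image M.v).card ≤ ((M.Z S).image M.vert).card := by
  by_cases hne : (M.Z S).Nonempty
  · obtain ⟨d₀, _⟩ := hne
    let g : Option W → M.V := fun o =>
      if h : ∃ d, d ∈ M.Z S ∧ M.vert d = o then M.v h.choose else M.v d₀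
    have hg : ∀ d ∈ M.Z S, g (M.vert d) = M.v d := by
      intro d hd
      have h : ∃ d', d' ∈ M.Z S ∧ M.vert d' = M.vert d := ⟨d, hd, rfl⟩
      have h1 : g (M.vert d) = M.v h.choose := dif_pos h
      rw [h1]
      have h2 := h.choose_spec
      obtain ⟨i, hi⟩ := (M.cyc d h.choose (M.ks_start (M.mem_Z.mp hd)) h2.2).exists_nat_pow_eq
      rw [← hi]
      clear h1 h2 hi
      induction i with
      | zero => rfl
      | succ i ih => rw [pow_succ', Equiv.Perm.mul_apply, M.vσ, ih]
    have hsub : (M.Z S).image M.v ⊆ ((M.Z S).image M.vert).image g := by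
      intro x hx
      obtain ⟨d, hd, rfl⟩ := Finset.mem_image.mp hx
      rw [← hg d hd]
      exact Finset.mem_image_of_mem g (Finset.mem_image_of_mem M.vert hd)
    exact (Finset.card_le_card hsub).trans Finset.card_image_le
  · rw [Finset.not_nonempty_iff_eq_empty.mp hne]
    simp

theorem reg_K_mem {d : M.D} (hd : M.kp S d) : M.reg S d ∈ M.T S := by
  have hZ : ∀ e, M.ks S e → M.reg S e ∈ M.T S := fun e he =>
    Finset.mem_image_of_mem _ (M.mem_Z.mpr he)
  rcases hd with hd | ⟨hd, hk⟩
  · exact hZ d hd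
  · -- a crossing dart
    have hpd : M.vert (M.σ.symm d) = none := by
      rw [← M.vert_σ, Equiv.apply_symm_apply, hd]
    have hppd : M.vert (M.σ.symm (M.σ.symm d)) = none := by
      rw [← M.vert_σ, Equiv.apply_symm_apply, hpd]
    have e1 : M.reg S d = M.reg S (M.α (M.σ.symm d)) := by
      rw [← M.reg_σ, Equiv.apply_symm_apply]
    by_cases h : M.ks S (M.α (M.σ.symm d))
    · rw [e1]
      exact hZ _ h
    · have h' : ¬ M.kp S (M.σ.symm d) := by
        rw [M.kp_iff_of_mid hpd]
        exact h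
      rw [e1, M.reg_α h']
      have e2 : M.reg S (M.σ.symm d) = M.reg S (M.α (M.σ.symm (M.σ.symm d))) := by
        rw [← M.reg_σ, Equiv.apply_symm_apply]
      rw [e2]
      apply hZ
      rw [← M.ks_opposite hppd, Equiv.apply_symm_apply, Equiv.apply_symm_apply]
      exact hk

/-- Euler's inequality for the kept part. -/
theorem euler_kept (hne : (M.Z S).Nonempty) :
    2 * (M.Z S).card + (M.Cs S).card + 8 ≤
      4 * M.nv S + 4 * (M.T S).card := by
  have h1 := MapEuler.sub_euler M.α M.v M.f M.αα M.α_ne M.exact (M.K S)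
    (by
      obtain ⟨d, hd⟩ := hne
      exact ⟨d, M.mem_K.mpr (Or.inl (M.mem_Z.mp hd))⟩)
    (fun d hd => M.mem_K.mpr (M.kp_α (M.mem_K.mp hd))) (M.reg S)
    (by
      intro x hx d _ e _ hde
      have hlift : ∀ a b, M.frel S a b → x a = x b := by
        rintro a b ⟨d, hd, rfl, rfl⟩
        exact hx d (fun h => hd (M.mem_K.mp h))
      have := congrArg (Quot.lift x hlift) hde
      exact this)
  have h2 : ((M.K S).image (M.reg S)).card ≤ (M.T S).card := by
    apply Finset.card_le_card
    intro t ht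
    obtain ⟨d, hd, rfl⟩ := Finset.mem_image.mp ht
    exact M.reg_K_mem (M.mem_K.mp hd)
  have h3 : ((M.K S).image M.v).card ≤ ((M.Z S).image M.v).card +
      (((M.MC S).image M.v).card + ((M.MU S).image M.v).card) := by
    rw [M.K_eq, Finset.image_union, Finset.image_union]
    exact (Finset.card_union_le _ _).trans (Nat.add_le_add_left (Finset.card_union_le _ _) _)
  have h4 := M.card_K (S := S)
  have h5 := M.card_MC (S := S)
  have h6 := M.MC_image (S := S)
  have h7 := M.MU_image (S := S)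
  have h8 := M.Z_image (S := S)
  unfold nv
  omega

/-- A bound for the number of vertices with a kept dart. -/
theorem nv_le (B : Finset W) (hB : ∀ d u, M.ks S d → M.vert d = some u → u ∈ B) :
    M.nv S ≤ B.card := by
  unfold nv
  have hsub : (M.Z S).image M.vert ⊆ B.image some := by
    intro x hx
    obtain ⟨d, hd, rfl⟩ := Finset.mem_image.mp hx
    have hk := M.mem_Z.mp hd
    obtain ⟨u, hu⟩ := Option.ne_none_iff_exists'.mp (M.ks_start hk)
    rw [hu]
    exact Finset.mem_image_of_mem some (hB d u hk hu)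
  exact (Finset.card_le_card hsub).trans Finset.card_image_le

/-- The kept darts at vertices correspond to the ordered pairs of adjacent kept vertices. -/
theorem card_Z (B : Finset (W × W)) (hB : ∀ p : W × W, p ∈ B ↔ S p.1 ∧ S p.2 ∧ H.Adj p.1 p.2) :
    (M.Z S).card = B.card := by
  let g : M.D → Option W × Option W := fun d => (M.vert d, M.vert (M.rev d))
  have h1 : ((M.Z S).image g).card = (M.Z S).card := by
    apply Finset.card_image_of_injOn
    intro d hd e he hde
    rw [Finset.mem_coe, mem_Z] at hd he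
    have h1 : M.vert d = M.vert e := congrArg Prod.fst hde
    have h2 : M.vert (M.rev d) = M.vert (M.rev e) := congrArg Prod.snd hde
    exact M.unique e d (M.ks_start he) h1 h2
  have h2 : (B.image (fun p => (some p.1, some p.2))).card = B.card := by
    apply Finset.card_image_of_injective
    rintro ⟨a, b⟩ ⟨c, d⟩ h
    simp only [Prod.mk.injEq, Option.some.injEq] at h
    rw [h.1, h.2]
  rw [← h1, ← h2]
  congr 1
  ext ⟨x, y⟩
  rw [Finset.mem_image, Finset.mem_image]
  constructor
  · rintro ⟨d, hd, he⟩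
    obtain ⟨⟨u, hu, hSu⟩, ⟨w, hw, hSw⟩⟩ := M.mem_Z.mp hd
    refine ⟨(u, w), (hB _).mpr ⟨hSu, hSw, M.adj_rev hu hw⟩, ?_⟩
    rw [← he]
    change (some u, some w) = (M.vert d, M.vert (M.rev d))
    rw [hu, hw]
  · rintro ⟨⟨u, w⟩, hp, he⟩
    obtain ⟨hSu, hSw, hadj⟩ := (hB _).mp hp
    obtain ⟨d, hd1, hd2⟩ := (M.adj_iff _ _).mp hadj
    refine ⟨d, M.mem_Z.mpr ⟨⟨u, hd1, hSu⟩, ⟨w, hd2, hSw⟩⟩, ?_⟩
    rw [← he]
    change (M.vert d, M.vert (M.rev d)) = (some u, some w)
    rw [hd1]
    exact congrArg (fun t => (some u, t)) hd2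

end Draw

end Pool.Agent.R31.OnePlane
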