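import Mathlib
import Pool.Agent.R31.OnePlaneCount

/-!
# Drawings of blow-ups
-/

set_option autoImplicit false

namespace Pool.Agent.R31.OnePlane

set_option linter.unusedSectionVars false

namespace Draw

open scoped Classical

variable {V : Type} {G : SimpleGraph V} {H : SimpleGraph (V × Fin 2)} (M : Draw H)
  (A : V → Prop)

/-- The kept vertices of the blow-up. -/
def SA (A : V → Prop) : V × Fin 2 → Prop := fun p => A p.1

theorem other_kept (hH : ∀ p q, H.Adj p q ↔ G.Adj p.1 q.1) {d : M.D} (hd : M.ks (SA A) d) :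
    ∃ d', M.ks (SA A) d' ∧ d' ≠ d ∧ M.vert d' = M.vert d := by
  obtain ⟨⟨u, hu, hu'⟩, ⟨w, hw, hw'⟩⟩ := hd
  have hadj := M.adj_rev hu hw
  rw [hH] at hadj
  have h2 : H.Adj u (w.1, w.2 + 1) := by rw [hH]; exact hadj
  obtain ⟨d', hd1, hd2⟩ := (M.adj_iff _ _).mp h2
  refine ⟨d', ⟨⟨u, hd1, hu'⟩, ⟨_, hd2, hw'⟩⟩, ?_, by rw [hd1, hu]⟩
  rintro rfl
  change M.vert (M.rev d') = _ at hd2
  rw [hw] at hd2
  have h3 : w.2 = w.2 + 1 := congrArg Prod.snd (Option.some.inj hd2)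
  have h4 : ∀ x : Fin 2, x ≠ x + 1 := by decide
  exact h4 _ h3

theorem next (hH : ∀ p q, H.Adj p q ↔ G.Adj p.1 q.1) {z : M.D} (hz : M.ks (SA A) z) :
    ∃ z', M.ks (SA A) z' ∧ z' ≠ M.nxt (SA A) z ∧ M.vert z' = M.vert (M.nxt (SA A) z) ∧
      M.reg (SA A) z' = M.reg (SA A) z := by
  obtain ⟨y, hy, hyne, hyv⟩ := M.other_kept A hH (M.ks_nxt hz)
  obtain ⟨z', h1, h2, h3, h4⟩ := M.next_kept hy hyne hyv
  exact ⟨z', h1, h2, h3, by rw [h4, M.reg_nxt hz]⟩

/-- The number of kept darts at vertices in a region. -/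
noncomputable def o (S : V × Fin 2 → Prop) (t : Quot (M.frel S)) : ℕ :=
  ((M.Z S).filter (fun d => M.reg S d = t)).card

/-- The number of crossed kept darts at vertices in a region. -/
noncomputable def k (S : V × Fin 2 → Prop) (t : Quot (M.frel S)) : ℕ :=
  ((M.Cs S).filter (fun d => M.reg S d = t)).card

theorem k_le_o (S : V × Fin 2 → Prop) (t : Quot (M.frel S)) : M.k S t ≤ M.o S t := by
  apply Finset.card_le_card
  intro d hd
  rw [Finset.mem_filter, mem_Cs] at hd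
  rw [Finset.mem_filter, mem_Z]
  exact ⟨hd.1.1, hd.2⟩

theorem two_le_o (hH : ∀ p q, H.Adj p q ↔ G.Adj p.1 q.1) {t : Quot (M.frel (SA A))}
    (ht : t ∈ M.T (SA A)) : 2 ≤ M.o (SA A) t := by
  obtain ⟨z, hz, rfl⟩ := Finset.mem_image.mp ht
  rw [mem_Z] at hz
  obtain ⟨z', h1, _, h3, h4⟩ := M.next A hH hz
  have hne : z ≠ z' := by
    rintro rfl
    exact M.vert_nxt_ne hz h3.symm
  have hcard : ({z, z'} : Finset M.D).card = 2 := Finset.card_pair hne
  refine hcard.ge.trans (Finset.card_le_card ?_)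
  intro d hd
  rw [Finset.mem_insert, Finset.mem_singleton] at hd
  rw [Finset.mem_filter, mem_Z]
  rcases hd with rfl | rfl
  · exact ⟨hz, rfl⟩
  · exact ⟨h1, h4⟩

/-- If a region has exactly two kept darts, these are any two distinct ones. -/
theorem pair_of_o {S : V × Fin 2 → Prop} {t : Quot (M.frel S)} (ho : M.o S t = 2) {z z' : M.D}
    (hz : M.ks S z) (hz' : M.ks S z') (hr : M.reg S z = t) (hr' : M.reg S z' = t)
    (hne : z ≠ z') : ∀ y, M.ks S y → M.reg S y = t → y = z ∨ y = z' := by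
  intro y hy hyt
  have hsub : ({z, z'} : Finset M.D) ⊆ (M.Z S).filter (fun d => M.reg S d = t) := by
    intro d hd
    rw [Finset.mem_insert, Finset.mem_singleton] at hd
    rw [Finset.mem_filter, mem_Z]
    rcases hd with rfl | rfl
    · exact ⟨hz, hr⟩
    · exact ⟨hz', hr'⟩
  have heq := Finset.eq_of_subset_of_card_le hsub (by
    rw [Finset.card_pair hne]
    exact ho.le)
  have : y ∈ ({z, z'} : Finset M.D) := by
    rw [heq, Finset.mem_filter, mem_Z]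
    exact ⟨hy, hyt⟩
  rwa [Finset.mem_insert, Finset.mem_singleton] at this

theorem three_le (hH : ∀ p q, H.Adj p q ↔ G.Adj p.1 q.1) {t : Quot (M.frel (SA A))}
    (ht : t ∈ M.T (SA A)) : 3 ≤ M.o (SA A) t + M.k (SA A) t := by
  have h2 := M.two_le_o A hH ht
  by_contra hlt
  have ho : M.o (SA A) t = 2 := by omega
  have hk : M.k (SA A) t = 0 := by omega
  have hC : ∀ z, M.ks (SA A) z → M.reg (SA A) z = t → ¬ M.Cr (SA A) z := by
    intro z _ hzt hCz
    have : z ∈ (M.Cs (SA A)).filter (fun d => M.reg (SA A) d = t) := by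
      rw [Finset.mem_filter, mem_Cs]
      exact ⟨hCz, hzt⟩
    rw [Finset.card_eq_zero.mp hk] at this
    exact absurd this (Finset.notMem_empty _)
  obtain ⟨z, hz, hzt⟩ := Finset.mem_image.mp ht
  rw [mem_Z] at hz
  obtain ⟨z', h1, h2', h3, h4⟩ := M.next A hH hz
  have hzt' : M.reg (SA A) z' = t := by rw [h4, hzt]
  have hne : z ≠ z' := by
    rintro rfl
    exact M.vert_nxt_ne hz h3.symm
  obtain ⟨z'', h5, _, h7, h8⟩ := M.next A hH h1
  have hpair := M.pair_of_o ho hz h1 hzt hzt' hne z'' h5 (by rw [h8, hzt'])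
  have hz'' : z'' = z := by
    rcases hpair with h | h
    · exact h
    · exfalso
      rw [h] at h7
      exact M.vert_nxt_ne h1 h7.symm
  rw [hz'', M.nxt_unc h1 (hC z' h1 hzt')] at h7
  rw [M.nxt_unc hz (hC z hz hzt)] at h2' h3
  apply h2'
  apply M.unique _ _ M.vert_rev_ne h3
  change M.vert (M.rev z') = M.vert (M.rev (M.rev z))
  rw [M.rev_rev (M.ks_start hz), h7]

/-- The structure of a region with two kept darts, one of them crossed. -/
theorem good_region (hH : ∀ p q, H.Adj p q ↔ G.Adj p.1 q.1) {t : Quot (M.frel (SA A))}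
    (ho : M.o (SA A) t = 2) (hk : M.k (SA A) t = 1) :
    ∃ z z', M.Cr (SA A) z ∧ M.ks (SA A) z' ∧ ¬ M.Cr (SA A) z' ∧ M.reg (SA A) z = t ∧
      M.reg (SA A) z' = t ∧ M.vert z' = M.vert (M.nx z) ∧ M.vert z = M.vert (M.rev z') ∧
      ∀ y, M.ks (SA A) y → M.reg (SA A) y = t → y = z ∨ y = z' := by
  obtain ⟨z, hz⟩ := Finset.card_eq_one.mp hk
  have hz1 : z ∈ (M.Cs (SA A)).filter (fun d => M.reg (SA A) d = t) := by
    rw [hz]
    exact Finset.mem_singleton_self z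
  rw [Finset.mem_filter, mem_Cs] at hz1
  obtain ⟨hCz, hzt⟩ := hz1
  obtain ⟨z', h1, _, h3, h4⟩ := M.next A hH hCz.1
  have hzt' : M.reg (SA A) z' = t := by rw [h4, hzt]
  have hne : z ≠ z' := by
    rintro rfl
    exact M.vert_nxt_ne hCz.1 h3.symm
  have hpair := M.pair_of_o ho hCz.1 h1 hzt hzt' hne
  have hC' : ¬ M.Cr (SA A) z' := by
    intro hC'
    have : z' ∈ (M.Cs (SA A)).filter (fun d => M.reg (SA A) d = t) := by
      rw [Finset.mem_filter, mem_Cs]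
      exact ⟨hC', hzt'⟩
    rw [hz, Finset.mem_singleton] at this
    exact hne this.symm
  obtain ⟨z'', h5, _, h7, h8⟩ := M.next A hH h1
  have hz'' : z'' = z := by
    rcases hpair z'' h5 (by rw [h8, hzt']) with h | h
    · exact h
    · exfalso
      rw [h] at h7
      exact M.vert_nxt_ne h1 h7.symm
  rw [hz'', M.nxt_unc h1 hC'] at h7
  rw [M.nxt_cr hCz] at h3
  exact ⟨z, z', hCz, h1, hC', hzt, hzt', h3, h7, hpair⟩

theorem good_adj (hH : ∀ p q, H.Adj p q ↔ G.Adj p.1 q.1) {z : M.D} (hz : M.Cr (SA A) z)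
    (ho : M.o (SA A) (M.reg (SA A) z) = 2) (hk : M.k (SA A) (M.reg (SA A) z) = 1)
    {p q : V × Fin 2} (hp : M.vert z = some p) (hq : M.vert (M.nx z) = some q) :
    H.Adj p q := by
  obtain ⟨y, z', _, _, hC', _, _, h3, h4, hpair⟩ := M.good_region A hH ho hk
  rcases hpair z hz.1 rfl with h | h
  · subst h
    exact (M.adj_rev (h3.trans hq) (h4.symm.trans hp)).symm
  · subst h
    exact absurd hz hC'

theorem card_Z_eq (S : V × Fin 2 → Prop) : (M.Z S).card = ∑ t ∈ M.T S, M.o S t :=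
  Finset.card_eq_sum_card_image (M.reg S) (M.Z S)

theorem reg_mem_T {S : V × Fin 2 → Prop} {z : M.D} (hz : M.ks S z) : M.reg S z ∈ M.T S :=
  Finset.mem_image_of_mem _ (M.mem_Z.mpr hz)

theorem card_Cs_eq (S : V × Fin 2 → Prop) : (M.Cs S).card = ∑ t ∈ M.T S, M.k S t :=
  Finset.card_eq_sum_card_fiberwise (fun _ hz => M.reg_mem_T (M.mem_Cs.mp hz).1)

/-- The indicator of the regions which are not triangles with one crossing corner. -/
noncomputable def bad (S : V × Fin 2 → Prop) (t : Quot (M.frel S)) : ℕ :=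
  if M.o S t = 2 ∧ M.k S t = 1 then 0 else 1

theorem sum_bad (S : V × Fin 2 → Prop) :
    ∑ z ∈ M.Cs S, M.bad S (M.reg S z) = ∑ t ∈ M.T S, M.k S t * M.bad S t := by
  rw [← Finset.sum_fiberwise_of_maps_to (t := M.T S) (g := M.reg S)
    (fun z hz => M.reg_mem_T (M.mem_Cs.mp hz).1)]
  refine Finset.sum_congr rfl fun t _ => ?_
  unfold k
  rw [← smul_eq_mul, ← Finset.sum_const]
  refine Finset.sum_congr rfl fun z hz => ?_
  rw [(Finset.mem_filter.mp hz).2]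

theorem sum_nx (S : V × Fin 2 → Prop) (g : M.D → ℕ) :
    ∑ z ∈ M.Cs S, g (M.nx z) = ∑ z ∈ M.Cs S, g z := by
  refine Finset.sum_bij' (fun z _ => M.nx z) (fun z _ => M.pv z) ?_ ?_ ?_ ?_ ?_
  · intro z hz
    exact M.mem_Cs.mpr (M.Cr_nx (M.mem_Cs.mp hz))
  · intro z hz
    exact M.mem_Cs.mpr (M.Cr_pv (M.mem_Cs.mp hz))
  · intro z hz
    exact M.pv_nx (M.mem_Cs.mp hz).2.1
  · intro z hz
    exact M.nx_pv (M.mem_Cs.mp hz).2.1
  · intro z _
    rfl

theorem sum_orbit (S : V × Fin 2 → Prop) :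
    ∑ z ∈ M.Cs S, (M.bad S (M.reg S z) + M.bad S (M.reg S (M.nx z)) +
      M.bad S (M.reg S (M.rev z)) + M.bad S (M.reg S (M.pv z))) =
      4 * ∑ t ∈ M.T S, M.k S t * M.bad S t := by
  rw [Finset.sum_add_distrib, Finset.sum_add_distrib, Finset.sum_add_distrib]
  have h1 := M.sum_nx S (fun z => M.bad S (M.reg S z))
  have h2 := M.sum_nx S (fun z => M.bad S (M.reg S (M.nx z)))
  have h3 := M.sum_nx S (fun z => M.bad S (M.reg S (M.nx (M.nx z))))
  have e2 : ∑ z ∈ M.Cs S, M.bad S (M.reg S (M.rev z)) =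
      ∑ z ∈ M.Cs S, M.bad S (M.reg S (M.nx (M.nx z))) :=
    Finset.sum_congr rfl fun z hz => by rw [M.nx_nx (M.mem_Cs.mp hz).2.1]
  have e3 : ∑ z ∈ M.Cs S, M.bad S (M.reg S (M.pv z)) =
      ∑ z ∈ M.Cs S, M.bad S (M.reg S (M.nx (M.nx (M.nx z)))) :=
    Finset.sum_congr rfl fun z hz => by
      have hz' := (M.mem_Cs.mp hz).2.1
      rw [M.nx_nx (M.cr_nx hz'), M.rev_nx hz']
  have h0 := M.sum_bad S
  beta_reduce at h1 h2 h3
  omega

/-- No four kept vertices of `G` are pairwise adjacent. -/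
def NoK4 (G : SimpleGraph V) (A : V → Prop) : Prop :=
  ∀ a b c d, A a → A b → A c → A d → G.Adj a b → G.Adj a c → G.Adj a d → G.Adj b c →
    G.Adj b d → G.Adj c d → False

theorem one_le_orbit (hH : ∀ p q, H.Adj p q ↔ G.Adj p.1 q.1) (hK : NoK4 G A) {z : M.D}
    (hz : M.Cr (SA A) z) :
    1 ≤ M.bad (SA A) (M.reg (SA A) z) + M.bad (SA A) (M.reg (SA A) (M.nx z)) +
      M.bad (SA A) (M.reg (SA A) (M.rev z)) + M.bad (SA A) (M.reg (SA A) (M.pv z)) := by
  by_contra hlt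
  have hb : ∀ x, M.bad (SA A) (M.reg (SA A) x) = 0 → M.o (SA A) (M.reg (SA A) x) = 2 ∧
      M.k (SA A) (M.reg (SA A) x) = 1 := by
    intro x hx
    unfold bad at hx
    by_contra h
    rw [if_neg h] at hx
    exact one_ne_zero hx
  have h0 := hb z (by omega)
  have h1 := hb (M.nx z) (by omega)
  have h2 := hb (M.rev z) (by omega)
  have h3 := hb (M.pv z) (by omega)
  have hc := hz.2.1
  obtain ⟨⟨p0, hp0, hA0⟩, ⟨p2, hp2, hA2⟩⟩ := hz.1
  obtain ⟨⟨p1, hp1, hA1⟩, ⟨p3, hp3, hA3⟩⟩ := hz.2.2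
  have a02 := M.adj_rev hp0 hp2
  have a13 := M.adj_rev hp1 hp3
  rw [M.rev_nx hc] at hp3
  have a01 := M.good_adj A hH hz h0.1 h0.2 hp0 hp1
  have a12 := M.good_adj A hH (M.Cr_nx hz) h1.1 h1.2 hp1 (by rw [M.nx_nx hc]; exact hp2)
  have a23 := M.good_adj A hH (M.Cr_rev hz) h2.1 h2.2 hp2 (by rw [M.nx_rev hc]; exact hp3)
  have a30 := M.good_adj A hH (M.Cr_pv hz) h3.1 h3.2 hp3 (by rw [M.nx_pv hc]; exact hp0)
  rw [hH] at a02 a13 a01 a12 a23 a30
  exact hK p0.1 p1.1 p2.1 p3.1 hA0 hA1 hA2 hA3 a01 a02 a30.symm a12 a13 a23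

theorem weight (hH : ∀ p q, H.Adj p q ↔ G.Adj p.1 q.1) {t : Quot (M.frel (SA A))}
    (ht : t ∈ M.T (SA A)) :
    28 + 4 * (M.k (SA A) t * M.bad (SA A) t) ≤ 10 * M.o (SA A) t + 8 * M.k (SA A) t := by
  have h2 := M.two_le_o A hH ht
  have h3 := M.three_le A hH ht
  have h4 := M.k_le_o (SA A) t
  by_cases hg : M.o (SA A) t = 2 ∧ M.k (SA A) t = 1
  · have : M.bad (SA A) t = 0 := if_pos hg
    rw [this]
    omega
  · have : M.bad (SA A) t = 1 := if_neg hg
    rw [this]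
    omega

theorem weight_eq (hH : ∀ p q, H.Adj p q ↔ G.Adj p.1 q.1) {t : Quot (M.frel (SA A))}
    (ht : t ∈ M.T (SA A))
    (heq : 28 + 4 * (M.k (SA A) t * M.bad (SA A) t) =
      10 * M.o (SA A) t + 8 * M.k (SA A) t) : M.o (SA A) t = 2 := by
  have h2 := M.two_le_o A hH ht
  by_cases hg : M.o (SA A) t = 2 ∧ M.k (SA A) t = 1
  · exact hg.1
  · have : M.bad (SA A) t = 1 := if_neg hg
    rw [this] at heq
    omega

/-- The edge bound for a part without `K₄`. -/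
theorem main_ineq (hH : ∀ p q, H.Adj p q ↔ G.Adj p.1 q.1) (hK : NoK4 G A)
    (hne : (M.Z (SA A)).Nonempty) :
    (M.Z (SA A)).card + 14 ≤ 7 * M.nv (SA A) ∧
    ((M.Z (SA A)).card + 14 = 7 * M.nv (SA A) →
      (∀ t ∈ M.T (SA A), M.o (SA A) t = 2) ∧
      (∀ z, M.Cr (SA A) z → M.bad (SA A) (M.reg (SA A) z) +
        M.bad (SA A) (M.reg (SA A) (M.nx z)) +
        M.bad (SA A) (M.reg (SA A) (M.rev z)) + M.bad (SA A) (M.reg (SA A) (M.pv z)) = 1)) := by
  have hE := M.euler_kept hne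
  have hZ := M.card_Z_eq (SA A)
  have hC := M.card_Cs_eq (SA A)
  have hO := M.sum_orbit (SA A)
  have hw := Finset.sum_le_sum (fun t ht => M.weight A hH (t := t) ht)
  have h1 : ∑ z ∈ M.Cs (SA A), 1 ≤ ∑ z ∈ M.Cs (SA A), (M.bad (SA A) (M.reg (SA A) z) +
      M.bad (SA A) (M.reg (SA A) (M.nx z)) +
      M.bad (SA A) (M.reg (SA A) (M.rev z)) + M.bad (SA A) (M.reg (SA A) (M.pv z))) :=
    Finset.sum_le_sum (fun z hz => M.one_le_orbit A hH hK (M.mem_Cs.mp hz))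
  have hone : ∑ z ∈ M.Cs (SA A), 1 = (M.Cs (SA A)).card := by
    rw [Finset.sum_const, smul_eq_mul, mul_one]
  have hl : ∑ t ∈ M.T (SA A), (28 + 4 * (M.k (SA A) t * M.bad (SA A) t)) =
      28 * (M.T (SA A)).card + 4 * ∑ t ∈ M.T (SA A), M.k (SA A) t * M.bad (SA A) t := by
    rw [Finset.sum_add_distrib, Finset.sum_const, smul_eq_mul, Finset.mul_sum, mul_comm]
  have hr : ∑ t ∈ M.T (SA A), (10 * M.o (SA A) t + 8 * M.k (SA A) t) =
      10 * ∑ t ∈ M.T (SA A), M.o (SA A) t + 8 * ∑ t ∈ M.T (SA A), M.k (SA A) t := by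
    rw [Finset.sum_add_distrib, Finset.mul_sum, Finset.mul_sum]
  refine ⟨by omega, fun heq => ⟨?_, ?_⟩⟩
  · have h2 : ∑ t ∈ M.T (SA A), (28 + 4 * (M.k (SA A) t * M.bad (SA A) t)) =
        ∑ t ∈ M.T (SA A), (10 * M.o (SA A) t + 8 * M.k (SA A) t) := by omega
    have h3 := (Finset.sum_eq_sum_iff_of_le (fun t ht => M.weight A hH (t := t) ht)).mp h2
    intro t ht
    exact M.weight_eq A hH ht (h3 t ht)
  · have h2 : ∑ z ∈ M.Cs (SA A), 1 = ∑ z ∈ M.Cs (SA A), (M.bad (SA A) (M.reg (SA A) z) +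
        M.bad (SA A) (M.reg (SA A) (M.nx z)) +
        M.bad (SA A) (M.reg (SA A) (M.rev z)) + M.bad (SA A) (M.reg (SA A) (M.pv z))) := by
      omega
    have h3 := (Finset.sum_eq_sum_iff_of_le
      (fun z hz => M.one_le_orbit A hH hK (M.mem_Cs.mp hz))).mp h2
    intro z hz
    exact (h3 z (M.mem_Cs.mpr hz)).symm

/-- In a kept `K₄` all regions are triangles with one crossing corner. -/
theorem k4_good (hH : ∀ p q, H.Adj p q ↔ G.Adj p.1 q.1) (hnS : (M.Z (SA A)).card = 48)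
    (hN : M.nv (SA A) ≤ 8) {t : Quot (M.frel (SA A))}
    (ht : t ∈ M.T (SA A)) : M.o (SA A) t = 2 ∧ M.k (SA A) t = 1 := by
  have hne : (M.Z (SA A)).Nonempty := by
    rw [← Finset.card_pos, hnS]
    norm_num
  have hE := M.euler_kept hne
  have hZ := M.card_Z_eq (SA A)
  have hC := M.card_Cs_eq (SA A)
  have hs2 := Finset.sum_le_sum (fun t ht => M.two_le_o A hH (t := t) ht)
  have hs3 := Finset.sum_le_sum (fun t ht => M.three_le A hH (t := t) ht)
  have hl2 : ∑ t ∈ M.T (SA A), 2 = 2 * (M.T (SA A)).card := by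
    rw [Finset.sum_const, smul_eq_mul, mul_comm]
  have hl3 : ∑ t ∈ M.T (SA A), 3 = 3 * (M.T (SA A)).card := by
    rw [Finset.sum_const, smul_eq_mul, mul_comm]
  have hr3 : ∑ t ∈ M.T (SA A), (M.o (SA A) t + M.k (SA A) t) =
      ∑ t ∈ M.T (SA A), M.o (SA A) t + ∑ t ∈ M.T (SA A), M.k (SA A) t :=
    Finset.sum_add_distrib
  have e2 : ∑ t ∈ M.T (SA A), 2 = ∑ t ∈ M.T (SA A), M.o (SA A) t := by omega
  have e3 : ∑ t ∈ M.T (SA A), 3 = ∑ t ∈ M.T (SA A), (M.o (SA A) t + M.k (SA A) t) := by omega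
  have f2 := (Finset.sum_eq_sum_iff_of_le (fun t ht => M.two_le_o A hH (t := t) ht)).mp e2 t ht
  have f3 := (Finset.sum_eq_sum_iff_of_le (fun t ht => M.three_le A hH (t := t) ht)).mp e3 t ht
  omega

end Draw

end Pool.Agent.R31.OnePlane
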