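import Mathlib
import Pool.Agent.R31.OnePlaneBlow

/-!
# The edge bound for graphs with a drawn blow-up
-/

set_option autoImplicit false

namespace Pool.Agent.R31.OnePlane

set_option linter.unusedSectionVars false

namespace Draw

open scoped Classical

variable {V : Type} {G : SimpleGraph V} {H : SimpleGraph (V × Fin 2)} (M : Draw H)
  (A : V → Prop)

/-- The partner of an uncrossed dart in a region with one crossing corner. -/
theorem unc_partner (hH : ∀ p q, H.Adj p q ↔ G.Adj p.1 q.1)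
    (hgood : ∀ t ∈ M.T (SA A), M.o (SA A) t = 2 ∧ M.k (SA A) t = 1) {g : M.D}
    (hg : M.ks (SA A) g) (hgC : ¬ M.Cr (SA A) g) :
    ∃ c, M.Cr (SA A) c ∧ M.reg (SA A) c = M.reg (SA A) g ∧ M.vert c = M.vert (M.rev g) ∧
      ∀ y, M.ks (SA A) y → M.reg (SA A) y = M.reg (SA A) g → y = c ∨ y = g := by
  obtain ⟨ho, hk⟩ := hgood _ (M.reg_mem_T hg)
  obtain ⟨c, z', h1, _, _, h4, _, _, h7, h8⟩ := M.good_region A hH ho hk
  rcases h8 g hg rfl with h | h
  · subst h
    exact absurd h1 hgC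
  · subst h
    exact ⟨c, h1, h4, h7, h8⟩

/-- A vertex outside `A` joined to a vertex of `A`: the region of the outer vertex has a kept dart
at the inner vertex. -/
theorem reach (hH : ∀ p q, H.Adj p q ↔ G.Adj p.1 q.1)
    (hgood : ∀ t ∈ M.T (SA A), M.o (SA A) t = 2 ∧ M.k (SA A) t = 1) {d y : M.D}
    {w : V × Fin 2} (hw : ¬ A w.1) (hd : M.vert d = some w)
    (hy : M.ks (SA A) y) (hyv : M.vert y = M.vert (M.rev d)) :
    ∃ z, M.ks (SA A) z ∧ M.vert z = M.vert (M.rev d) ∧ M.reg (SA A) z = M.reg (SA A) d := by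
  have hds : M.vert d ≠ none := by rw [hd]; simp
  have hdn : ¬ M.ks (SA A) d := by
    rintro ⟨⟨u, hu, hAu⟩, _⟩
    rw [hd] at hu
    rw [← Option.some.inj hu] at hAu
    exact hw hAu
  have hrn : ¬ M.ks (SA A) (M.rev d) := fun h => hdn ((M.ks_rev_iff hds).mp h)
  have hne : y ≠ M.rev d := by
    rintro rfl
    exact hrn hy
  obtain ⟨z, hz1, _, hz3, hz4⟩ := M.next_kept hy hne hyv
  rw [M.reg_σ_of_not M.vert_rev_ne hrn] at hz4
  have hkd : ¬ M.kp (SA A) d := fun h => hdn ((M.kp_iff_of_start hds).mp h)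
  by_cases hc : M.vert (M.α d) = none
  · have e0 : M.reg (SA A) (M.α d) = M.reg (SA A) d := M.reg_α hkd
    have e1 : M.reg (SA A) (M.σ (M.α d)) = M.reg (SA A) d := by
      rw [M.reg_σ, M.αα]
    have hk2 : ¬ M.kp (SA A) (M.σ (M.σ (M.α d))) := by
      rw [M.kp_iff_of_mid (by rw [M.vert_σ, M.vert_σ, hc]), ← M.rev_cr hc]
      exact hrn
    have e2 : M.reg (SA A) (M.rev d) = M.reg (SA A) (M.nx d) := by
      rw [M.rev_cr hc, M.reg_α hk2, M.reg_σ]
      rfl
    by_cases hs : M.ks (SA A) (M.nx d)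
    · -- the edge crosses a kept edge
      have hpv : M.ks (SA A) (M.pv d) := by
        rw [← M.rev_nx hc]
        exact M.ks_rev hs
      have e3 : M.reg (SA A) (M.pv d) = M.reg (SA A) d := by
        unfold pv
        rw [← M.reg_σ, M.mid4 _ hc, e0]
      have hnC : ¬ M.Cr (SA A) (M.nx d) := by
        intro h
        have := h.2.2
        rw [M.nx_nx hc] at this
        exact hrn this
      have hpC : ¬ M.Cr (SA A) (M.pv d) := by
        intro h
        rw [← M.rev_nx hc] at h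
        exact hnC ((M.Cr_rev_iff (M.ks_start hs)).mp h)
      obtain ⟨c1, _, _, h13, h14⟩ := M.unc_partner A hH hgood hs hnC
      obtain ⟨c2, h21, h22, h23, _⟩ := M.unc_partner A hH hgood hpv hpC
      rcases h14 z hz1 (by rw [hz4, e2]) with h | h
      · refine ⟨M.pv d, hpv, ?_, e3⟩
        rw [← hz3, h, h13, M.rev_nx hc]
      · refine ⟨c2, h21.1, ?_, by rw [h22, e3]⟩
        rw [← hz3, h, h23, M.rev_pv hc]
    · refine ⟨z, hz1, hz3, ?_⟩
      have hk1 : ¬ M.kp (SA A) (M.σ (M.α d)) := by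
        rw [M.kp_iff_of_mid (by rw [M.vert_σ, hc])]
        exact hs
      rw [hz4, e2]
      unfold nx
      rw [M.reg_α hk1, e1]
  · refine ⟨z, hz1, hz3, ?_⟩
    rw [hz4, M.rev_unc hc, M.reg_α hkd]

theorem reg_const {S : V × Fin 2 → Prop} {d e : M.D} {w : V × Fin 2} (hw : ¬ S w)
    (hd : M.vert d = some w) (he : M.vert e = some w) : M.reg S e = M.reg S d := by
  obtain ⟨i, hi⟩ := (M.cyc d e (by rw [hd]; simp) (by rw [hd, he])).exists_nat_pow_eq
  rw [← hi]
  clear hi he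
  have hn : ∀ x, M.vert x = some w → M.reg S (M.σ x) = M.reg S x := by
    intro x hx
    apply M.reg_σ_of_not (by rw [hx]; simp)
    rintro ⟨⟨u, hu, hAu⟩, _⟩
    rw [hx] at hu
    rw [← Option.some.inj hu] at hAu
    exact hw hAu
  have hv : ∀ i : ℕ, M.vert ((M.σ ^ i) d) = some w ∧ M.reg S ((M.σ ^ i) d) = M.reg S d := by
    intro i
    induction i with
    | zero => exact ⟨hd, rfl⟩
    | succ i ih =>
      rw [pow_succ', Equiv.Perm.mul_apply, M.vert_σ, hn _ ih.1]
      exact ih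
  exact (hv i).2

/-- If all regions of the kept part are triangles with one crossing corner then no vertex
outside is adjacent to a kept vertex with kept neighbours. -/
theorem outside (hH : ∀ p q, H.Adj p q ↔ G.Adj p.1 q.1)
    (hgood : ∀ t ∈ M.T (SA A), M.o (SA A) t = 2 ∧ M.k (SA A) t = 1)
    {w a b : V} (hw : ¬ A w) (hwa : G.Adj w a) (ha : A a) (hb : A b) (hab : G.Adj a b) :
    False := by
  have key : ∀ j : Fin 2, ∃ d, M.vert d = some (w, 0) ∧ ∃ z, M.ks (SA A) z ∧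
      M.vert z = some (a, j) ∧ M.reg (SA A) z = M.reg (SA A) d := by
    intro j
    obtain ⟨d, hd1, hd2⟩ := (M.adj_iff (w, 0) (a, j)).mp ((hH _ _).mpr hwa)
    obtain ⟨y, hy1, hy2⟩ := (M.adj_iff (a, j) (b, 0)).mp ((hH _ _).mpr hab)
    obtain ⟨z, hz1, hz2, hz3⟩ := M.reach A hH hgood (d := d) (y := y) (w := (w, 0)) hw hd1
      ⟨⟨_, hy1, ha⟩, ⟨_, hy2, hb⟩⟩ (hy1.trans hd2.symm)
    exact ⟨d, hd1, z, hz1, hz2.trans hd2, hz3⟩
  obtain ⟨d0, hd0, z0, h01, h02, h03⟩ := key 0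
  obtain ⟨d1, hd1, z1, h11, h12, h13⟩ := key 1
  have hreg : M.reg (SA A) d1 = M.reg (SA A) d0 := M.reg_const (S := SA A) (w := (w, 0)) hw hd0 hd1
  obtain ⟨ho, hk⟩ := hgood _ (M.reg_mem_T h01)
  obtain ⟨c, z', _, _, _, _, _, _, h7, h8⟩ := M.good_region A hH ho hk
  have hz0 := h8 z0 h01 rfl
  have hz1 := h8 z1 h11 (by rw [h13, hreg, h03])
  have hnot : ∀ i j : Fin 2, ¬ H.Adj (a, i) (a, j) := by
    intro i j h
    rw [hH] at h
    exact h.ne rfl
  have hne : ((a, 0) : V × Fin 2) ≠ (a, 1) := by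
    intro h
    have h01 : (0 : Fin 2) = 1 := congrArg Prod.snd h
    exact absurd h01 (by decide)
  rcases hz0 with h0 | h0 <;> rcases hz1 with h1 | h1
  · rw [h0] at h02
    rw [h1, h02] at h12
    exact hne (Option.some.inj h12)
  · rw [h0] at h02
    rw [h1] at h12
    exact hnot _ _ (M.adj_rev h12 (h7.symm.trans h02))
  · rw [h0] at h02
    rw [h1] at h12
    exact hnot _ _ (M.adj_rev h02 (h7.symm.trans h12))
  · rw [h0] at h02
    rw [h1, h02] at h12
    exact hne (Option.some.inj h12)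

/-- The number of kept darts at vertices in a blow-up. -/
theorem card_Z_blow (hH : ∀ p q, H.Adj p q ↔ G.Adj p.1 q.1) (P : Finset (V × V))
    (hP : ∀ p : V × V, p ∈ P ↔ A p.1 ∧ A p.2 ∧ G.Adj p.1 p.2) :
    (M.Z (SA A)).card = 4 * P.card := by
  let g : (V × V) × (Fin 2 × Fin 2) → (V × Fin 2) × (V × Fin 2) :=
    fun x => ((x.1.1, x.2.1), (x.1.2, x.2.2))
  have hg : Function.Injective g := by
    rintro ⟨⟨a, b⟩, ⟨i, j⟩⟩ ⟨⟨c, d⟩, ⟨k, l⟩⟩ h
    simp only [g, Prod.mk.injEq] at h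
    obtain ⟨⟨rfl, rfl⟩, ⟨rfl, rfl⟩⟩ := h
    rfl
  rw [M.card_Z ((P ×ˢ (Finset.univ : Finset (Fin 2 × Fin 2))).image g)]
  · rw [Finset.card_image_of_injective _ hg, Finset.card_product]
    have : (Finset.univ : Finset (Fin 2 × Fin 2)).card = 4 := by
      rw [Finset.card_univ]
      simp
    rw [this, mul_comm]
  · rintro ⟨⟨a, i⟩, ⟨b, j⟩⟩
    rw [Finset.mem_image, hH]
    constructor
    · rintro ⟨⟨⟨c, d⟩, ⟨k, l⟩⟩, hp, he⟩
      rw [Finset.mem_product] at hp
      have := (hP _).mp hp.1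
      simp only [g, Prod.mk.injEq] at he
      obtain ⟨⟨rfl, rfl⟩, ⟨rfl, rfl⟩⟩ := he
      exact this
    · intro h
      exact ⟨((a, b), (i, j)), Finset.mem_product.mpr ⟨(hP _).mpr h, Finset.mem_univ _⟩, rfl⟩

theorem nv_blow (Q : Finset V) (hQ : ∀ a b, A a → A b → G.Adj a b → a ∈ Q)
    (hH : ∀ p q, H.Adj p q ↔ G.Adj p.1 q.1) :
    M.nv (SA A) ≤ 2 * Q.card := by
  have h := M.nv_le (S := SA A) (Q ×ˢ (Finset.univ : Finset (Fin 2))) (by
    intro d u hd hu
    obtain ⟨⟨u', hu1, hA⟩, ⟨w, hw1, hAw⟩⟩ := hd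
    have hadj := M.adj_rev hu1 hw1
    rw [hH] at hadj
    rw [hu] at hu1
    rw [← Option.some.inj hu1] at hA hadj
    exact Finset.mem_product.mpr ⟨hQ _ _ hA hAw hadj, Finset.mem_univ _⟩)
  rw [Finset.card_product] at h
  simp only [Finset.card_univ, Fintype.card_fin] at h
  omega

/-- Four pairwise adjacent vertices. -/
def IsK4 (G : SimpleGraph V) (a b c d : V) : Prop :=
  G.Adj a b ∧ G.Adj a c ∧ G.Adj a d ∧ G.Adj b c ∧ G.Adj b d ∧ G.Adj c d

include M in
theorem k4_isolated (hH : ∀ p q, H.Adj p q ↔ G.Adj p.1 q.1) {a b c d w : V}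
    (hK : IsK4 G a b c d) (hw : G.Adj a w) : w = b ∨ w = c ∨ w = d := by
  obtain ⟨hab, hac, had, hbc, hbd, hcd⟩ := hK
  by_contra hcon
  push Not at hcon
  let Q : Finset V := {a, b, c, d}
  have hmem : ∀ x, x ∈ Q ↔ x = a ∨ x = b ∨ x = c ∨ x = d := by
    intro x
    simp only [Q, Finset.mem_insert, Finset.mem_singleton]
  have hQ4 : Q.card = 4 := by
    have h1 : c ∉ ({d} : Finset V) := by
      rw [Finset.mem_singleton]; exact hcd.ne
    have h2 : b ∉ ({c, d} : Finset V) := by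
      rw [Finset.mem_insert, Finset.mem_singleton]
      rintro (h | h)
      · exact hbc.ne h
      · exact hbd.ne h
    have h3 : a ∉ ({b, c, d} : Finset V) := by
      rw [Finset.mem_insert, Finset.mem_insert, Finset.mem_singleton]
      rintro (h | h | h)
      · exact hab.ne h
      · exact hac.ne h
      · exact had.ne h
    change (insert a (insert b (insert c {d})) : Finset V).card = 4
    rw [Finset.card_insert_of_notMem h3, Finset.card_insert_of_notMem h2,
      Finset.card_insert_of_notMem h1, Finset.card_singleton]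
  have hadj : ∀ x ∈ Q, ∀ y ∈ Q, x ≠ y → G.Adj x y := by
    intro x hx y hy hxy
    rw [hmem] at hx hy
    rcases hx with rfl | rfl | rfl | rfl <;> rcases hy with rfl | rfl | rfl | rfl
    · exact absurd rfl hxy
    · exact hab
    · exact hac
    · exact had
    · exact hab.symm
    · exact absurd rfl hxy
    · exact hbc
    · exact hbd
    · exact hac.symm
    · exact hbc.symm
    · exact absurd rfl hxy
    · exact hcd
    · exact had.symm
    · exact hbd.symm
    · exact hcd.symm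
    · exact absurd rfl hxy
  have hZ : (M.Z (SA (fun x => x ∈ Q))).card = 48 := by
    rw [M.card_Z_blow (fun x => x ∈ Q) hH Q.offDiag]
    · rw [Finset.offDiag_card, hQ4]
    · intro p
      rw [Finset.mem_offDiag]
      constructor
      · rintro ⟨h1, h2, h3⟩
        exact ⟨h1, h2, hadj _ h1 _ h2 h3⟩
      · rintro ⟨h1, h2, h3⟩
        exact ⟨h1, h2, h3.ne⟩
  have hN : M.nv (SA (fun x => x ∈ Q)) ≤ 8 := by
    have := M.nv_blow (G := G) (fun x => x ∈ Q) Q (fun a _ ha _ _ => ha) hH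
    rw [hQ4] at this
    exact this
  have haQ : a ∈ Q := (hmem a).mpr (Or.inl rfl)
  have hbQ : b ∈ Q := (hmem b).mpr (Or.inr (Or.inl rfl))
  refine M.outside (fun x => x ∈ Q) hH (fun t ht => M.k4_good _ hH hZ hN ht)
    (w := w) (a := a) (b := b) ?_ hw.symm haQ hbQ hab
  rw [hmem]
  rintro (h | h | h | h)
  · exact hw.ne h.symm
  · exact hcon.1 h
  · exact hcon.2.1 h
  · exact hcon.2.2 h

section Tight

variable (hall : ∀ v, A v)

include hall in
theorem ks_all {d : M.D} (hd : M.vert d ≠ none) : M.ks (SA A) d := by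
  obtain ⟨u, hu⟩ := Option.ne_none_iff_exists'.mp hd
  obtain ⟨w, hw⟩ := Option.ne_none_iff_exists'.mp (M.vert_rev_ne (d := d))
  exact ⟨⟨u, hu, hall _⟩, ⟨w, hw, hall _⟩⟩

/-- The dart whose successor is the given dart. -/
noncomputable def bk (d : M.D) : M.D := if M.Cr (SA A) d then M.pv d else M.rev d

include hall in
theorem nxt_bk {d : M.D} (hd : M.vert d ≠ none) : M.nxt (SA A) (M.bk A d) = d := by
  unfold bk
  by_cases hC : M.Cr (SA A) d
  · rw [if_pos hC, M.nxt_cr (M.Cr_pv hC), M.nx_pv hC.2.1]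
  · rw [if_neg hC, M.nxt_unc (M.ks_all A hall M.vert_rev_ne)
      (fun h => hC ((M.Cr_rev_iff hd).mp h)), M.rev_rev hd]

include hall in
theorem vert_bk_ne_none {d : M.D} (_hd : M.vert d ≠ none) : M.vert (M.bk A d) ≠ none := by
  unfold bk
  by_cases hC : M.Cr (SA A) d
  · rw [if_pos hC]
    exact M.start_of_cr (M.cr_pv hC.2.1)
  · rw [if_neg hC]
    exact M.vert_rev_ne

variable (ho : ∀ t ∈ M.T (SA A), M.o (SA A) t = 2)
  (hb : ∀ z, M.Cr (SA A) z → M.bad (SA A) (M.reg (SA A) z) +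
        M.bad (SA A) (M.reg (SA A) (M.nx z)) +
        M.bad (SA A) (M.reg (SA A) (M.rev z)) + M.bad (SA A) (M.reg (SA A) (M.pv z)) = 1)

include hall in
theorem reg_bk {d : M.D} (hd : M.vert d ≠ none) :
    M.reg (SA A) (M.bk A d) = M.reg (SA A) (M.σ d) := by
  have h1 := M.reg_nxt (M.ks_all A hall (M.vert_bk_ne_none A hall hd))
  rw [M.nxt_bk A hall hd] at h1
  exact h1.symm

include hall in
theorem bk_ne {d : M.D} (hd : M.vert d ≠ none) : M.vert (M.bk A d) ≠ M.vert d := by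
  have h1 := M.vert_nxt_ne (M.ks_all A hall (M.vert_bk_ne_none A hall hd))
  rw [M.nxt_bk A hall hd] at h1
  exact h1.symm

include hall ho in
theorem pair_bk {d : M.D} (hd : M.vert d ≠ none) {y : M.D} (hy : M.vert y ≠ none)
    (hyr : M.reg (SA A) y = M.reg (SA A) (M.σ d)) : y = M.σ d ∨ y = M.bk A d := by
  have hσ : M.vert (M.σ d) ≠ none := by rw [M.vert_σ]; exact hd
  refine M.pair_of_o (ho _ (M.reg_mem_T (M.ks_all A hall hσ))) (M.ks_all A hall hσ)
    (M.ks_all A hall (M.vert_bk_ne_none A hall hd)) rfl (M.reg_bk A hall hd) ?_ y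
    (M.ks_all A hall hy) hyr
  intro h
  apply M.bk_ne A hall hd
  rw [← h, M.vert_σ]

include hall ho in
theorem vert_nxt_σ {d : M.D} (hd : M.vert d ≠ none) :
    M.vert (M.nxt (SA A) (M.σ d)) = M.vert (M.bk A d) := by
  have hσ : M.vert (M.σ d) ≠ none := by rw [M.vert_σ]; exact hd
  have hk := M.ks_all A hall hσ
  have h1 := M.reg_nxt hk
  have h2 : M.vert (M.σ (M.nxt (SA A) (M.σ d))) ≠ none := by
    rw [M.vert_σ]
    exact M.ks_start (M.ks_nxt hk)
  rcases M.pair_bk A hall ho hd h2 h1 with h | h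
  · exfalso
    apply M.vert_nxt_ne hk
    rw [← M.vert_σ, h]
  · rw [← h, M.vert_σ]

include hall ho in
theorem no_UU (hH : ∀ p q, H.Adj p q ↔ G.Adj p.1 q.1) {d : M.D} (hd : M.vert d ≠ none)
    (h1 : ¬ M.Cr (SA A) d) (h2 : ¬ M.Cr (SA A) (M.σ d)) : False := by
  have hσ : M.vert (M.σ d) ≠ none := by rw [M.vert_σ]; exact hd
  have ht := M.reg_mem_T (M.ks_all A hall hσ)
  have h3 := M.three_le A hH ht
  rw [ho _ ht] at h3
  have hpos : 0 < M.k (SA A) (M.reg (SA A) (M.σ d)) := by omega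
  obtain ⟨z, hz⟩ := Finset.card_pos.mp hpos
  rw [Finset.mem_filter, mem_Cs] at hz
  rcases M.pair_bk A hall ho hd (M.ks_start hz.1.1) hz.2 with h | h
  · rw [h] at hz
    exact h2 hz.1
  · rw [h] at hz
    have : M.bk A d = M.rev d := if_neg h1
    rw [this] at hz
    exact h1 ((M.Cr_rev_iff hd).mp hz.1)

include hall in
theorem bad_CC {d : M.D} (hd : M.vert d ≠ none)
    (h1 : M.Cr (SA A) d) (h2 : M.Cr (SA A) (M.σ d)) :
    M.bad (SA A) (M.reg (SA A) (M.σ d)) = 1 := by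
  have hbk : M.bk A d = M.pv d := if_pos h1
  have h3 : 2 ≤ M.k (SA A) (M.reg (SA A) (M.σ d)) := by
    have hne : M.σ d ≠ M.bk A d := by
      intro h
      apply M.bk_ne A hall hd
      rw [← h, M.vert_σ]
    refine (Finset.card_pair hne).ge.trans (Finset.card_le_card ?_)
    intro y hy
    rw [Finset.mem_insert, Finset.mem_singleton] at hy
    rw [Finset.mem_filter, mem_Cs]
    rcases hy with rfl | rfl
    · exact ⟨h2, rfl⟩
    · exact ⟨by rw [hbk]; exact M.Cr_pv h1, M.reg_bk A hall hd⟩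
  unfold bad
  rw [if_neg]
  rintro ⟨_, h⟩
  omega

include hall hb in
theorem no_CCC {d : M.D} (hd : M.vert d ≠ none) (h1 : M.Cr (SA A) d)
    (h2 : M.Cr (SA A) (M.σ d)) (h3 : M.Cr (SA A) (M.σ (M.σ d))) : False := by
  have hσ : M.vert (M.σ d) ≠ none := by rw [M.vert_σ]; exact hd
  have b1 := M.bad_CC A hall hd h1 h2
  have b2 := M.bad_CC A hall hσ h2 h3
  have hbk : M.bk A (M.σ d) = M.pv (M.σ d) := if_pos h2
  rw [← M.reg_bk A hall hσ, hbk] at b2
  have := hb _ h2
  omega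

include hall ho hb in
/-- In the tight case no vertex has at most four darts. -/
theorem no_low (hH : ∀ p q, H.Adj p q ↔ G.Adj p.1 q.1) {d : M.D} (hd : M.vert d ≠ none)
    (h4 : M.σ (M.σ (M.σ (M.σ d))) = d) : False := by
  -- find an uncrossed dart
  have hσ : ∀ {x : M.D}, M.vert x ≠ none → M.vert (M.σ x) ≠ none := by
    intro x hx
    rw [M.vert_σ]
    exact hx
  obtain ⟨z, hz, hz4, hzU⟩ : ∃ z, M.vert z ≠ none ∧ M.σ (M.σ (M.σ (M.σ z))) = z ∧
      ¬ M.Cr (SA A) z := by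
    by_contra hcon
    push Not at hcon
    exact M.no_CCC A hall hb hd (hcon d hd h4) (hcon _ (hσ hd) (by rw [h4]))
      (hcon _ (hσ (hσ hd)) (by rw [h4]))
  have hz1 := hσ hz
  have hz2 := hσ hz1
  have hz3 := hσ hz2
  have C2 : M.Cr (SA A) (M.σ z) := by
    by_contra h
    exact M.no_UU A hall ho hH hz hzU h
  have C4 : M.Cr (SA A) (M.σ (M.σ (M.σ z))) := by
    by_contra h
    exact M.no_UU A hall ho hH hz3 h (by rw [hz4]; exact hzU)
  have U3 : ¬ M.Cr (SA A) (M.σ (M.σ z)) := fun h => M.no_CCC A hall hb hz1 C2 h C4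
  have r1 := M.vert_nxt_σ A hall ho hz
  have r2 := M.vert_nxt_σ A hall ho hz1
  have r3 := M.vert_nxt_σ A hall ho hz2
  have r4 := M.vert_nxt_σ A hall ho hz3
  have b1 : M.bk A z = M.rev z := if_neg hzU
  have b2 : M.bk A (M.σ z) = M.pv (M.σ z) := if_pos C2
  have b3 : M.bk A (M.σ (M.σ z)) = M.rev (M.σ (M.σ z)) := if_neg U3
  have b4 : M.bk A (M.σ (M.σ (M.σ z))) = M.pv (M.σ (M.σ (M.σ z))) := if_pos C4
  rw [hz4] at r4
  rw [M.nxt_cr C2, b1] at r1
  rw [M.nxt_unc (M.ks_all A hall hz2) U3, b2] at r2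
  rw [M.nxt_cr C4, b3] at r3
  rw [M.nxt_unc (M.ks_all A hall hz) hzU, b4] at r4
  have heq : M.pv (M.σ (M.σ (M.σ z))) = M.nx (M.σ z) := by
    apply M.unique
    · exact M.ks_start C2.2.2
    · rw [r1, r4]
    · change M.vert (M.rev _) = M.vert (M.rev _)
      rw [M.rev_pv C4.2.1, M.rev_nx C2.2.1, r3, r2]
  have h5 := congrArg M.nx heq
  rw [M.nx_pv C4.2.1, M.nx_nx C2.2.1] at h5
  apply M.vert_rev_ne_vert hz1
  rw [← h5, M.vert_σ, M.vert_σ]

end Tight

end Draw

end Pool.Agent.R31.OnePlane
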