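import Mathlib
import Pool.Agent.R31.OnePlaneEnd

/-!
# The edge bound for graphs with a drawn blow-up: counting in the base graph
-/

set_option autoImplicit false

namespace Pool.Agent.R31.OnePlane

set_option linter.unusedSectionVars false

open scoped Classical

variable {V : Type} {G : SimpleGraph V} {H : SimpleGraph (V × Fin 2)}

theorem IsK4.swap₁ {a b c d : V} (h : Draw.IsK4 G a b c d) : Draw.IsK4 G b a c d :=
  ⟨h.1.symm, h.2.2.2.1, h.2.2.2.2.1, h.2.1, h.2.2.1, h.2.2.2.2.2⟩

theorem IsK4.swap₂ {a b c d : V} (h : Draw.IsK4 G a b c d) : Draw.IsK4 G a c b d :=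
  ⟨h.2.1, h.1, h.2.2.1, h.2.2.2.1.symm, h.2.2.2.2.2, h.2.2.2.2.1⟩

theorem IsK4.swap₃ {a b c d : V} (h : Draw.IsK4 G a b c d) : Draw.IsK4 G a b d c :=
  ⟨h.1, h.2.2.1, h.2.1, h.2.2.2.2.1, h.2.2.2.1, h.2.2.2.2.2.symm⟩

variable [Fintype V]

/-- The vertices in a complete subgraph on four vertices. -/
noncomputable def QF (G : SimpleGraph V) : Finset V :=
  Finset.univ.filter (fun v => ∃ b c d, Draw.IsK4 G v b c d)

theorem mem_QF {v : V} : v ∈ QF G ↔ ∃ b c d, Draw.IsK4 G v b c d := by
  unfold QF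
  rw [Finset.mem_filter]
  exact ⟨fun h => h.2, fun h => ⟨Finset.mem_univ _, h⟩⟩

theorem QF_deg (M : Draw H) (hH : ∀ p q, H.Adj p q ↔ G.Adj p.1 q.1) {v : V} (hv : v ∈ QF G) :
    G.degree v = 3 := by
  obtain ⟨b, c, d, hK⟩ := mem_QF.mp hv
  have h1 : G.neighborFinset v = {b, c, d} := by
    ext w
    rw [SimpleGraph.mem_neighborFinset, Finset.mem_insert, Finset.mem_insert,
      Finset.mem_singleton]
    constructor
    · intro hw
      exact M.k4_isolated hH hK hw
    · rintro (rfl | rfl | rfl)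
      · exact hK.1
      · exact hK.2.1
      · exact hK.2.2.1
  rw [← SimpleGraph.card_neighborFinset_eq_degree, h1, Finset.card_insert_of_notMem,
    Finset.card_insert_of_notMem, Finset.card_singleton]
  · rw [Finset.mem_singleton]
    exact hK.2.2.2.2.2.ne
  · rw [Finset.mem_insert, Finset.mem_singleton]
    rintro (h | h)
    · exact hK.2.2.2.1.ne h
    · exact hK.2.2.2.2.1.ne h

theorem QF_closed (M : Draw H) (hH : ∀ p q, H.Adj p q ↔ G.Adj p.1 q.1) {u v : V}
    (hu : u ∈ QF G) (huv : G.Adj u v) : v ∈ QF G := by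
  obtain ⟨b, c, d, hK⟩ := mem_QF.mp hu
  rw [mem_QF]
  rcases M.k4_isolated hH hK huv with h | h | h
  · subst h
    exact ⟨_, _, _, IsK4.swap₁ hK⟩
  · subst h
    exact ⟨_, _, _, IsK4.swap₁ (IsK4.swap₂ hK)⟩
  · subst h
    exact ⟨_, _, _, IsK4.swap₁ (IsK4.swap₂ (IsK4.swap₃ hK))⟩

/-- The ordered adjacent pairs whose first vertex lies in a given set. -/
noncomputable def PF (G : SimpleGraph V) (B : Finset V) : Finset (V × V) :=
  Finset.univ.filter (fun p => p.1 ∈ B ∧ G.Adj p.1 p.2)

theorem card_PF (B : Finset V) : (PF G B).card = ∑ v ∈ B, G.degree v := by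
  rw [Finset.card_eq_sum_card_fiberwise (f := Prod.fst) (t := B)]
  · refine Finset.sum_congr rfl fun v hv => ?_
    rw [← SimpleGraph.card_neighborFinset_eq_degree]
    refine Finset.card_bij' (fun p _ => p.2) (fun u _ => (v, u)) ?_ ?_ ?_ ?_
    · rintro ⟨x, y⟩ hp
      rw [Finset.mem_filter] at hp
      obtain ⟨hp, rfl⟩ := hp
      unfold PF at hp
      rw [Finset.mem_filter] at hp
      rw [SimpleGraph.mem_neighborFinset]
      exact hp.2.2
    · intro u hu
      rw [SimpleGraph.mem_neighborFinset] at hu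
      unfold PF
      rw [Finset.mem_filter, Finset.mem_filter]
      exact ⟨⟨Finset.mem_univ _, hv, hu⟩, rfl⟩
    · rintro ⟨x, y⟩ hp
      rw [Finset.mem_filter] at hp
      obtain ⟨_, rfl⟩ := hp
      rfl
    · intro u _
      rfl
  · intro p hp
    unfold PF at hp
    rw [Finset.mem_coe, Finset.mem_filter] at hp
    exact hp.2.1

/-- All vertices in two disjoint complete subgraphs. -/
theorem eight_le (M : Draw H) (hH : ∀ p q, H.Adj p q ↔ G.Adj p.1 q.1)
    (hn : 5 ≤ Fintype.card V) (hQ : ∀ v, v ∈ QF G) : 8 ≤ Fintype.card V := by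
  have hne : Nonempty V := Fintype.card_pos_iff.mp (by omega)
  obtain ⟨a⟩ := hne
  obtain ⟨b, c, d, hK⟩ := mem_QF.mp (hQ a)
  have card4 : ∀ {a b c d : V}, Draw.IsK4 G a b c d → ({a, b, c, d} : Finset V).card = 4 := by
    intro a b c d hK
    obtain ⟨hab, hac, had, hbc, hbd, hcd⟩ := hK
    rw [Finset.card_insert_of_notMem, Finset.card_insert_of_notMem,
      Finset.card_insert_of_notMem, Finset.card_singleton]
    · rw [Finset.mem_singleton]; exact hcd.ne
    · rw [Finset.mem_insert, Finset.mem_singleton]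
      rintro (h | h)
      · exact hbc.ne h
      · exact hbd.ne h
    · rw [Finset.mem_insert, Finset.mem_insert, Finset.mem_singleton]
      rintro (h | h | h)
      · exact hab.ne h
      · exact hac.ne h
      · exact had.ne h
  obtain ⟨w, hw⟩ : ∃ w, w ∉ ({a, b, c, d} : Finset V) := by
    by_contra hcon
    push Not at hcon
    have h1 : (Finset.univ : Finset V) ⊆ {a, b, c, d} := fun x _ => hcon x
    have h2 := Finset.card_le_card h1
    rw [card4 hK, Finset.card_univ] at h2
    omega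
  obtain ⟨b', c', d', hK'⟩ := mem_QF.mp (hQ w)
  have hclosed : ∀ x ∈ ({a, b, c, d} : Finset V), ∀ y, G.Adj x y →
      y ∈ ({a, b, c, d} : Finset V) := by
    intro x hx y hxy
    rw [Finset.mem_insert, Finset.mem_insert, Finset.mem_insert, Finset.mem_singleton] at hx ⊢
    rcases hx with rfl | rfl | rfl | rfl
    · exact Or.inr (M.k4_isolated hH hK hxy)
    · have := M.k4_isolated hH (IsK4.swap₁ hK) hxy
      tauto
    · have := M.k4_isolated hH (IsK4.swap₁ (IsK4.swap₂ hK)) hxy
      tauto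
    · have := M.k4_isolated hH (IsK4.swap₁ (IsK4.swap₂ (IsK4.swap₃ hK))) hxy
      tauto
  have hdisj : Disjoint ({a, b, c, d} : Finset V) {w, b', c', d'} := by
    rw [Finset.disjoint_left]
    intro x hx hx'
    rw [Finset.mem_insert, Finset.mem_insert, Finset.mem_insert, Finset.mem_singleton] at hx'
    apply hw
    rcases hx' with rfl | rfl | rfl | rfl
    · exact hx
    · exact hclosed _ hx _ hK'.1.symm
    · exact hclosed _ hx _ hK'.2.1.symm
    · exact hclosed _ hx _ hK'.2.2.1.symm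
  have h1 := Finset.card_union_of_disjoint hdisj
  rw [card4 hK, card4 hK'] at h1
  have h2 := Finset.card_le_univ (({a, b, c, d} : Finset V) ∪ {w, b', c', d'})
  omega

/-- The darts at a vertex of the drawing. -/
theorem darts_at (M : Draw H) (hH : ∀ p q, H.Adj p q ↔ G.Adj p.1 q.1) (a : V) :
    (Finset.univ.filter (fun d => M.vert d = some (a, 0))).card = 2 * G.degree a := by
  have h1 : ((G.neighborFinset a ×ˢ (Finset.univ : Finset (Fin 2))).image
      (some : V × Fin 2 → Option (V × Fin 2))).card = 2 * G.degree a := by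
    rw [Finset.card_image_of_injective _ (Option.some_injective _), Finset.card_product,
      SimpleGraph.card_neighborFinset_eq_degree, Finset.card_univ, Fintype.card_fin, mul_comm]
  rw [← h1]
  rw [← Finset.card_image_of_injOn (s := Finset.univ.filter (fun d => M.vert d = some (a, 0)))
    (f := fun d => M.vert (M.rev d))]
  · congr 1
    ext x
    rw [Finset.mem_image, Finset.mem_image]
    constructor
    · rintro ⟨d, hd, rfl⟩
      rw [Finset.mem_filter] at hd
      obtain ⟨w, hw⟩ := Option.ne_none_iff_exists'.mp (M.vert_rev_ne (d := d))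
      refine ⟨w, ?_, hw.symm⟩
      rw [Finset.mem_product, SimpleGraph.mem_neighborFinset]
      exact ⟨(hH _ _).mp (M.adj_rev hd.2 hw), Finset.mem_univ _⟩
    · rintro ⟨w, hw, rfl⟩
      rw [Finset.mem_product, SimpleGraph.mem_neighborFinset] at hw
      obtain ⟨d, hd1, hd2⟩ := (M.adj_iff (a, 0) w).mp ((hH _ _).mpr hw.1)
      exact ⟨d, Finset.mem_filter.mpr ⟨Finset.mem_univ _, hd1⟩, hd2⟩
  · intro d hd e he hde
    rw [Finset.mem_coe, Finset.mem_filter] at hd he
    exact M.unique e d (by rw [he.2]; simp) (by rw [hd.2, he.2]) hde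

theorem four_cycle (M : Draw H) (hH : ∀ p q, H.Adj p q ↔ G.Adj p.1 q.1) {a : V}
    (h1 : 1 ≤ G.degree a) (h2 : G.degree a ≤ 2) :
    ∃ d, M.vert d ≠ none ∧ M.σ (M.σ (M.σ (M.σ d))) = d := by
  have hcard := darts_at M hH a
  set s := Finset.univ.filter (fun d => M.vert d = some ((a, 0) : V × Fin 2)) with hs
  have hmem : ∀ d, d ∈ s ↔ M.vert d = some (a, 0) := by
    intro d
    rw [hs, Finset.mem_filter]
    exact ⟨fun h => h.2, fun h => ⟨Finset.mem_univ _, h⟩⟩
  have hpos : 0 < s.card := by omega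
  obtain ⟨d, hd⟩ := Finset.card_pos.mp hpos
  have hd' := (hmem d).mp hd
  refine ⟨d, by rw [hd']; simp, ?_⟩
  have hcyc : M.σ.IsCycleOn (s : Set M.D) := by
    refine ⟨⟨?_, M.σ.injective.injOn, ?_⟩, ?_⟩
    · intro x hx
      rw [Finset.mem_coe, hmem] at hx ⊢
      rw [M.vert_σ, hx]
    · intro x hx
      rw [Finset.mem_coe, hmem] at hx
      refine ⟨M.σ.symm x, ?_, M.σ.apply_symm_apply x⟩
      rw [Finset.mem_coe, hmem, ← M.vert_σ, M.σ.apply_symm_apply, hx]
    · intro x hx y hy
      rw [Finset.mem_coe, hmem] at hx hy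
      exact M.cyc x y (by rw [hx]; simp) (by rw [hx, hy])
  have hp := hcyc.pow_card_apply hd
  have h24 : s.card = 2 ∨ s.card = 4 := by omega
  rcases h24 with h | h
  · rw [h] at hp
    have hp' : M.σ (M.σ d) = d := hp
    rw [hp', hp']
  · rw [h] at hp
    exact hp

/-- The bound. -/
theorem bound (M : Draw H) (hH : ∀ p q, H.Adj p q ↔ G.Adj p.1 q.1)
    (hn : 5 ≤ Fintype.card V) :
    4 * G.edgeFinset.card + 7 ≤ 7 * Fintype.card V ∧
      G.edgeFinset.card + 4 ≤ 2 * Fintype.card V := by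
  have hsum := G.sum_degrees_eq_twice_card_edges
  have hsplit : ∑ v, G.degree v = ∑ v ∈ QF G, G.degree v + ∑ v ∈ (QF G)ᶜ, G.degree v :=
    (Finset.sum_add_sum_compl (QF G) _).symm
  have h3 : ∑ v ∈ QF G, G.degree v = 3 * (QF G).card := by
    rw [Finset.sum_congr rfl (fun v hv => QF_deg M hH hv), Finset.sum_const, smul_eq_mul,
      mul_comm]
  have hP := card_PF (G := G) (QF G)ᶜ
  have hcompl := Finset.card_add_card_compl (QF G)
  have hPmem : ∀ p : V × V, p ∈ PF G (QF G)ᶜ ↔ p.1 ∉ QF G ∧ p.2 ∉ QF G ∧ G.Adj p.1 p.2 := by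
    intro p
    unfold PF
    rw [Finset.mem_filter, Finset.mem_compl]
    constructor
    · rintro ⟨_, h1, h2⟩
      exact ⟨h1, fun h => h1 (QF_closed M hH h h2.symm), h2⟩
    · rintro ⟨h1, _, h2⟩
      exact ⟨Finset.mem_univ _, h1, h2⟩
  have hZ := M.card_Z_blow (fun v => v ∉ QF G) hH (PF G (QF G)ᶜ) hPmem
  have hN := M.nv_blow (G := G) (fun v => v ∉ QF G) (QF G)ᶜ
    (fun a _ ha _ _ => Finset.mem_compl.mpr ha) hH
  have hK : Draw.NoK4 G (fun v => v ∉ QF G) := by
    intro a b c d ha _ _ _ hab hac had hbc hbd hcd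
    exact ha (mem_QF.mpr ⟨b, c, d, hab, hac, had, hbc, hbd, hcd⟩)
  have hpos : (PF G (QF G)ᶜ).card = 0 ∨
      4 * (PF G (QF G)ᶜ).card + 14 ≤ 14 * ((QF G)ᶜ).card := by
    by_cases h0 : (PF G (QF G)ᶜ).card = 0
    · exact Or.inl h0
    · right
      have hne : (M.Z (Draw.SA (fun v => v ∉ QF G))).Nonempty := by
        rw [← Finset.card_pos]
        omega
      have := (M.main_ineq _ hH hK hne).1
      omega
  have hempty : ((QF G)ᶜ).card = 0 → 8 ≤ Fintype.card V ∧ (PF G (QF G)ᶜ).card = 0 := by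
    intro h0
    have h1 : (QF G)ᶜ = ∅ := Finset.card_eq_zero.mp h0
    refine ⟨eight_le M hH hn ?_, ?_⟩
    · intro v
      by_contra hv
      have := Finset.mem_compl.mpr hv
      rw [h1] at this
      exact Finset.notMem_empty _ this
    · rw [hP, h1, Finset.sum_empty]
  have htight : ¬ (Fintype.card V = 5 ∧ (QF G).card = 0 ∧ (PF G (QF G)ᶜ).card = 14) := by
    rintro ⟨h5, h0, h14⟩
    have hQe : QF G = ∅ := Finset.card_eq_zero.mp h0
    have hall : ∀ v, v ∉ QF G := by
      intro v
      rw [hQe]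
      exact Finset.notMem_empty v
    have hne : (M.Z (Draw.SA (fun v => v ∉ QF G))).Nonempty := by
      rw [← Finset.card_pos]
      omega
    obtain ⟨hm1, hm2⟩ := M.main_ineq _ hH hK hne
    obtain ⟨ho, hb⟩ := hm2 (by omega)
    obtain ⟨a, ha⟩ : ∃ a, G.degree a ≤ 2 := by
      by_contra hcon
      push Not at hcon
      have h1 : ∑ v : V, 3 ≤ ∑ v, G.degree v := Finset.sum_le_sum (fun v _ => hcon v)
      rw [Finset.sum_const, Finset.card_univ, smul_eq_mul] at h1
      omega
    have ha1 : 1 ≤ G.degree a := by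
      by_contra hlt
      have hz : G.degree a = 0 := by omega
      have hN' := M.nv_blow (G := G) (fun v => v ∉ QF G) (Finset.univ.erase a)
        (by
          intro x y _ _ hxy
          rw [Finset.mem_erase]
          refine ⟨?_, Finset.mem_univ _⟩
          rintro rfl
          have : 0 < G.degree x := (G.degree_pos_iff_exists_adj x).mpr ⟨y, hxy⟩
          omega) hH
      rw [Finset.card_erase_of_mem (Finset.mem_univ _), Finset.card_univ] at hN'
      omega
    obtain ⟨d, hd, hd4⟩ := four_cycle M hH ha1 ha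
    exact M.no_low _ hall ho hb hH hd hd4
  by_cases ha0 : ((QF G)ᶜ).card = 0
  · obtain ⟨h8, hp0⟩ := hempty ha0
    constructor <;> omega
  · rcases hpos with hp | hp
    · constructor <;> omega
    · refine ⟨by omega, ?_⟩
      by_contra hcon
      apply htight
      omega

end Pool.Agent.R31.OnePlane
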