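import Mathlib
import Pool.Agent.R31.OnePlane

/-!
# Removing crossings between adjacent edges

A drawing in which every edge is crossed at most once can be redrawn so that moreover no two edges
with a common end cross.
-/

set_option autoImplicit false

namespace Pool.Agent.R31.OnePlane

set_option linter.unusedSectionVars false

/-- The planarisation of a drawing in which edges with a common end may cross. -/
structure PDraw {W : Type} (H : SimpleGraph W) where
  D : Type
  V : Type
  F : Type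
  C : Type
  finD : Fintype D
  finV : Fintype V
  finF : Fintype F
  finC : Fintype C
  σ : Equiv.Perm D
  α : Equiv.Perm D
  v : D → V
  f : D → F
  comp : D → C
  αα : ∀ d, α (α d) = d
  α_ne : ∀ d, α d ≠ d
  vσ : ∀ d, v (σ d) = v d
  fσ : ∀ d, f (σ (α d)) = f d
  v_surj : Function.Surjective v
  f_surj : Function.Surjective f
  c_surj : Function.Surjective comp
  cα : ∀ d, comp (α d) = comp d
  cσ : ∀ d, comp (σ d) = comp d
  conn : ∀ P : D → Prop, (∀ d, P d → P (α d)) → (∀ d, P d → P (σ d)) →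
      ∀ d e, comp d = comp e → P d → P e
  euler : Fintype.card D + 4 * Fintype.card C ≤ 2 * (Fintype.card V + Fintype.card F)
  vert : D → Option W
  vert_σ : ∀ d, vert (σ d) = vert d
  cyc : ∀ d e, vert d ≠ none → vert e = vert d → σ.SameCycle d e
  mid4 : ∀ d, vert d = none → σ (σ (σ (σ d))) = d
  mid2 : ∀ d, vert d = none → σ (σ d) ≠ d
  midα : ∀ d, vert d = none → vert (α d) ≠ none
  adj_iff : ∀ u w, H.Adj u w ↔ ∃ d, vert d = some u ∧ vert (opp σ α vert d) = some w
  unique : ∀ d e, vert d ≠ none → vert e = vert d →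
    vert (opp σ α vert e) = vert (opp σ α vert d) → e = d

attribute [instance] PDraw.finD PDraw.finV PDraw.finF PDraw.finC

namespace PDraw

open scoped Classical

variable {W : Type} {H : SimpleGraph W} (M : PDraw H) (m : M.D)

/-- The darts at the crossing of `m`. -/
def X (d : M.D) : Prop := d = m ∨ d = M.σ m ∨ d = M.σ (M.σ m) ∨ d = M.σ (M.σ (M.σ m))

/-- The new edge involution. -/
noncomputable def a' (d : M.D) : M.D :=
  if d = M.α m then M.α (M.σ (M.σ (M.σ m))) else
  if d = M.α (M.σ (M.σ (M.σ m))) then M.α m else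
  if d = M.α (M.σ m) then M.α (M.σ (M.σ m)) else
  if d = M.α (M.σ (M.σ m)) then M.α (M.σ m) else M.α d

variable {m}

theorem vert_of_X (hm : M.vert m = none) {d : M.D} (hd : M.X m d) : M.vert d = none := by
  rcases hd with rfl | rfl | rfl | rfl
  · exact hm
  · rw [M.vert_σ, hm]
  · rw [M.vert_σ, M.vert_σ, hm]
  · rw [M.vert_σ, M.vert_σ, M.vert_σ, hm]

theorem X_σ (hm : M.vert m = none) (d : M.D) : ¬ M.X m (M.σ d) ↔ ¬ M.X m d := by
  rw [not_iff_not]
  unfold X
  constructor
  · rintro (h | h | h | h)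
    · right; right; right
      apply M.σ.injective
      rw [h, M.mid4 m hm]
    · exact Or.inl (M.σ.injective h)
    · exact Or.inr (Or.inl (M.σ.injective h))
    · exact Or.inr (Or.inr (Or.inl (M.σ.injective h)))
  · rintro (rfl | rfl | rfl | rfl)
    · exact Or.inr (Or.inl rfl)
    · exact Or.inr (Or.inr (Or.inl rfl))
    · exact Or.inr (Or.inr (Or.inr rfl))
    · exact Or.inl (M.mid4 _ hm)

theorem α_start_not_X (hm : M.vert m = none) {d : M.D} (hd : M.vert d = none) :
    ¬ M.X m (M.α d) := fun h => M.midα d hd (M.vert_of_X hm h)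

/-- The four distinctness facts. -/
theorem dist (hm : M.vert m = none) : M.σ m ≠ m ∧ M.σ (M.σ m) ≠ m ∧ M.σ (M.σ (M.σ m)) ≠ m ∧
    M.σ (M.σ m) ≠ M.σ m ∧ M.σ (M.σ (M.σ m)) ≠ M.σ m ∧ M.σ (M.σ (M.σ m)) ≠ M.σ (M.σ m) := by
  have d2 := M.mid2 m hm
  have d4 := M.mid4 m hm
  have d1 : M.σ m ≠ m := fun h => d2 (by rw [h, h])
  have d3 : M.σ (M.σ (M.σ m)) ≠ m := by
    intro h
    apply d1
    have := congrArg M.σ h
    rw [d4] at this
    exact this.symm
  exact ⟨d1, d2, d3, fun h => d1 (M.σ.injective h), fun h => d2 (M.σ.injective h),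
    fun h => d1 (M.σ.injective (M.σ.injective h))⟩

theorem a'_p : M.a' m (M.α m) = M.α (M.σ (M.σ (M.σ m))) := if_pos rfl

theorem a'_s (hm : M.vert m = none) : M.a' m (M.α (M.σ (M.σ (M.σ m)))) = M.α m := by
  obtain ⟨h1, h2, h3, h4, h5, h6⟩ := M.dist hm
  unfold a'
  rw [if_neg (fun h => h3 (M.α.injective h)), if_pos rfl]

theorem a'_q (hm : M.vert m = none) : M.a' m (M.α (M.σ m)) = M.α (M.σ (M.σ m)) := by
  obtain ⟨h1, h2, h3, h4, h5, h6⟩ := M.dist hm
  unfold a'
  rw [if_neg (fun h => h1 (M.α.injective h)), if_neg (fun h => h5 (M.α.injective h).symm),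
    if_pos rfl]

theorem a'_r (hm : M.vert m = none) : M.a' m (M.α (M.σ (M.σ m))) = M.α (M.σ m) := by
  obtain ⟨h1, h2, h3, h4, h5, h6⟩ := M.dist hm
  unfold a'
  rw [if_neg (fun h => h2 (M.α.injective h)), if_neg (fun h => h6 (M.α.injective h).symm),
    if_neg (fun h => h4 (M.α.injective h)), if_pos rfl]

theorem a'_other {d : M.D} (hd : ¬ M.X m (M.α d)) : M.a' m d = M.α d := by
  unfold X at hd
  push Not at hd
  unfold a'
  rw [if_neg, if_neg, if_neg, if_neg]
  · rintro rfl; exact hd.2.2.1 (M.αα _)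
  · rintro rfl; exact hd.2.1 (M.αα _)
  · rintro rfl; exact hd.2.2.2 (M.αα _)
  · rintro rfl; exact hd.1 (M.αα _)

theorem a'_cases (d : M.D) : d = M.α m ∨ d = M.α (M.σ m) ∨ d = M.α (M.σ (M.σ m)) ∨
    d = M.α (M.σ (M.σ (M.σ m))) ∨ ¬ M.X m (M.α d) := by
  by_cases h : M.X m (M.α d)
  · rcases h with h | h | h | h
    · left; rw [← h, M.αα]
    · right; left; rw [← h, M.αα]
    · right; right; left; rw [← h, M.αα]
    · right; right; right; left; rw [← h, M.αα]
  · right; right; right; right; exact h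

theorem a'_not_X (hm : M.vert m = none) (d : M.D) : ¬ M.X m (M.a' m d) := by
  rcases M.a'_cases (m := m) d with rfl | rfl | rfl | rfl | h
  · rw [M.a'_p]
    exact M.α_start_not_X hm (by rw [M.vert_σ, M.vert_σ, M.vert_σ, hm])
  · rw [M.a'_q hm]
    exact M.α_start_not_X hm (by rw [M.vert_σ, M.vert_σ, hm])
  · rw [M.a'_r hm]
    exact M.α_start_not_X hm (by rw [M.vert_σ, hm])
  · rw [M.a'_s hm]
    exact M.α_start_not_X hm hm
  · rw [M.a'_other h]
    exact h

theorem a'_a' (hm : M.vert m = none) {d : M.D} (hd : ¬ M.X m d) : M.a' m (M.a' m d) = d := by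
  rcases M.a'_cases (m := m) d with rfl | rfl | rfl | rfl | h
  · rw [M.a'_p, M.a'_s hm]
  · rw [M.a'_q hm, M.a'_r hm]
  · rw [M.a'_r hm, M.a'_q hm]
  · rw [M.a'_s hm, M.a'_p]
  · rw [M.a'_other h, M.a'_other (by rw [M.αα]; exact hd), M.αα]

theorem a'_ne (hm : M.vert m = none) (d : M.D) : M.a' m d ≠ d := by
  obtain ⟨h1, h2, h3, h4, h5, h6⟩ := M.dist hm
  rcases M.a'_cases (m := m) d with rfl | rfl | rfl | rfl | h
  · rw [M.a'_p]
    exact fun h => h3 (M.α.injective h)
  · rw [M.a'_q hm]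
    exact fun h => h4 (M.α.injective h)
  · rw [M.a'_r hm]
    exact fun h => h4 (M.α.injective h).symm
  · rw [M.a'_s hm]
    exact fun h => h3 (M.α.injective h).symm
  · rw [M.a'_other h]
    exact M.α_ne d

theorem comp_a' (hm : M.vert m = none) (d : M.D) : M.comp (M.a' m d) = M.comp d := by
  rcases M.a'_cases (m := m) d with rfl | rfl | rfl | rfl | h
  · rw [M.a'_p]
    simp only [M.cα, M.cσ]
  · rw [M.a'_q hm]
    simp only [M.cα, M.cσ]
  · rw [M.a'_r hm]
    simp only [M.cα, M.cσ]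
  · rw [M.a'_s hm]
    simp only [M.cα, M.cσ]
  · rw [M.a'_other h, M.cα]

theorem fσ' (d : M.D) : M.f (M.σ d) = M.f (M.α d) := by
  have := M.fσ (M.α d)
  rwa [M.αα] at this

/-- The merging of two faces. -/
noncomputable def g (m : M.D) (x : M.F) : M.F :=
  if x = M.f (M.α (M.σ (M.σ m))) then M.f (M.α m) else x

theorem g_same : M.g m (M.f (M.α (M.σ (M.σ m)))) = M.g m (M.f (M.α m)) := by
  unfold g
  rw [if_pos rfl]
  split_ifs <;> rfl

theorem g_face (hm : M.vert m = none) {d : M.D} :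
    M.g m (M.f (M.σ (M.a' m d))) = M.g m (M.f d) := by
  rcases M.a'_cases (m := m) d with rfl | rfl | rfl | rfl | h
  · -- `P ↦ σ S`, in the face of `R`
    rw [M.a'_p]
    have : M.f (M.σ (M.α (M.σ (M.σ (M.σ m))))) = M.f (M.α (M.σ (M.σ m))) := by
      rw [M.fσ, M.fσ']
    rw [this, M.g_same]
  · rw [M.a'_q hm]
    have : M.f (M.σ (M.α (M.σ (M.σ m)))) = M.f (M.α (M.σ m)) := by
      rw [M.fσ, M.fσ']
    rw [this]
  · rw [M.a'_r hm]
    have : M.f (M.σ (M.α (M.σ m))) = M.f (M.α m) := by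
      rw [M.fσ, M.fσ']
    rw [this, M.g_same]
  · rw [M.a'_s hm]
    have : M.f (M.σ (M.α m)) = M.f (M.α (M.σ (M.σ (M.σ m)))) := by
      rw [M.fσ, ← M.fσ', M.mid4 m hm]
    rw [this]
  · rw [M.a'_other h, M.fσ]

/-- The remaining darts. -/
def D' (m : M.D) : Type := {d : M.D // ¬ M.X m d}

noncomputable instance : Fintype (M.D' m) := by
  unfold D'
  infer_instance

/-- Every value of a function constant along `f` is taken on the remaining darts. -/
theorem exists_face (hm : M.vert m = none) (x : M.F) : ∃ d : M.D' m, M.f d.1 = x := by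
  obtain ⟨d, rfl⟩ := M.f_surj x
  by_cases hd : M.X m d
  · have hd0 := M.vert_of_X hm hd
    -- `d = σ e` with `e` in the crossing, and `f (σ e) = f (α e)`
    refine ⟨⟨M.α (M.σ.symm d), M.α_start_not_X hm ?_⟩, ?_⟩
    · rw [← M.vert_σ, Equiv.apply_symm_apply, hd0]
    · change M.f (M.α (M.σ.symm d)) = M.f d
      rw [← M.fσ', Equiv.apply_symm_apply]
  · exact ⟨⟨d, hd⟩, rfl⟩

theorem card_F (hm : M.vert m = none) :
    Fintype.card M.F ≤ Fintype.card {y : M.F // ∃ d : M.D' m, M.g m (M.f d.1) = y} + 1 := by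
  rw [← Fintype.card_option]
  let j : M.F → Option {y : M.F // ∃ d : M.D' m, M.g m (M.f d.1) = y} := fun x =>
    if h : x = M.f (M.α (M.σ (M.σ m))) then none else
      some ⟨x, by
        obtain ⟨d, hd⟩ := M.exists_face hm x
        refine ⟨d, ?_⟩
        rw [hd]
        exact if_neg h⟩
  apply Fintype.card_le_of_injective j
  intro x y hxy
  by_cases hx : x = M.f (M.α (M.σ (M.σ m)))
  · by_cases hy : y = M.f (M.α (M.σ (M.σ m)))
    · rw [hx, hy]
    · have e1 : j x = none := dif_pos hx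
      have e2 : j y = some _ := dif_neg hy
      rw [e1, e2] at hxy
      exact absurd hxy (by simp)
  · by_cases hy : y = M.f (M.α (M.σ (M.σ m)))
    · have e1 : j y = none := dif_pos hy
      have e2 : j x = some _ := dif_neg hx
      rw [e1, e2] at hxy
      exact absurd hxy (by simp)
    · have e1 : j x = some _ := dif_neg hx
      have e2 : j y = some _ := dif_neg hy
      rw [e1, e2] at hxy
      exact congrArg Subtype.val (Option.some.inj hxy)

theorem card_V (hm : M.vert m = none) :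
    Fintype.card M.V ≤ Fintype.card {x : M.V // ∃ d : M.D' m, M.v d.1 = x} + 1 := by
  rw [← Fintype.card_option]
  let j : M.V → Option {x : M.V // ∃ d : M.D' m, M.v d.1 = x} := fun x =>
    if h : ∃ d : M.D' m, M.v d.1 = x then some ⟨x, h⟩ else none
  have hnone : ∀ x, ¬ (∃ d : M.D' m, M.v d.1 = x) → x = M.v m := by
    intro x hx
    obtain ⟨d, rfl⟩ := M.v_surj x
    have hd : M.X m d := by
      by_contra h
      exact hx ⟨⟨d, h⟩, rfl⟩
    rcases hd with rfl | rfl | rfl | rfl
    · rfl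
    · rw [M.vσ]
    · rw [M.vσ, M.vσ]
    · rw [M.vσ, M.vσ, M.vσ]
  apply Fintype.card_le_of_injective j
  intro x y hxy
  by_cases hx : ∃ d : M.D' m, M.v d.1 = x
  · by_cases hy : ∃ d : M.D' m, M.v d.1 = y
    · have e1 : j x = some _ := dif_pos hx
      have e2 : j y = some _ := dif_pos hy
      rw [e1, e2] at hxy
      exact congrArg Subtype.val (Option.some.inj hxy)
    · have e1 : j x = some _ := dif_pos hx
      have e2 : j y = none := dif_neg hy
      rw [e1, e2] at hxy
      exact absurd hxy (by simp)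
  · by_cases hy : ∃ d : M.D' m, M.v d.1 = y
    · have e1 : j y = some _ := dif_pos hy
      have e2 : j x = none := dif_neg hx
      rw [e1, e2] at hxy
      exact absurd hxy (by simp)
    · rw [hnone x hx, hnone y hy]

theorem card_D (hm : M.vert m = none) :
    Fintype.card (M.D' m) + 4 = Fintype.card M.D := by
  obtain ⟨h1, h2, h3, h4, h5, h6⟩ := M.dist hm
  have e1 : Fintype.card (M.D' m) = (Finset.univ.filter (fun d => ¬ M.X m d)).card :=
    Fintype.card_subtype _
  have e2 : (Finset.univ.filter (fun d => M.X m d)).card = 4 := by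
    have : Finset.univ.filter (fun d => M.X m d) =
        {m, M.σ m, M.σ (M.σ m), M.σ (M.σ (M.σ m))} := by
      ext d
      rw [Finset.mem_filter, Finset.mem_insert, Finset.mem_insert, Finset.mem_insert,
        Finset.mem_singleton]
      exact ⟨fun h => h.2, fun h => ⟨Finset.mem_univ _, h⟩⟩
    rw [this, Finset.card_insert_of_notMem, Finset.card_insert_of_notMem,
      Finset.card_insert_of_notMem, Finset.card_singleton]
    · rw [Finset.mem_singleton]
      exact h6.symm
    · rw [Finset.mem_insert, Finset.mem_singleton]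
      rintro (h | h)
      · exact h4 h.symm
      · exact h5 h.symm
    · rw [Finset.mem_insert, Finset.mem_insert, Finset.mem_singleton]
      rintro (h | h | h)
      · exact h1 h.symm
      · exact h2 h.symm
      · exact h3 h.symm
  have e3 := Finset.card_filter_add_card_filter_not (s := (Finset.univ : Finset M.D))
    (fun d => M.X m d)
  rw [Finset.card_univ] at e3
  omega

/-- The new edge involution on the remaining darts. -/
noncomputable def α₁ (hm : M.vert m = none) : Equiv.Perm (M.D' m) where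
  toFun d := ⟨M.a' m d.1, M.a'_not_X hm d.1⟩
  invFun d := ⟨M.a' m d.1, M.a'_not_X hm d.1⟩
  left_inv d := Subtype.ext (M.a'_a' hm d.2)
  right_inv d := Subtype.ext (M.a'_a' hm d.2)

/-- The rotation on the remaining darts. -/
noncomputable def σ₁ (hm : M.vert m = none) : Equiv.Perm (M.D' m) :=
  M.σ.subtypePerm (p := fun d => ¬ M.X m d) (M.X_σ hm)

theorem opp₁ (hm : M.vert m = none) (hadj : M.vert (M.α (M.σ m)) = M.vert (M.α m))
    (d : M.D' m) :
    M.vert (opp (M.σ₁ hm) (M.α₁ hm) (fun d => M.vert d.1) d).1 =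
      M.vert (opp M.σ M.α M.vert (Equiv.swap (M.α m) (M.α (M.σ m)) d.1)) := by
  obtain ⟨h1, h2, h3, h4, h5, h6⟩ := M.dist hm
  have v1 : M.vert (M.σ m) = none := by rw [M.vert_σ, hm]
  have v2 : M.vert (M.σ (M.σ m)) = none := by rw [M.vert_σ, v1]
  have v3 : M.vert (M.σ (M.σ (M.σ m))) = none := by rw [M.vert_σ, v2]
  obtain ⟨d, hd⟩ := d
  have hstart : ∀ x (hx : ¬ M.X m x), M.vert (M.a' m x) ≠ none →
      M.vert (opp (M.σ₁ hm) (M.α₁ hm) (fun d => M.vert d.1) ⟨x, hx⟩).1 =
        M.vert (M.a' m x) := by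
    intro x hx hv
    unfold opp
    rw [if_pos]
    · rfl
    · exact Option.isSome_iff_ne_none.mpr hv
  have hcr : ∀ x, M.vert x = none → opp M.σ M.α M.vert (M.α x) = M.α (M.σ (M.σ x)) := by
    intro x hx
    unfold opp
    rw [M.αα, if_neg]
    rw [hx]
    simp
  rcases M.a'_cases (m := m) d with rfl | rfl | rfl | rfl | h
  · rw [hstart _ hd (by rw [M.a'_p]; exact M.midα _ v3), M.a'_p, Equiv.swap_apply_left,
      hcr _ v1]
  · rw [hstart _ hd (by rw [M.a'_q hm]; exact M.midα _ v2), M.a'_q hm,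
      Equiv.swap_apply_right, hcr _ hm]
  · rw [hstart _ hd (by rw [M.a'_r hm]; exact M.midα _ v1), M.a'_r hm,
      Equiv.swap_apply_of_ne_of_ne (fun h => h2 (M.α.injective h))
        (fun h => h4 (M.α.injective h)), hcr _ v2, M.mid4 m hm, hadj]
  · rw [hstart _ hd (by rw [M.a'_s hm]; exact M.midα _ hm), M.a'_s hm,
      Equiv.swap_apply_of_ne_of_ne (fun h => h3 (M.α.injective h))
        (fun h => h5 (M.α.injective h)), hcr _ v3, M.mid4 m hm, hadj]
  · have hne1 : d ≠ M.α m := by
      rintro rfl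
      exact h (Or.inl (M.αα _))
    have hne2 : d ≠ M.α (M.σ m) := by
      rintro rfl
      exact h (Or.inr (Or.inl (M.αα _)))
    rw [Equiv.swap_apply_of_ne_of_ne hne1 hne2]
    by_cases hv : M.vert (M.α d) = none
    · have e1 : opp M.σ M.α M.vert d = M.α (M.σ (M.σ (M.α d))) := by
        unfold opp
        rw [if_neg]
        rw [hv]
        simp
      have e2 : (opp (M.σ₁ hm) (M.α₁ hm) (fun d => M.vert d.1) ⟨d, hd⟩).1 =
          M.a' m (M.σ (M.σ (M.a' m d))) := by
        unfold opp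
        rw [if_neg]
        · rfl
        · change ¬ (M.vert (M.a' m d)).isSome = true
          rw [M.a'_other h, hv]
          simp
      rw [e1, e2, M.a'_other h, M.a'_other]
      apply M.α_start_not_X hm
      rw [M.vert_σ, M.vert_σ, hv]
    · rw [hstart d hd (by rw [M.a'_other h]; exact hv), M.a'_other h]
      unfold opp
      rw [if_pos (Option.isSome_iff_ne_none.mpr hv)]

theorem vert_swap (hadj : M.vert (M.α (M.σ m)) = M.vert (M.α m)) (d : M.D) :
    M.vert (Equiv.swap (M.α m) (M.α (M.σ m)) d) = M.vert d := by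
  by_cases h1 : d = M.α m
  · rw [h1, Equiv.swap_apply_left, hadj]
  · by_cases h2 : d = M.α (M.σ m)
    · rw [h2, Equiv.swap_apply_right, hadj]
    · rw [Equiv.swap_apply_of_ne_of_ne h1 h2]

theorem conn₁ (hm : M.vert m = none) (hadj : M.vert (M.α (M.σ m)) = M.vert (M.α m))
    (P : M.D' m → Prop) (hα : ∀ d, P d → P (M.α₁ hm d)) (hσ : ∀ d, P d → P (M.σ₁ hm d))
    (d e : M.D' m) (hde : M.comp d.1 = M.comp e.1) (hd : P d) : P e := by
  have v1 : M.vert (M.σ m) = none := by rw [M.vert_σ, hm]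
  have v2 : M.vert (M.σ (M.σ m)) = none := by rw [M.vert_σ, v1]
  have v3 : M.vert (M.σ (M.σ (M.σ m))) = none := by rw [M.vert_σ, v2]
  have n0 := M.α_start_not_X hm hm
  have n1 := M.α_start_not_X hm v1
  have n2 := M.α_start_not_X hm v2
  have n3 := M.α_start_not_X hm v3
  have hcyc : ∀ x y : M.D' m, M.vert x.1 ≠ none → M.vert y.1 = M.vert x.1 → P x → P y := by
    intro x y hx hxy hPx
    have h := M.cyc x.1 y.1 hx hxy
    have h' : (M.σ₁ hm).SameCycle x y :=
      Equiv.Perm.sameCycle_subtypePerm.mpr h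
    obtain ⟨i, hi⟩ := h'.exists_nat_pow_eq
    rw [← hi]
    clear hi h' h hxy
    induction i with
    | zero => exact hPx
    | succ i ih =>
      rw [pow_succ', Equiv.Perm.mul_apply]
      exact hσ _ ih
  -- the four darts around the crossing behave alike
  have hPQ : P ⟨M.α m, n0⟩ → P ⟨M.α (M.σ m), n1⟩ := hcyc _ _ (M.midα _ hm) hadj
  have hQP : P ⟨M.α (M.σ m), n1⟩ → P ⟨M.α m, n0⟩ := hcyc _ _ (M.midα _ v1) hadj.symm
  have hPS : P ⟨M.α m, n0⟩ → P ⟨M.α (M.σ (M.σ (M.σ m))), n3⟩ := by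
    intro h
    have := hα _ h
    have he : M.α₁ hm ⟨M.α m, n0⟩ = ⟨M.α (M.σ (M.σ (M.σ m))), n3⟩ := Subtype.ext M.a'_p
    rwa [he] at this
  have hSP : P ⟨M.α (M.σ (M.σ (M.σ m))), n3⟩ → P ⟨M.α m, n0⟩ := by
    intro h
    have := hα _ h
    have he : M.α₁ hm ⟨M.α (M.σ (M.σ (M.σ m))), n3⟩ = ⟨M.α m, n0⟩ := Subtype.ext (M.a'_s hm)
    rwa [he] at this
  have hQR : P ⟨M.α (M.σ m), n1⟩ → P ⟨M.α (M.σ (M.σ m)), n2⟩ := by
    intro h
    have := hα _ h
    have he : M.α₁ hm ⟨M.α (M.σ m), n1⟩ = ⟨M.α (M.σ (M.σ m)), n2⟩ := Subtype.ext (M.a'_q hm)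
    rwa [he] at this
  have hRQ : P ⟨M.α (M.σ (M.σ m)), n2⟩ → P ⟨M.α (M.σ m), n1⟩ := by
    intro h
    have := hα _ h
    have he : M.α₁ hm ⟨M.α (M.σ (M.σ m)), n2⟩ = ⟨M.α (M.σ m), n1⟩ := Subtype.ext (M.a'_r hm)
    rwa [he] at this
  let Ph : M.D → Prop := fun x => if h : ¬ M.X m x then P ⟨x, h⟩ else P ⟨M.α m, n0⟩
  have Ph1 : ∀ x (h : ¬ M.X m x), Ph x ↔ P ⟨x, h⟩ := by
    intro x h
    change (if h : ¬ M.X m x then P ⟨x, h⟩ else P ⟨M.α m, n0⟩) ↔ _
    rw [dif_pos h]
  have Ph2 : ∀ x (_ : M.X m x), Ph x ↔ P ⟨M.α m, n0⟩ := by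
    intro x h
    change (if h : ¬ M.X m x then P ⟨x, h⟩ else P ⟨M.α m, n0⟩) ↔ _
    rw [dif_neg (not_not.mpr h)]
  have key := M.conn Ph ?_ ?_ d.1 e.1 hde ((Ph1 d.1 d.2).mpr hd)
  · exact (Ph1 e.1 e.2).mp key
  · intro x hx
    by_cases hX : M.X m x
    · have h0 := (Ph2 x hX).mp hx
      rcases hX with rfl | rfl | rfl | rfl
      · exact (Ph1 _ n0).mpr h0
      · exact (Ph1 _ n1).mpr (hPQ h0)
      · exact (Ph1 _ n2).mpr (hQR (hPQ h0))
      · exact (Ph1 _ n3).mpr (hPS h0)
    · have h0 := (Ph1 x hX).mp hx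
      rcases M.a'_cases (m := m) x with rfl | rfl | rfl | rfl | h
      · rw [M.αα]
        exact (Ph2 _ (Or.inl rfl)).mpr h0
      · rw [M.αα]
        exact (Ph2 _ (Or.inr (Or.inl rfl))).mpr (hQP h0)
      · rw [M.αα]
        exact (Ph2 _ (Or.inr (Or.inr (Or.inl rfl)))).mpr (hQP (hRQ h0))
      · rw [M.αα]
        exact (Ph2 _ (Or.inr (Or.inr (Or.inr rfl)))).mpr (hSP h0)
      · rw [Ph1 _ h]
        have := hα _ h0
        have he : M.α₁ hm ⟨x, hX⟩ = ⟨M.α x, h⟩ := Subtype.ext (M.a'_other h)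
        rwa [he] at this
  · intro x hx
    by_cases hX : M.X m x
    · have h0 := (Ph2 x hX).mp hx
      have hX' : M.X m (M.σ x) := by
        by_contra h
        exact (M.X_σ hm x).mp h hX
      exact (Ph2 _ hX').mpr h0
    · have h0 := (Ph1 x hX).mp hx
      exact (Ph1 _ ((M.X_σ hm x).mpr hX)).mpr (hσ _ h0)

/-- Redrawing at a crossing of two edges with a common end. -/
theorem step (hm : M.vert m = none) (hadj : M.vert (M.α (M.σ m)) = M.vert (M.α m)) :
    ∃ M' : PDraw H, Fintype.card M'.D < Fintype.card M.D := by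
  have hD := M.card_D hm
  have hV := M.card_V hm
  have hF := M.card_F hm
  have hE := M.euler
  refine ⟨{
    D := M.D' m
    V := {x : M.V // ∃ d : M.D' m, M.v d.1 = x}
    F := {y : M.F // ∃ d : M.D' m, M.g m (M.f d.1) = y}
    C := M.C
    finD := inferInstance
    finV := inferInstance
    finF := inferInstance
    finC := inferInstance
    σ := M.σ₁ hm
    α := M.α₁ hm
    v := fun d => ⟨M.v d.1, d, rfl⟩
    f := fun d => ⟨M.g m (M.f d.1), d, rfl⟩
    comp := fun d => M.comp d.1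
    αα := fun d => Subtype.ext (M.a'_a' hm d.2)
    α_ne := fun d h => M.a'_ne hm d.1 (congrArg Subtype.val h)
    vσ := fun d => Subtype.ext (M.vσ d.1)
    fσ := fun d => Subtype.ext (M.g_face hm)
    v_surj := by
      rintro ⟨x, d, rfl⟩
      exact ⟨d, rfl⟩
    f_surj := by
      rintro ⟨x, d, rfl⟩
      exact ⟨d, rfl⟩
    c_surj := ?_
    cα := fun d => M.comp_a' hm d.1
    cσ := fun d => M.cσ d.1
    conn := M.conn₁ hm hadj
    euler := by omega
    vert := fun d => M.vert d.1
    vert_σ := fun d => M.vert_σ d.1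
    cyc := fun d e hd he => Equiv.Perm.sameCycle_subtypePerm.mpr (M.cyc d.1 e.1 hd he)
    mid4 := fun d hd => Subtype.ext (M.mid4 d.1 hd)
    mid2 := fun d hd h => M.mid2 d.1 hd (congrArg Subtype.val h)
    midα := ?_
    adj_iff := ?_
    unique := ?_ }, ?_⟩
  · intro c
    obtain ⟨d, rfl⟩ := M.c_surj c
    by_cases hX : M.X m d
    · exact ⟨⟨M.α d, M.α_start_not_X hm (M.vert_of_X hm hX)⟩, M.cα d⟩
    · exact ⟨⟨d, hX⟩, rfl⟩
  · intro d hd
    change M.vert (M.a' m d.1) ≠ none
    have hd' : M.vert d.1 = none := hd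
    rw [M.a'_other (M.α_start_not_X hm hd')]
    exact M.midα _ hd'
  · intro u w
    rw [M.adj_iff]
    constructor
    · rintro ⟨d, hd1, hd2⟩
      have hX : ¬ M.X m (Equiv.swap (M.α m) (M.α (M.σ m)) d) := by
        intro h
        have h1 := M.vert_of_X hm h
        rw [M.vert_swap hadj, hd1] at h1
        exact absurd h1 (by simp)
      refine ⟨⟨_, hX⟩, ?_, ?_⟩
      · change M.vert (Equiv.swap (M.α m) (M.α (M.σ m)) d) = some u
        rw [M.vert_swap hadj, hd1]
      · have h1 := M.opp₁ hm hadj ⟨_, hX⟩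
        rw [h1]
        change M.vert (opp M.σ M.α M.vert (Equiv.swap (M.α m) (M.α (M.σ m))
          (Equiv.swap (M.α m) (M.α (M.σ m)) d))) = some w
        rw [Equiv.swap_apply_self, hd2]
    · rintro ⟨d, hd1, hd2⟩
      refine ⟨Equiv.swap (M.α m) (M.α (M.σ m)) d.1, ?_, ?_⟩
      · rw [M.vert_swap hadj]
        exact hd1
      · rw [← M.opp₁ hm hadj d]
        exact hd2
  · intro d e hd he hde
    rw [M.opp₁ hm hadj, M.opp₁ hm hadj] at hde
    have h1 := M.unique (Equiv.swap (M.α m) (M.α (M.σ m)) d.1)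
      (Equiv.swap (M.α m) (M.α (M.σ m)) e.1) (by rw [M.vert_swap hadj]; exact hd)
      (by rw [M.vert_swap hadj, M.vert_swap hadj]; exact he) hde
    exact Subtype.ext ((Equiv.swap _ _).injective h1)
  · change Fintype.card (M.D' m) < _
    omega

/-- A drawing without crossings of edges with a common end. -/
theorem exists_draw : ∀ (n : ℕ) (M : PDraw H), Fintype.card M.D = n → Nonempty (Draw H) := by
  intro n
  induction n using Nat.strong_induction_on with
  | _ n ih =>
    intro M hn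
    by_cases h : ∀ d, M.vert d = none → M.vert (M.α (M.σ d)) ≠ M.vert (M.α d)
    · exact ⟨{
        D := M.D
        V := M.V
        F := M.F
        C := M.C
        finD := M.finD
        finV := M.finV
        finF := M.finF
        finC := M.finC
        σ := M.σ
        α := M.α
        v := M.v
        f := M.f
        comp := M.comp
        αα := M.αα
        α_ne := M.α_ne
        vσ := M.vσ
        fσ := M.fσ
        v_surj := M.v_surj
        f_surj := M.f_surj
        c_surj := M.c_surj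
        conn := M.conn
        euler := M.euler
        vert := M.vert
        vert_σ := M.vert_σ
        cyc := M.cyc
        mid4 := M.mid4
        mid2 := M.mid2
        midα := M.midα
        mid_ne := h
        adj_iff := M.adj_iff
        unique := M.unique }⟩
    · push Not at h
      obtain ⟨m, hm, hadj⟩ := h
      obtain ⟨M', hM'⟩ := M.step hm hadj
      exact ih (Fintype.card M'.D) (by omega) M' rfl

end PDraw

end Pool.Agent.R31.OnePlane
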