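import Mathlib

/-!
# Edmonds' partition theorem for abstract rank functions
-/

set_option autoImplicit false

namespace Pool.Agent.R31.Partition

variable {α : Type} [DecidableEq α]

/-- Monotone, submodular functions with unit increase. -/
structure IsRank (r : Finset α → ℕ) : Prop where
  mono : ∀ A B, A ⊆ B → r A ≤ r B
  submod : ∀ A B, r (A ∪ B) + r (A ∩ B) ≤ r A + r B
  unit : ∀ A a, r (insert a A) ≤ r A + 1

theorem IsRank.contract {r : Finset α → ℕ} (h : IsRank r) (C : Finset α) :
    IsRank (fun A => r (C ∪ A)) where
  mono A B hAB := h.mono _ _ (Finset.union_subset_union_right hAB)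
  submod A B := by
    have h1 := h.submod (C ∪ A) (C ∪ B)
    have e1 : (C ∪ A) ∪ (C ∪ B) = C ∪ (A ∪ B) := by
      ext x; simp only [Finset.mem_union]; tauto
    have e2 : (C ∪ A) ∩ (C ∪ B) = C ∪ (A ∩ B) := by
      ext x; simp only [Finset.mem_union, Finset.mem_inter]; tauto
    rw [e1, e2] at h1
    exact h1
  unit A a := by
    have := h.unit (C ∪ A) a
    rw [← Finset.union_insert] at this
    exact this

/-- Edmonds' partition theorem. -/
theorem partition {ι : Type} [Fintype ι] [Nonempty ι] [DecidableEq ι] (n : ℕ) :
    ∀ (F : Finset α) (r : ι → Finset α → ℕ), (∀ i, IsRank (r i)) → F.card = n →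
    (∀ F' ⊆ F, (∑ i, r i ∅) + F'.card ≤ ∑ i, r i F') →
    ∃ f : α → ι, ∀ i, r i (F.filter (fun a => f a = i)) =
      r i ∅ + (F.filter (fun a => f a = i)).card := by
  induction n using Nat.strong_induction_on with
  | _ n ih =>
  intro F r hr hn hF
  by_cases hemp : F = ∅
  · subst hemp
    refine ⟨fun _ => Classical.arbitrary ι, fun i => ?_⟩
    rw [Finset.filter_empty, Finset.card_empty, add_zero]
  by_cases htight : ∃ F' ⊆ F, F'.Nonempty ∧ F' ≠ F ∧ ∑ i, r i F' ≤ (∑ i, r i ∅) + F'.card
  · obtain ⟨F', hsub, hne', hneF, htle⟩ := htight
    have hss : F' ⊂ F := Finset.ssubset_iff_subset_ne.2 ⟨hsub, hneF⟩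
    have hc1 : F'.card < n := hn ▸ Finset.card_lt_card hss
    have hc2 : (F \ F').card < n := by
      rw [Finset.card_sdiff_of_subset hsub, hn]
      have := Finset.card_pos.2 hne'
      omega
    have hteq : ∑ i, r i F' = (∑ i, r i ∅) + F'.card := le_antisymm htle (hF F' hsub)
    obtain ⟨f1, hf1⟩ := ih F'.card hc1 F' r hr rfl (fun G hG => hF G (hG.trans hsub))
    obtain ⟨f2, hf2⟩ := ih (F \ F').card hc2 (F \ F') (fun i A => r i (F' ∪ A))
      (fun i => (hr i).contract F') rfl (by
        intro G hG
        have h3 : (F' ∪ G).card = F'.card + G.card := by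
          apply Finset.card_union_of_disjoint
          rw [Finset.disjoint_left]
          intro a ha hb
          exact (Finset.mem_sdiff.1 (hG hb)).2 ha
        have h4 := hF (F' ∪ G) (Finset.union_subset hsub (hG.trans Finset.sdiff_subset))
        simp only [Finset.union_empty]
        rw [hteq]
        omega)
    refine ⟨fun a => if a ∈ F' then f1 a else f2 a, fun i => ?_⟩
    set f : α → ι := fun a => if a ∈ F' then f1 a else f2 a with hf
    have hfil : F.filter (fun a => f a = i) =
        F'.filter (fun a => f1 a = i) ∪ (F \ F').filter (fun a => f2 a = i) := by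
      ext a
      simp only [Finset.mem_filter, Finset.mem_union, Finset.mem_sdiff, hf]
      by_cases ha : a ∈ F'
      · simp [ha, hsub ha]
      · simp [ha]
    have hdis : Disjoint (F'.filter (fun a => f1 a = i)) ((F \ F').filter (fun a => f2 a = i)) := by
      rw [Finset.disjoint_left]
      intro a ha hb
      exact (Finset.mem_sdiff.1 (Finset.mem_filter.1 hb).1).2 (Finset.mem_filter.1 ha).1
    -- the first part spans
    have hspan : ∀ i, r i (F'.filter (fun a => f1 a = i)) = r i F' := by
      have hle : ∀ i, r i (F'.filter (fun a => f1 a = i)) ≤ r i F' :=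
        fun i => (hr i).mono _ _ (Finset.filter_subset _ _)
      have hsum : ∑ i, r i (F'.filter (fun a => f1 a = i)) = ∑ i, r i F' := by
        rw [hteq, Finset.sum_congr rfl (fun i _ => hf1 i), Finset.sum_add_distrib]
        congr 1
        have := Finset.card_eq_sum_card_fiberwise (f := f1) (s := F') (t := Finset.univ)
          (fun a _ => Finset.mem_coe.2 (Finset.mem_univ _))
        rw [this]
      have heq := (Finset.sum_eq_sum_iff_of_le (fun i _ => hle i)).1 hsum
      intro i
      exact heq i (Finset.mem_univ i)
    rw [hfil, Finset.card_union_of_disjoint hdis]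
    have h5 := hf1 i
    have h6 := hspan i
    have h7 := hf2 i
    simp only [Finset.union_empty] at h7
    set A := F'.filter (fun a => f1 a = i) with hA
    set B := (F \ F').filter (fun a => f2 a = i) with hB
    have h8 : r i (A ∪ B) = r i (F' ∪ B) := by
      apply le_antisymm
      · exact (hr i).mono _ _ (Finset.union_subset_union_left (Finset.filter_subset _ _))
      · have s1 := (hr i).submod F' (A ∪ B)
        have s2 : r i A ≤ r i (F' ∩ (A ∪ B)) := (hr i).mono _ _ (by
          intro a ha
          rw [Finset.mem_inter, Finset.mem_union]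
          exact ⟨(Finset.mem_filter.1 ha).1, Or.inl ha⟩)
        have s3 : F' ∪ (A ∪ B) = F' ∪ B := by
          rw [← Finset.union_assoc, Finset.union_eq_left.2 (Finset.filter_subset _ _)]
        rw [s3] at s1
        omega
    rw [h8, h7, ← h6, h5]
    ring
  · push Not at htight
    obtain ⟨y, hy⟩ := Finset.nonempty_iff_ne_empty.2 hemp
    obtain ⟨i0, hi0⟩ : ∃ i0, r i0 ∅ < r i0 {y} := by
      by_contra hcon
      push Not at hcon
      have h1 := hF {y} (Finset.singleton_subset_iff.2 hy)
      have h2 : ∑ i, r i {y} ≤ ∑ i, r i ∅ := Finset.sum_le_sum (fun i _ => hcon i)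
      rw [Finset.card_singleton] at h1
      omega
    have hunit : r i0 {y} = r i0 ∅ + 1 := by
      have := (hr i0).unit ∅ y
      rw [insert_empty_eq] at this
      omega
    let r' : ι → Finset α → ℕ := fun i => if i = i0 then fun A => r i ({y} ∪ A) else r i
    have hr' : ∀ i, IsRank (r' i) := by
      intro i
      by_cases hi : i = i0
      · simp only [r', if_pos hi]
        exact (hr i).contract {y}
      · simp only [r', if_neg hi]
        exact hr i
    have hr'0 : ∀ i, r' i ∅ = r i ∅ + (if i = i0 then 1 else 0) := by
      intro i
      by_cases hi : i = i0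
      · subst hi
        simp only [r', if_true, Finset.union_empty]
        exact hunit
      · simp only [r', if_neg hi, add_zero]
    have hcardy : (F.erase y).card < n := by
      rw [Finset.card_erase_of_mem hy, hn]
      have : 0 < F.card := Finset.card_pos.2 ⟨y, hy⟩
      omega
    obtain ⟨f, hf⟩ := ih _ hcardy (F.erase y) r' hr' rfl (by
      intro G hG
      have hGF : G ⊆ F := hG.trans (Finset.erase_subset _ _)
      have e1 : ∑ i, r' i ∅ = (∑ i, r i ∅) + 1 := by
        rw [Finset.sum_congr rfl (fun i _ => hr'0 i), Finset.sum_add_distrib,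
          Finset.sum_ite_eq' Finset.univ i0]
        simp
      have e2 : ∀ i, r i G ≤ r' i G := by
        intro i
        by_cases hi : i = i0
        · simp only [r', if_pos hi]
          exact (hr i).mono _ _ Finset.subset_union_right
        · simp only [r', if_neg hi]
          exact le_rfl
      rw [e1]
      by_cases hGe : G = ∅
      · subst hGe
        rw [← e1, Finset.card_empty, add_zero]
      · have hGne : G.Nonempty := Finset.nonempty_iff_ne_empty.2 hGe
        have hGneF : G ≠ F := by
          rintro rfl
          exact (Finset.mem_erase.1 (hG hy)).1 rfl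
        have h9 := htight G hGF hGne hGneF
        have h10 : ∑ i, r i G ≤ ∑ i, r' i G := Finset.sum_le_sum (fun i _ => e2 i)
        omega)
    refine ⟨fun a => if a = y then i0 else f a, fun i => ?_⟩
    have hfi := hf i
    by_cases hi : i = i0
    · subst hi
      have e3 : F.filter (fun a => (if a = y then i else f a) = i) =
          insert y ((F.erase y).filter (fun a => f a = i)) := by
        ext a
        simp only [Finset.mem_filter, Finset.mem_insert, Finset.mem_erase]
        by_cases ha : a = y
        · subst ha
          simp [hy]
        · simp [ha]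
      rw [e3, Finset.card_insert_of_notMem (by simp), Finset.insert_eq]
      have e4 : r' i ((F.erase y).filter (fun a => f a = i)) =
          r i ({y} ∪ (F.erase y).filter (fun a => f a = i)) := by
        simp only [r', if_true]
      rw [← e4, hfi, hr'0, if_pos rfl]
      ring
    · have e3 : F.filter (fun a => (if a = y then i0 else f a) = i) =
          (F.erase y).filter (fun a => f a = i) := by
        ext a
        simp only [Finset.mem_filter, Finset.mem_erase]
        by_cases ha : a = y
        · subst ha
          simp [Ne.symm hi]
        · simp [ha]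
      rw [e3]
      have e4 : r' i ((F.erase y).filter (fun a => f a = i)) =
          r i ((F.erase y).filter (fun a => f a = i)) := by
        simp only [r', if_neg hi]
      rw [← e4, hfi, hr'0, if_neg hi, add_zero]

end Pool.Agent.R31.Partition
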