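import Mathlib

/-!
# Two abstract lemmas on systems of three-element sets

`two_torsion`: relations with values in an abelian group among linearly independent laminar
three-element sets are killed by two.

`exists_basic`: a nonnegative combination can be rewritten with linearly independent support.
-/

set_option autoImplicit false

namespace Pool.Agent.R31.TwoTorsion

/-- A nonnegative rational combination of vectors can be rewritten as a positive combination of
linearly independent ones among them. -/
theorem exists_basic {τ σ : Type} [DecidableEq τ] (A : τ → σ → ℚ) :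
    ∀ (k : ℕ) (𝒯 : Finset τ), 𝒯.card ≤ k → ∀ (x : τ → ℚ), (∀ T ∈ 𝒯, 0 ≤ x T) →
      ∃ S ⊆ 𝒯, ∃ y : τ → ℚ, (∀ T ∈ S, 0 < y T) ∧
        (∀ s, ∑ T ∈ S, A T s * y T = ∑ T ∈ 𝒯, A T s * x T) ∧
        (∀ c : τ → ℚ, (∀ s, ∑ T ∈ S, A T s * c T = 0) → ∀ T ∈ S, c T = 0) := by
  intro k
  induction k with
  | zero =>
    intro 𝒯 hk x hx
    have : 𝒯 = ∅ := Finset.card_eq_zero.mp (by omega)
    subst this
    exact ⟨∅, subset_rfl, x, by simp, by simp, by simp⟩
  | succ k ih =>
    intro 𝒯 hk x hx
    -- it is enough to find a nonnegative solution with a zero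
    have step : ∀ (y : τ → ℚ) (T₁ : τ), T₁ ∈ 𝒯 → (∀ T ∈ 𝒯, 0 ≤ y T) → y T₁ = 0 →
        (∀ s, ∑ T ∈ 𝒯, A T s * y T = ∑ T ∈ 𝒯, A T s * x T) →
        ∃ S ⊆ 𝒯, ∃ y : τ → ℚ, (∀ T ∈ S, 0 < y T) ∧
        (∀ s, ∑ T ∈ S, A T s * y T = ∑ T ∈ 𝒯, A T s * x T) ∧
        (∀ c : τ → ℚ, (∀ s, ∑ T ∈ S, A T s * c T = 0) → ∀ T ∈ S, c T = 0) := by
      intro y T₁ hT₁ hy hy₁ hAy
      obtain ⟨S, hS, z, h1, h2, h3⟩ := ih (𝒯.erase T₁) (by
        rw [Finset.card_erase_of_mem hT₁]; omega) y (fun T hT => hy T (Finset.mem_of_mem_erase hT))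
      refine ⟨S, hS.trans (Finset.erase_subset _ _), z, h1, fun s => ?_, h3⟩
      rw [h2, ← hAy, ← Finset.add_sum_erase 𝒯 _ hT₁, hy₁, mul_zero, zero_add]
    by_cases h0 : ∃ T ∈ 𝒯, x T = 0
    · obtain ⟨T, hT, hxT⟩ := h0
      exact step x T hT hx hxT (fun _ => rfl)
    push Not at h0
    have hpos : ∀ T ∈ 𝒯, 0 < x T := fun T hT => lt_of_le_of_ne (hx T hT) (Ne.symm (h0 T hT))
    by_cases hind : ∀ c : τ → ℚ, (∀ s, ∑ T ∈ 𝒯, A T s * c T = 0) → ∀ T ∈ 𝒯, c T = 0
    · exact ⟨𝒯, subset_rfl, x, hpos, fun _ => rfl, hind⟩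
    push Not at hind
    obtain ⟨c₀, hc₀, T₀, hT₀, hcT₀⟩ := hind
    obtain ⟨c, hc, hcpos⟩ : ∃ c : τ → ℚ, (∀ s, ∑ T ∈ 𝒯, A T s * c T = 0) ∧ 0 < c T₀ := by
      rcases lt_or_gt_of_ne hcT₀ with h | h
      · refine ⟨fun T => - c₀ T, fun s => ?_, by simpa using h⟩
        have := hc₀ s
        simp only [mul_neg, Finset.sum_neg_distrib, this, neg_zero]
      · exact ⟨c₀, hc₀, h⟩
    obtain ⟨T₁, hT₁, hmin⟩ := Finset.exists_min_image (𝒯.filter (fun T => 0 < c T))
      (fun T => x T / c T) ⟨T₀, Finset.mem_filter.mpr ⟨hT₀, hcpos⟩⟩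
    rw [Finset.mem_filter] at hT₁
    refine step (fun T => x T - x T₁ / c T₁ * c T) T₁ hT₁.1 ?_ ?_ ?_
    · intro T hT
      by_cases hcT : 0 < c T
      · have h1 := hmin T (Finset.mem_filter.mpr ⟨hT, hcT⟩)
        rw [le_div_iff₀ hcT] at h1
        change 0 ≤ x T - x T₁ / c T₁ * c T
        linarith
      · have h1 : 0 ≤ x T₁ / c T₁ := div_nonneg (hx _ hT₁.1) hT₁.2.le
        have h2 : x T₁ / c T₁ * c T ≤ 0 := mul_nonpos_of_nonneg_of_nonpos h1 (not_lt.mp hcT)
        have h3 := hx T hT
        change 0 ≤ x T - x T₁ / c T₁ * c T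
        linarith
    · rw [div_mul_cancel₀ _ hT₁.2.ne', sub_self]
    · intro s
      have h1 : ∀ T ∈ 𝒯, A T s * (x T - x T₁ / c T₁ * c T) =
          A T s * x T - x T₁ / c T₁ * (A T s * c T) := fun T _ => by ring
      rw [Finset.sum_congr rfl h1, Finset.sum_sub_distrib, ← Finset.mul_sum, hc s, mul_zero,
        sub_zero]

section

variable {σ Φ R : Type} [DecidableEq σ] [AddCommGroup R]

theorem mod_two_cases (a : ZMod 2) : a = 0 ∨ a = 1 := by
  revert a; decide

/-- Relations among linearly independent, laminar three-element sets are killed by two. -/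
theorem two_torsion (E₀ : Finset σ) (𝒯 : Finset (Finset σ)) (Z : Finset σ → Φ → ZMod 2)
    (f₁ f₂ : σ → Φ) (hsub : ∀ T ∈ 𝒯, T ⊆ E₀) (hcard : ∀ T ∈ 𝒯, T.card = 3)
    (h1 : ∀ T ∈ 𝒯, ∀ s ∈ E₀, (s ∈ T ↔ Z T (f₁ s) ≠ Z T (f₂ s)))
    (h2 : ∀ T ∈ 𝒯, ∀ T' ∈ 𝒯, T ≠ T' → (∀ φ, Z T φ = 1 → Z T' φ ≠ 1) ∨
      (∀ φ, Z T φ = 1 → Z T' φ = 1) ∨ (∀ φ, Z T' φ = 1 → Z T φ = 1))
    (h3 : ∀ T ∈ 𝒯, ∃ φ, Z T φ = 1)
    (h4 : ∀ C ⊆ 𝒯, (∀ s ∈ E₀, (((C.filter (fun T => s ∈ T)).card : ℕ) : ZMod 2) = 0) →
      ∀ φ, ∑ T ∈ C, Z T φ = 0)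
    (h5 : ∀ T ∈ 𝒯, ∀ C ⊆ 𝒯, (∀ s ∈ E₀, s ∉ T →
        (((C.filter (fun T => s ∈ T)).card : ℕ) : ZMod 2) = 0) →
      ((∀ φ, ∑ T' ∈ C, Z T' φ = 0) ∨ (∀ φ, ∑ T' ∈ C, Z T' φ = Z T φ) ∧
        ∀ s ∈ T, (((C.filter (fun T => s ∈ T)).card : ℕ) : ZMod 2) = 1)) :
    ∀ (k : ℕ) (S : Finset (Finset σ)), S ⊆ 𝒯 → S.card ≤ k →
      (∀ c : Finset σ → ℚ, (∀ s, ∑ T ∈ S with s ∈ T, c T = 0) → ∀ T ∈ S, c T = 0) →
      ∀ a : Finset σ → R, (∀ s, ∑ T ∈ S with s ∈ T, a T = 0) → ∀ T ∈ S, a T + a T = 0 := by
  classical
  -- the order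
  let lt : Finset σ → Finset σ → Prop := fun T' T => T' ≠ T ∧ ∀ φ, Z T' φ = 1 → Z T φ = 1
  have hanti : ∀ T ∈ 𝒯, ∀ T' ∈ 𝒯, (∀ φ, Z T φ = 1 → Z T' φ = 1) →
      (∀ φ, Z T' φ = 1 → Z T φ = 1) → T = T' := by
    intro T hT T' hT' ha hb
    have hZ : ∀ φ, Z T φ = Z T' φ := by
      intro φ
      rcases mod_two_cases (Z T φ) with h | h
      · rcases mod_two_cases (Z T' φ) with h' | h'
        · rw [h, h']
        · have := hb φ h'
          rw [this] at h
          exact absurd h (by decide)
      · rw [h, ha φ h]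
    ext s
    constructor
    · intro hs
      have := hsub T hT hs
      rw [h1 T' hT' s this, ← hZ, ← hZ, ← h1 T hT s this]
      exact hs
    · intro hs
      have := hsub T' hT' hs
      rw [h1 T hT s this, hZ, hZ, ← h1 T' hT' s this]
      exact hs
  have htrans : ∀ T₁ ∈ 𝒯, ∀ T₂ ∈ 𝒯, ∀ T₃ ∈ 𝒯, lt T₁ T₂ → lt T₂ T₃ → lt T₁ T₃ := by
    intro T₁ hT₁ T₂ hT₂ T₃ hT₃ h12 h23
    refine ⟨?_, fun φ h => h23.2 φ (h12.2 φ h)⟩
    rintro rfl
    exact h12.1 (hanti _ hT₁ _ hT₂ h12.2 h23.2)
  -- at most two members of a disjoint family contain a given edge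
  have htwo : ∀ S₀ ⊆ 𝒯, (∀ T ∈ S₀, ∀ T' ∈ S₀, T ≠ T' → ∀ φ, Z T φ = 1 → Z T' φ ≠ 1) →
      ∀ s ∈ E₀, (S₀.filter (fun T => s ∈ T)).card ≤ 2 := by
    intro S₀ hS₀ hdis s hs
    have hcardB : (Finset.univ : Finset Bool).card = 2 := rfl
    rw [← hcardB]
    refine Finset.card_le_card_of_injOn (fun T => decide (Z T (f₁ s) = 1))
      (fun _ _ => Finset.mem_coe.mpr (Finset.mem_univ _)) ?_
    intro T hT T' hT' he
    simp only [Finset.coe_filter, Set.mem_ofPred_eq] at hT hT'
    by_contra hne
    have d1 := (h1 T (hS₀ hT.1) s hs).mp hT.2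
    have d2 := (h1 T' (hS₀ hT'.1) s hs).mp hT'.2
    simp only [decide_eq_decide] at he
    rcases mod_two_cases (Z T (f₁ s)) with h | h
    · rcases mod_two_cases (Z T' (f₁ s)) with h' | h'
      · have e1 : Z T (f₂ s) = 1 := by
          rcases mod_two_cases (Z T (f₂ s)) with g | g
          · rw [h, g] at d1; exact absurd rfl d1
          · exact g
        have e2 : Z T' (f₂ s) = 1 := by
          rcases mod_two_cases (Z T' (f₂ s)) with g | g
          · rw [h', g] at d2; exact absurd rfl d2
          · exact g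
        exact hdis T hT.1 T' hT'.1 hne _ e1 e2
      · have := he.mpr h'
        rw [h] at this
        exact absurd this (by decide)
    · exact hdis T hT.1 T' hT'.1 hne _ h (he.mp h)
  intro k
  induction k with
  | zero =>
    intro S hS hk _ a _ T hT
    have : S = ∅ := Finset.card_eq_zero.mp (by omega)
    rw [this] at hT
    exact absurd hT (Finset.notMem_empty _)
  | succ k ih =>
    intro S hS hk hind a ha
    by_cases hz : ∃ T ∈ S, a T = 0
    · -- drop a zero coefficient
      obtain ⟨T₀, hT₀, haT₀⟩ := hz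
      have hIH := ih (S.erase T₀) ((Finset.erase_subset _ _).trans hS)
        (by rw [Finset.card_erase_of_mem hT₀]; omega) ?_ a ?_
      · intro T hT
        by_cases h : T = T₀
        · rw [h, haT₀, add_zero]
        · exact hIH T (Finset.mem_erase.mpr ⟨h, hT⟩)
      · intro c hc T hT
        have h6 := hind (fun T => if T = T₀ then 0 else c T) ?_ T (Finset.mem_of_mem_erase hT)
        · simp only [(Finset.mem_erase.mp hT).1, if_false] at h6
          exact h6
        · intro s
          refine Eq.trans ?_ (hc s)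
          rw [Finset.sum_filter, Finset.sum_filter, ← Finset.add_sum_erase S _ hT₀]
          simp only [if_true, ite_self, zero_add]
          refine Finset.sum_congr rfl fun T hT => ?_
          rw [if_neg (Finset.mem_erase.mp hT).1]
      · intro s
        have := ha s
        rw [Finset.sum_filter, ← Finset.add_sum_erase S _ hT₀, haT₀] at this
        simp only [ite_self, zero_add] at this
        rw [Finset.sum_filter]
        exact this
    push Not at hz
    by_cases hSne : S = ∅
    · intro T hT
      rw [hSne] at hT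
      exact absurd hT (Finset.notMem_empty _)
    -- the pairing around edges outside the boundary
    have hpair : ∀ (B : Finset σ) (S₀ : Finset (Finset σ)), S₀ ⊆ S →
        (∀ T ∈ S₀, ∀ T' ∈ S₀, T ≠ T' → ∀ φ, Z T φ = 1 → Z T' φ ≠ 1) →
        (∀ s ∈ E₀, s ∉ B → ∀ T' ∈ S₀, s ∈ T' → ∀ T'' ∈ S, s ∈ T'' → T'' ∈ S₀) →
        ∀ s ∈ E₀, s ∉ B → S₀.filter (fun T => s ∈ T) = ∅ ∨ ∃ T₁ T₂, T₁ ≠ T₂ ∧
          S₀.filter (fun T => s ∈ T) = {T₁, T₂} ∧ a T₂ = - a T₁ := by
      intro B S₀ hS₀ hdis hcl s hs hsB
      by_cases hem : S₀.filter (fun T => s ∈ T) = ∅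
      · exact Or.inl hem
      right
      obtain ⟨T', hT'⟩ := Finset.nonempty_iff_ne_empty.mpr hem
      rw [Finset.mem_filter] at hT'
      have heq : S₀.filter (fun T => s ∈ T) = S.filter (fun T => s ∈ T) := by
        ext T
        simp only [Finset.mem_filter]
        exact ⟨fun h => ⟨hS₀ h.1, h.2⟩, fun h => ⟨hcl s hs hsB T' hT'.1 hT'.2 T h.1 h.2, h.2⟩⟩
      have hle := htwo S₀ (hS₀.trans hS) hdis s hs
      have hsum := ha s
      rw [← heq] at hsum
      have hne1 : (S₀.filter (fun T => s ∈ T)).card ≠ 1 := by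
        intro h
        obtain ⟨T, hT⟩ := Finset.card_eq_one.mp h
        rw [hT, Finset.sum_singleton] at hsum
        have hTm : T ∈ S₀.filter (fun T => s ∈ T) := by rw [hT]; simp
        exact hz T (hS₀ (Finset.mem_filter.mp hTm).1) hsum
      have hne0 : (S₀.filter (fun T => s ∈ T)).card ≠ 0 := by
        intro h
        exact hem (Finset.card_eq_zero.mp h)
      have h2c : (S₀.filter (fun T => s ∈ T)).card = 2 := by omega
      obtain ⟨T₁, T₂, hne, hT12⟩ := Finset.card_eq_two.mp h2c
      refine ⟨T₁, T₂, hne, hT12, ?_⟩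
      rw [hT12, Finset.sum_pair hne] at hsum
      exact (neg_eq_of_add_eq_zero_right hsum).symm
    -- the parity of the closed part
    have hCpar : ∀ (S₀ : Finset (Finset σ)) (α : R) (s : σ),
        (S₀.filter (fun T => s ∈ T) = ∅ ∨ ∃ T₁ T₂, T₁ ≠ T₂ ∧
          S₀.filter (fun T => s ∈ T) = {T₁, T₂} ∧ a T₂ = - a T₁) →
        ((((S₀.filter (fun T => a T = α ∨ a T = -α)).filter (fun T => s ∈ T)).card : ℕ) :
          ZMod 2) = 0 := by
      intro S₀ α s h
      rw [Finset.filter_comm]
      rcases h with h | ⟨T₁, T₂, hne, h, h'⟩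
      · rw [h]; simp
      · rw [h]
        by_cases hα : a T₁ = α ∨ a T₁ = -α
        · have hα' : a T₂ = α ∨ a T₂ = -α := by
            rw [h']
            rcases hα with e | e
            · right; rw [e]
            · left; rw [e, neg_neg]
          have : ({T₁, T₂} : Finset (Finset σ)).filter (fun T => a T = α ∨ a T = -α) =
              {T₁, T₂} := by
            rw [Finset.filter_eq_self]
            intro T hT
            rw [Finset.mem_insert, Finset.mem_singleton] at hT
            rcases hT with rfl | rfl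
            · exact hα
            · exact hα'
          rw [this, Finset.card_pair hne]
          rfl
        · have hα' : ¬ (a T₂ = α ∨ a T₂ = -α) := by
            rw [h']
            intro h''
            apply hα
            rcases h'' with e | e
            · right; rw [← e, neg_neg]
            · left; exact neg_injective e
          have : ({T₁, T₂} : Finset (Finset σ)).filter (fun T => a T = α ∨ a T = -α) = ∅ := by
            rw [Finset.filter_eq_empty_iff]
            intro T hT
            rw [Finset.mem_insert, Finset.mem_singleton] at hT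
            rcases hT with rfl | rfl
            · exact hα
            · exact hα'
          rw [this]
          simp
    by_cases hN : ∃ T ∈ S, ∃ T' ∈ S, lt T' T
    swap
    · -- the antichain case is impossible
      exfalso
      push Not at hN
      have hdis : ∀ T ∈ S, ∀ T' ∈ S, T ≠ T' → ∀ φ, Z T φ = 1 → Z T' φ ≠ 1 := by
        intro T hT T' hT' hne
        rcases h2 T (hS hT) T' (hS hT') hne with h | h | h
        · exact h
        · exact absurd ⟨hne, h⟩ (hN T' hT' T hT)
        · exact absurd ⟨hne.symm, h⟩ (hN T hT T' hT')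
      obtain ⟨T₀, hT₀⟩ := Finset.nonempty_iff_ne_empty.mpr hSne
      have hp := hpair ∅ S subset_rfl hdis (fun s _ _ T' _ _ T'' h _ => h)
      have hpar : ∀ s ∈ E₀, (((((S.filter (fun T => a T = a T₀ ∨ a T = -a T₀)).filter
          (fun T => s ∈ T)).card : ℕ)) : ZMod 2) = 0 := fun s hs =>
        hCpar S (a T₀) s (hp s hs (Finset.notMem_empty _))
      obtain ⟨φ, hφ⟩ := h3 T₀ (hS hT₀)
      have hzero := h4 _ ((Finset.filter_subset _ _).trans hS) hpar φ
      have hmem : T₀ ∈ S.filter (fun T => a T = a T₀ ∨ a T = -a T₀) :=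
        Finset.mem_filter.mpr ⟨hT₀, Or.inl rfl⟩
      rw [Finset.sum_eq_single_of_mem T₀ hmem] at hzero
      · rw [hφ] at hzero
        exact absurd hzero (by decide)
      · intro T hT hne
        have := hdis T₀ hT₀ T (Finset.mem_filter.mp hT).1 (Ne.symm hne) φ hφ
        rcases mod_two_cases (Z T φ) with h | h
        · exact h
        · exact absurd h this
    -- a minimal non-minimal element
    obtain ⟨T, hTN, hTmin⟩ := Finset.exists_min_image
      (S.filter (fun T => ∃ T' ∈ S, lt T' T)) (fun T => (S.filter (fun T' => lt T' T)).card)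
      (by
        obtain ⟨T, hT, h⟩ := hN
        exact ⟨T, Finset.mem_filter.mpr ⟨hT, h⟩⟩)
    rw [Finset.mem_filter] at hTN
    obtain ⟨hTS, T₀, hT₀S, hT₀T⟩ := hTN
    set S₀ := S.filter (fun T' => lt T' T) with hS₀
    have hS₀S : S₀ ⊆ S := Finset.filter_subset _ _
    have hTS₀ : T ∉ S₀ := by
      intro h
      exact (Finset.mem_filter.mp h).2.1 rfl
    have hmin : ∀ T₁ ∈ S₀, ∀ T₂ ∈ S, ¬ lt T₂ T₁ := by
      intro T₁ hT₁ T₂ hT₂ hlt
      have hT₁' := Finset.mem_filter.mp hT₁
      have hle := hTmin T₁ (Finset.mem_filter.mpr ⟨hT₁'.1, T₂, hT₂, hlt⟩)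
      have hlt' : (S.filter (fun T' => lt T' T₁)).card < S₀.card := by
        apply Finset.card_lt_card
        rw [Finset.ssubset_iff_of_subset]
        · refine ⟨T₁, hT₁, ?_⟩
          intro h
          exact (Finset.mem_filter.mp h).2.1 rfl
        · intro T' hT'
          rw [Finset.mem_filter] at hT' ⊢
          exact ⟨hT'.1, htrans _ (hS hT'.1) _ (hS hT₁'.1) _ (hS hTS) hT'.2 hT₁'.2⟩
      omega
    have hdis : ∀ T₁ ∈ S₀, ∀ T₂ ∈ S₀, T₁ ≠ T₂ → ∀ φ, Z T₁ φ = 1 → Z T₂ φ ≠ 1 := by
      intro T₁ hT₁ T₂ hT₂ hne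
      rcases h2 T₁ (hS (hS₀S hT₁)) T₂ (hS (hS₀S hT₂)) hne with h | h | h
      · exact h
      · exact absurd ⟨hne, h⟩ (hmin T₂ hT₂ T₁ (hS₀S hT₁))
      · exact absurd ⟨hne.symm, h⟩ (hmin T₁ hT₁ T₂ (hS₀S hT₂))
    -- triangles through an inner edge lie inside
    have hcl : ∀ s ∈ E₀, s ∉ T → ∀ T' ∈ S₀, s ∈ T' → ∀ T'' ∈ S, s ∈ T'' → T'' ∈ S₀ := by
      intro s hs hsT T' hT' hsT' T'' hT'' hsT''
      have hT'lt := (Finset.mem_filter.mp hT').2
      have hZT : Z T (f₁ s) = Z T (f₂ s) := by
        by_contra hne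
        exact hsT ((h1 T (hS hTS) s hs).mpr hne)
      have d' := (h1 T' (hS (hS₀S hT')) s hs).mp hsT'
      have d'' := (h1 T'' (hS hT'') s hs).mp hsT''
      have hZ1 : Z T (f₁ s) = 1 := by
        rcases mod_two_cases (Z T' (f₁ s)) with h | h
        · rcases mod_two_cases (Z T' (f₂ s)) with g | g
          · rw [h, g] at d'; exact absurd rfl d'
          · rw [hZT]; exact hT'lt.2 _ g
        · exact hT'lt.2 _ h
      have hZ2 : Z T (f₂ s) = 1 := by rw [← hZT]; exact hZ1
      have hne : T'' ≠ T := by
        rintro rfl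
        exact hsT hsT''
      rw [hS₀, Finset.mem_filter]
      refine ⟨hT'', hne, ?_⟩
      rcases h2 T'' (hS hT'') T (hS hTS) hne with h | h | h
      · exfalso
        rcases mod_two_cases (Z T'' (f₁ s)) with g | g
        · rcases mod_two_cases (Z T'' (f₂ s)) with g' | g'
          · rw [g, g'] at d''; exact d'' rfl
          · exact h _ g' hZ2
        · exact h _ g hZ1
      · exact h
      · exfalso
        apply d''
        rw [h _ hZ1, h _ hZ2]
    have hp := hpair T S₀ hS₀S hdis hcl
    have hT₀S₀ : T₀ ∈ S₀ := Finset.mem_filter.mpr ⟨hT₀S, hT₀T⟩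
    set α := a T₀ with hα
    have hpar : ∀ s ∈ E₀, s ∉ T → ((((S₀.filter (fun T => a T = α ∨ a T = -α)).filter
        (fun T => s ∈ T)).card : ℕ) : ZMod 2) = 0 := fun s hs hsT =>
      hCpar S₀ α s (hp s hs hsT)
    have hCsub : S₀.filter (fun T => a T = α ∨ a T = -α) ⊆ 𝒯 :=
      (Finset.filter_subset _ _).trans (hS₀S.trans hS)
    have hmemC : T₀ ∈ S₀.filter (fun T => a T = α ∨ a T = -α) :=
      Finset.mem_filter.mpr ⟨hT₀S₀, Or.inl rfl⟩
    have hZsum : (∀ φ, ∑ T' ∈ S₀.filter (fun T => a T = α ∨ a T = -α), Z T' φ = Z T φ) ∧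
        ∀ s ∈ T, ((((S₀.filter (fun T => a T = α ∨ a T = -α)).filter
          (fun T => s ∈ T)).card : ℕ) : ZMod 2) = 1 := by
      rcases h5 T (hS hTS) _ hCsub hpar with h | h
      · exfalso
        obtain ⟨φ, hφ⟩ := h3 T₀ (hS hT₀S)
        have hzero := h φ
        rw [Finset.sum_eq_single_of_mem T₀ hmemC] at hzero
        · rw [hφ] at hzero
          exact absurd hzero (by decide)
        · intro T' hT' hne
          have := hdis T₀ hT₀S₀ T' (Finset.mem_filter.mp hT').1 (Ne.symm hne) φ hφ
          rcases mod_two_cases (Z T' φ) with h | h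
          · exact h
          · exact absurd h this
      · exact h
    -- the closed part is everything
    have hall : ∀ T' ∈ S₀, a T' = α ∨ a T' = -α := by
      intro T' hT'
      by_contra hcon
      obtain ⟨φ, hφ⟩ := h3 T' (hS (hS₀S hT'))
      have hZ1 : Z T φ = 1 := (Finset.mem_filter.mp hT').2.2 φ hφ
      have hzero := hZsum.1 φ
      rw [Finset.sum_eq_zero, hZ1] at hzero
      · exact absurd hzero (by decide)
      · intro T'' hT''
        rw [Finset.mem_filter] at hT''
        have hne : T' ≠ T'' := by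
          rintro rfl
          exact hcon hT''.2
        have := hdis T' hT' T'' hT''.1 hne φ hφ
        rcases mod_two_cases (Z T'' φ) with h | h
        · exact h
        · exact absurd h this
    have hCeq : S₀.filter (fun T => a T = α ∨ a T = -α) = S₀ := by
      rw [Finset.filter_eq_self]
      exact hall
    have hone : ∀ s ∈ T, (S₀.filter (fun T => s ∈ T)).card = 1 := by
      intro s hs
      have hpar1 := hZsum.2 s hs
      rw [hCeq] at hpar1
      have hle := htwo S₀ (hS₀S.trans hS) hdis s (hsub T (hS hTS) hs)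
      interval_cases hc : (S₀.filter (fun T => s ∈ T)).card
      · exact absurd hpar1 (by decide)
      · rfl
      · exact absurd hpar1 (by decide)
    by_cases h2α : α + α = 0
    · -- remove the inner triangles
      have hαneg : -α = α := neg_eq_of_add_eq_zero_left h2α
      have hconst : ∀ T' ∈ S₀, a T' = α := by
        intro T' hT'
        rcases hall T' hT' with h | h
        · exact h
        · rw [h, hαneg]
      let a' : Finset σ → R := fun T' => if T' = T then a T + α else a T'
      have hTD : T ∈ S \ S₀ := Finset.mem_sdiff.mpr ⟨hTS, hTS₀⟩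
      have hIH := ih (S \ S₀) (Finset.sdiff_subset.trans hS) ?_ ?_ a' ?_
      · intro T' hT'
        by_cases h : T' ∈ S₀
        · rw [hconst T' h, h2α]
        · have := hIH T' (Finset.mem_sdiff.mpr ⟨hT', h⟩)
          by_cases hT'T : T' = T
          · rw [hT'T] at this ⊢
            simp only [a', if_true] at this
            have e : a T + a T = (a T + α + (a T + α)) - (α + α) := by abel
            rw [e, this, h2α, sub_zero]
          · simp only [a', if_neg hT'T] at this
            exact this
      · have h7 : (S \ S₀).card + S₀.card = S.card := Finset.card_sdiff_add_card_eq_card hS₀S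
        have h8 : 0 < S₀.card := Finset.card_pos.mpr ⟨T₀, hT₀S₀⟩
        omega
      · intro c hc T' hT'
        have h6 := hind (fun T' => if T' ∈ S₀ then 0 else c T') ?_ T' (Finset.mem_sdiff.mp hT').1
        · simp only [(Finset.mem_sdiff.mp hT').2, if_false] at h6
          exact h6
        · intro s
          refine Eq.trans ?_ (hc s)
          rw [Finset.sum_filter, Finset.sum_filter, ← Finset.sum_sdiff hS₀S]
          have e1 : ∑ T' ∈ S₀, (if s ∈ T' then (if T' ∈ S₀ then 0 else c T') else 0) = 0 := by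
            refine Finset.sum_eq_zero fun T' hT' => ?_
            rw [if_pos hT', ite_self]
          rw [e1, add_zero]
          refine Finset.sum_congr rfl fun T' hT' => ?_
          rw [if_neg (Finset.mem_sdiff.mp hT').2]
      · intro s
        have hs := ha s
        rw [Finset.sum_filter, ← Finset.sum_sdiff hS₀S, ← Finset.sum_filter (s := S₀)] at hs
        have e1 : ∑ T' ∈ S₀ with s ∈ T', a T' = (S₀.filter (fun T' => s ∈ T')).card • α := by
          rw [← Finset.sum_const]
          refine Finset.sum_congr rfl fun T' hT' => ?_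
          exact hconst T' (Finset.mem_filter.mp hT').1
        rw [e1] at hs
        rw [Finset.sum_filter]
        have e2 : ∑ T' ∈ S \ S₀, (if s ∈ T' then a' T' else 0) =
            ∑ T' ∈ S \ S₀, (if s ∈ T' then a T' else 0) + (if s ∈ T then α else 0) := by
          rw [← Finset.add_sum_erase _ _ hTD, ← Finset.add_sum_erase (S \ S₀)
            (fun T' => if s ∈ T' then a T' else 0) hTD]
          have e3 : ∑ T' ∈ (S \ S₀).erase T, (if s ∈ T' then a' T' else 0) =
              ∑ T' ∈ (S \ S₀).erase T, (if s ∈ T' then a T' else 0) := by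
            refine Finset.sum_congr rfl fun T' hT' => ?_
            simp only [a', if_neg (Finset.mem_erase.mp hT').1]
          rw [e3]
          by_cases hsT : s ∈ T
          · simp only [hsT, if_true, a']
            abel
          · simp only [hsT, if_false]
            abel
        rw [e2]
        by_cases hsT : s ∈ T
        · rw [if_pos hsT]
          rw [hone s hsT, one_smul] at hs
          exact hs
        · rw [if_neg hsT, add_zero]
          by_cases hsE : s ∈ E₀
          · rcases hp s hsE hsT with h | ⟨T₁, T₂, hne, h, -⟩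
            · rw [h, Finset.card_empty, zero_smul, add_zero] at hs
              exact hs
            · rw [h, Finset.card_pair hne, two_smul, h2α, add_zero] at hs
              exact hs
          · refine Finset.sum_eq_zero fun T' hT' => ?_
            rw [if_neg]
            intro h
            exact hsE (hsub T' (hS (Finset.mem_sdiff.mp hT').1) h)
    · -- a rational dependence
      exfalso
      have hαne : α ≠ -α := by
        intro h
        apply h2α
        nth_rewrite 1 [h]
        exact neg_add_cancel α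
      set Cp := S₀.filter (fun T => a T = α) with hCp
      set Cm := S₀.filter (fun T => a T = -α) with hCm
      let p : σ → ℕ := fun s => (Cp.filter (fun T => s ∈ T)).card
      let q : σ → ℕ := fun s => (Cm.filter (fun T => s ∈ T)).card
      have hpq0 : ∀ s ∈ E₀, s ∉ T → p s = q s := by
        intro s hs hsT
        have c1 : Cp.filter (fun T => s ∈ T) =
            (S₀.filter (fun T => s ∈ T)).filter (fun T => a T = α) := Finset.filter_comm _ _ _
        have c2 : Cm.filter (fun T => s ∈ T) =
            (S₀.filter (fun T => s ∈ T)).filter (fun T => a T = -α) := Finset.filter_comm _ _ _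
        change (Cp.filter _).card = (Cm.filter _).card
        rw [c1, c2]
        rcases hp s hs hsT with h | ⟨T₁, T₂, hne, h, h'⟩
        · rw [h]; simp
        · rw [h]
          have m1 : T₁ ∈ S₀ := by
            have : T₁ ∈ S₀.filter (fun T => s ∈ T) := by rw [h]; simp
            exact (Finset.mem_filter.mp this).1
          rcases hall T₁ m1 with e | e
          · have e' : a T₂ = -α := by rw [h', e]
            have r1 : ({T₁, T₂} : Finset (Finset σ)).filter (fun T => a T = α) = {T₁} := by
              ext T'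
              simp only [Finset.mem_filter, Finset.mem_insert, Finset.mem_singleton]
              constructor
              · rintro ⟨rfl | rfl, h''⟩
                · rfl
                · rw [e'] at h''
                  exact absurd h''.symm hαne
              · rintro rfl
                exact ⟨Or.inl rfl, e⟩
            have r2 : ({T₁, T₂} : Finset (Finset σ)).filter (fun T => a T = -α) = {T₂} := by
              ext T'
              simp only [Finset.mem_filter, Finset.mem_insert, Finset.mem_singleton]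
              constructor
              · rintro ⟨rfl | rfl, h''⟩
                · rw [e] at h''
                  exact absurd h'' hαne
                · rfl
              · rintro rfl
                exact ⟨Or.inr rfl, e'⟩
            rw [r1, r2, Finset.card_singleton, Finset.card_singleton]
          · have e' : a T₂ = α := by rw [h', e, neg_neg]
            have r1 : ({T₁, T₂} : Finset (Finset σ)).filter (fun T => a T = α) = {T₂} := by
              ext T'
              simp only [Finset.mem_filter, Finset.mem_insert, Finset.mem_singleton]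
              constructor
              · rintro ⟨rfl | rfl, h''⟩
                · rw [e] at h''
                  exact absurd h''.symm hαne
                · rfl
              · rintro rfl
                exact ⟨Or.inr rfl, e'⟩
            have r2 : ({T₁, T₂} : Finset (Finset σ)).filter (fun T => a T = -α) = {T₁} := by
              ext T'
              simp only [Finset.mem_filter, Finset.mem_insert, Finset.mem_singleton]
              constructor
              · rintro ⟨rfl | rfl, h''⟩
                · rfl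
                · rw [e'] at h''
                  exact absurd h'' hαne
              · rintro rfl
                exact ⟨Or.inl rfl, e⟩
            rw [r1, r2, Finset.card_singleton, Finset.card_singleton]
      have hpq1 : ∀ s ∈ T, p s + q s = 1 := by
        intro s hs
        rw [← hone s hs]
        change (Cp.filter _).card + (Cm.filter _).card = _
        rw [← Finset.card_union_of_disjoint]
        · congr 1
          ext T'
          simp only [hCp, hCm, Finset.mem_union, Finset.mem_filter]
          constructor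
          · rintro (⟨⟨h1, _⟩, h2⟩ | ⟨⟨h1, _⟩, h2⟩)
            · exact ⟨h1, h2⟩
            · exact ⟨h1, h2⟩
          · rintro ⟨h1, h2⟩
            rcases hall T' h1 with e | e
            · exact Or.inl ⟨⟨h1, e⟩, h2⟩
            · exact Or.inr ⟨⟨h1, e⟩, h2⟩
        · rw [Finset.disjoint_left]
          intro T' h1 h2
          simp only [hCp, hCm, Finset.mem_filter] at h1 h2
          exact hαne (h1.1.2.symm.trans h2.1.2)
      have hcount : ∀ C ⊆ S₀, ∑ s ∈ E₀, (C.filter (fun T => s ∈ T)).card = 3 * C.card := by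
        intro C hC
        have e1 : ∀ s ∈ E₀, (C.filter (fun T => s ∈ T)).card = ∑ T' ∈ C, if s ∈ T' then 1 else 0 :=
          fun s _ => by rw [Finset.card_filter]
        rw [Finset.sum_congr rfl e1, Finset.sum_comm]
        have e2 : ∀ T' ∈ C, ∑ s ∈ E₀, (if s ∈ T' then 1 else 0) = 3 := by
          intro T' hT'
          rw [← Finset.card_filter]
          have e3 : E₀.filter (fun s => s ∈ T') = T' := by
            ext s
            rw [Finset.mem_filter]
            exact ⟨fun h => h.2, fun h => ⟨hsub T' (hS (hS₀S (hC hT'))) h, h⟩⟩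
          rw [e3]
          exact hcard T' (hS (hS₀S (hC hT')))
        rw [Finset.sum_congr rfl e2, Finset.sum_const, smul_eq_mul, mul_comm]
      have hp3 : ∑ s ∈ E₀, p s = 3 * Cp.card := hcount Cp (Finset.filter_subset _ _)
      have hq3 : ∑ s ∈ E₀, q s = 3 * Cm.card := hcount Cm (Finset.filter_subset _ _)
      have hTE : T ⊆ E₀ := hsub T (hS hTS)
      have hsp : ∑ s ∈ E₀, p s = ∑ s ∈ E₀ \ T, p s + ∑ s ∈ T, p s := (Finset.sum_sdiff hTE).symm
      have hsq : ∑ s ∈ E₀, q s = ∑ s ∈ E₀ \ T, q s + ∑ s ∈ T, q s := (Finset.sum_sdiff hTE).symm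
      have hspq : ∑ s ∈ E₀ \ T, p s = ∑ s ∈ E₀ \ T, q s :=
        Finset.sum_congr rfl fun s hs => hpq0 s (Finset.mem_sdiff.mp hs).1 (Finset.mem_sdiff.mp hs).2
      have hsT : ∑ s ∈ T, p s + ∑ s ∈ T, q s = 3 := by
        rw [← Finset.sum_add_distrib, Finset.sum_congr rfl hpq1, Finset.sum_const,
          hcard T (hS hTS)]
        rfl
      have hpT : ∑ s ∈ T, p s = 0 ∨ ∑ s ∈ T, p s = 3 := by omega
      obtain ⟨ε, hε, hεT⟩ : ∃ ε : ℚ, ε ≠ 0 ∧ ∀ s ∈ T, (p s : ℚ) - q s = ε := by
        rcases hpT with h | h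
        · refine ⟨-1, by norm_num, fun s hs => ?_⟩
          have e1 : p s = 0 := (Finset.sum_eq_zero_iff.mp h) s hs
          have e2 := hpq1 s hs
          have e3 : q s = 1 := by omega
          rw [e1, e3]; norm_num
        · have h' : ∑ s ∈ T, q s = 0 := by omega
          refine ⟨1, by norm_num, fun s hs => ?_⟩
          have e1 : q s = 0 := (Finset.sum_eq_zero_iff.mp h') s hs
          have e2 := hpq1 s hs
          have e3 : p s = 1 := by omega
          rw [e1, e3]; norm_num
      have hcon := hind (fun T' => (if T' ∈ Cp then 1 else 0) - (if T' ∈ Cm then 1 else 0) -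
        (if T' = T then ε else 0)) ?_ T hTS
      · have n1 : T ∉ Cp := fun h => hTS₀ (Finset.mem_filter.mp h).1
        have n2 : T ∉ Cm := fun h => hTS₀ (Finset.mem_filter.mp h).1
        simp only [n1, n2, if_true, if_false] at hcon
        apply hε
        linarith
      · intro s
        rw [Finset.sum_sub_distrib, Finset.sum_sub_distrib]
        have e1 : ∀ C ⊆ S, ∑ T' ∈ S with s ∈ T', (if T' ∈ C then (1 : ℚ) else 0) =
            ((C.filter (fun T' => s ∈ T')).card : ℚ) := by
          intro C hC
          rw [← Finset.sum_filter, Finset.filter_filter, Finset.sum_const, nsmul_eq_mul, mul_one]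
          congr 2
          ext T'
          simp only [Finset.mem_filter]
          exact ⟨fun h => ⟨h.2.2, h.2.1⟩, fun h => ⟨hC h.1, h.2, h.1⟩⟩
        rw [e1 Cp ((Finset.filter_subset _ _).trans hS₀S),
          e1 Cm ((Finset.filter_subset _ _).trans hS₀S)]
        have e2 : ∑ T' ∈ S with s ∈ T', (if T' = T then ε else 0) = if s ∈ T then ε else 0 := by
          by_cases hsT : s ∈ T
          · rw [if_pos hsT, Finset.sum_ite_eq', if_pos (Finset.mem_filter.mpr ⟨hTS, hsT⟩)]
          · rw [if_neg hsT, Finset.sum_ite_eq']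
            have hn : T ∉ S.filter (fun T' => s ∈ T') := fun h =>
              absurd (Finset.mem_filter.mp h).2 hsT
            rw [if_neg hn]
        rw [e2]
        by_cases hsT : s ∈ T
        · rw [if_pos hsT]
          have := hεT s hsT
          change (p s : ℚ) - q s - ε = 0
          linarith
        · rw [if_neg hsT, sub_zero]
          by_cases hsE : s ∈ E₀
          · have := hpq0 s hsE hsT
            change (p s : ℚ) - q s = 0
            rw [this, sub_self]
          · have e3 : ∀ C ⊆ S₀, (C.filter (fun T' => s ∈ T')).card = 0 := by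
              intro C hC
              rw [Finset.card_eq_zero, Finset.filter_eq_empty_iff]
              intro T' hT' h
              exact hsE (hsub T' (hS (hS₀S (hC hT'))) h)
            rw [e3 Cp (Finset.filter_subset _ _), e3 Cm (Finset.filter_subset _ _)]
            simp

end

end Pool.Agent.R31.TwoTorsion
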